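import Pool.Agent.Lib.MP_41050a_ag.NK.Ant
import Pool.Agent.Lib.MP_7e5527_ag.EA.AK

/-! Descent to power series over the ground field. -/

namespace Pool.Agent.Lib.MP_41050a_ag.NK

open Polynomial Module

set_option linter.unusedSectionVars false

noncomputable section

variable {k : Type} [Field k] [IsAlgClosed k] [CharZero k] {N n e : ℕ} {I : Ideal (Pk k N)}
  {Λ : Type} [Field Λ] [Algebra k Λ] [IsAlgClosed Λ] {O : Type} [CommRing O] [IsDomain O]
  [Algebra k O] {red : O →ₐ[k] Λ} {P : Ideal (MvPolynomial (Ix N e) k)} {d b : ℤ}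

/-- Curve selection. -/
theorem desc_arc {σ : Type} [Finite σ] (y : σ → O) (a : σ → k)
    (ha : ∀ g : MvPolynomial σ k, MvPolynomial.aeval y g = 0 → MvPolynomial.aeval a g = 0) {s₀ : σ}
    (h0 : y s₀ ≠ 0) (h1 : a s₀ = 0) : ∃ η : σ → PowerSeries k,
      (∀ g : MvPolynomial σ k, MvPolynomial.aeval y g = 0 → MvPolynomial.aeval η g = 0) ∧
      (∀ s, PowerSeries.constantCoeff (η s) = a s) ∧ η s₀ ≠ 0 := by
  let q := RingHom.ker (MvPolynomial.aeval y : MvPolynomial σ k →ₐ[k] O)
  have : q.IsPrime := RingHom.ker_isPrime _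
  obtain ⟨𝔓, _, h2⟩ := E7.krull a q ha
  obtain ⟨w, h3, h4, h5⟩ := E7.arc 𝔓 (G := MvPowerSeries.X s₀) (fun h => h0 (by
    have h6 := (h2 (MvPolynomial.X s₀)).1 (by
      rwa [MvPolynomial.aeval_X, h1, map_zero, zero_add])
    rwa [RingHom.mem_ker, MvPolynomial.aeval_X] at h6)) (MvPowerSeries.constantCoeff_X s₀)
  have h7 : ∀ c, E7.sb w (MvPowerSeries.C c) = MvPowerSeries.C c := E7.evx_C h3.ev
  let ψ : MvPowerSeries σ k →ₐ[k] PowerSeries k := ⟨E7.sb w, h7⟩
  refine ⟨fun s => ψ (MvPowerSeries.C (a s) + MvPowerSeries.X s), fun g hg => ?_, fun s => ?_, ?_⟩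
  · exact (MvPolynomial.comp_aeval_apply _ ψ g).symm.trans (h4 _ ((h2 g).2 hg))
  · refine (E7.const_sb h3 _).trans ?_
    simp
  · beta_reduce
    rwa [h1, map_zero, zero_add]

theorem desc_coeff {R : Type} [CommRing R] (c : Ix N e → R) (i : Fin (N + 1)) (j : ℕ) :
    (pol c i).coeff j = if h : j < e + 1 then c (i, ⟨j, h⟩) else 0 := by
  split_ifs with h
  · exact pol_coeff c i ⟨j, h⟩
  · exact coeff_eq_zero_of_natDegree_lt ((pol_deg c i).trans_lt (by omega))

/-- The variables are the node parameter, the low coefficients of the bubble and the high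
coefficients of the family. -/
theorem Two.breaks (hV : SmoothVar I) (hn : Dim I n k) {c : Ix N e → O}
    (hc : ∀ g ∈ P, MvPolynomial.aeval c g = 0) (h : Two red I n e (pol c) d) :
    BreaksN I e P := by
  obtain ⟨e₁, e₂, d₁, d₂, F₁, σ, H, he, -, h0, h1, c1, f1, c2, f2, h2, h3⟩ := h.ex
  obtain ⟨s₁, t1, u1⟩ := spread_map hV hn c1.map c1.deg
  obtain ⟨s₂, t2, u2⟩ := spread_map hV hn c2.map c2.deg
  let y : Option (Ix N e) → O := fun o =>
    o.elim σ fun s => if (s.2 : ℕ) ≤ e₂ then (H s.1).coeff s.2 else c s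
  have h4 : ∀ s : Ix N e, c s = σ ^ (e₂ - s.2) * y (some s) := fun s => by
    have h5 := congrArg (coeff · s.2) (h3 s.1)
    simp only [comp_C_mul_X_coeff, pol_coeff, ← C_pow, coeff_C_mul] at h5
    simp only [y, Option.elim]
    split_ifs with h
    · refine mul_left_cancel₀ (pow_ne_zero s.2 h0) ?_
      rw [← mul_assoc, ← pow_add, Nat.add_sub_cancel' h, ← h5, mul_comm]
    · rw [Nat.sub_eq_zero_of_le (not_le.1 h).le, pow_zero, one_mul]
  let A := Algebra.adjoin k (s₁ ∪ s₂ ∪ Set.range (red ∘ y))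
  obtain ⟨φ⟩ := exists_point (k := k) ((t1.union t2).union (Set.finite_range (red ∘ y)))
  let z : Option (Ix N e) → A := fun o => ⟨red (y o), Algebra.subset_adjoin (Or.inr ⟨o, rfl⟩)⟩
  obtain ⟨η, g1, g2, g3⟩ := desc_arc y (φ ∘ z) (fun g hg => by
    have h5 : MvPolynomial.aeval z g = 0 := Subtype.ext
      ((MvPolynomial.comp_aeval_apply z A.val g).trans
        ((MvPolynomial.comp_aeval_apply y red g).symm.trans (by rw [hg, map_zero]; rfl)))
    exact (MvPolynomial.comp_aeval_apply z φ g).symm.trans (by rw [h5, map_zero])) (s₀ := none) h0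
    ((congrArg φ (Subtype.ext h1)).trans (map_zero φ))
  have g4 : PowerSeries.constantCoeff (η none) = 0 :=
    (g2 none).trans ((congrArg φ (Subtype.ext h1)).trans (map_zero φ))
  obtain ⟨m1, -, m2⟩ := u1 A (fun x hx => Algebra.subset_adjoin (Or.inl (Or.inl hx))) φ
    (pol fun s : Ix N e₁ => z (some (s.1, ⟨s.2 + e₂, by omega⟩))) fun i => by
      ext j
      rw [coeff_map, desc_coeff]
      split_ifs with h
      · have h5 := congrArg (coeff · (j + e₂)) (h2 i)
        simp only [rd, coeff_map, coeff_X_pow_mul] at h5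
        rw [desc_coeff, dif_pos (by omega), h4, Nat.sub_eq_zero_of_le (Nat.le_add_left _ _),
          pow_zero, one_mul] at h5
        exact h5
      · rw [map_zero, coeff_eq_zero_of_natDegree_lt ((c1.map.deg i).trans_lt (by omega))]
  obtain ⟨m3, -, m4⟩ := u2 A (fun x hx => Algebra.subset_adjoin (Or.inl (Or.inr hx))) φ
    (pol fun s : Ix N e₂ => z (some (s.1, ⟨s.2, by omega⟩))) fun i => by
      ext j
      rw [coeff_map, desc_coeff]
      split_ifs with h
      · rw [rd, coeff_map]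
        exact congrArg red (if_pos (Nat.le_of_lt_succ h))
      · rw [map_zero, coeff_eq_zero_of_natDegree_lt ((c2.map.deg i).trans_lt (by omega))]
  refine ⟨e₁, e₂, η none, _, _, fun s => η none ^ (e₂ - s.2) * η (some s),
    pol fun s : Ix N e => η none ^ (s.2 - e₂) * η (some s), c1.pos, c2.pos, he, m1, m2.1 f1, m3,
    m4.1 f2, g3, g4, fun g hg => ?_, fun i => ?_, fun i => ?_, fun i => ?_⟩
  · have h5 := g1 (MvPolynomial.aeval (fun s : Ix N e => (MvPolynomial.X none ^ (e₂ - s.2) *
      MvPolynomial.X (some s) : MvPolynomial (Option (Ix N e)) k)) g) (by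
        rw [MvPolynomial.comp_aeval_apply, ← hc g hg]
        simp only [map_mul, map_pow, MvPolynomial.aeval_X]
        exact congrArg (MvPolynomial.aeval · g) (funext h4).symm)
    rw [MvPolynomial.comp_aeval_apply] at h5
    simpa only [map_mul, map_pow, MvPolynomial.aeval_X] using h5
  · ext j
    rw [coeff_map, coeff_X_pow_mul', coeff_map, desc_coeff, desc_coeff]
    by_cases h5 : e₂ ≤ j
    · rw [if_pos h5]
      by_cases h6 : j < e + 1
      · rw [dif_pos h6, dif_pos (by omega), Nat.sub_eq_zero_of_le h5, pow_zero, one_mul, g2]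
        simp only [Nat.sub_add_cancel h5]
        rfl
      · rw [dif_neg h6, dif_neg (by omega), map_zero, map_zero]
    · rw [if_neg h5, dif_pos (by omega), map_mul, map_pow, g4, zero_pow (by simp; omega), zero_mul]
  · ext j : 1
    rw [comp_C_mul_X_coeff, ← C_pow, coeff_C_mul, desc_coeff, desc_coeff]
    split_ifs with h
    · rw [← mul_assoc, ← pow_add, mul_right_comm, ← pow_add]
      congr 2
      simp only
      omega
    · rw [zero_mul, mul_zero]
  · ext j
    rw [coeff_map, coeff_map, desc_coeff, desc_coeff]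
    by_cases h5 : j < e₂ + 1
    · rw [dif_pos h5, dif_pos (by omega), Nat.sub_eq_zero_of_le (Nat.le_of_lt_succ h5), pow_zero,
        one_mul, g2]
      rfl
    · rw [dif_neg h5, map_zero]
      split_ifs with h
      · rw [map_mul, map_pow, g4, zero_pow (by simp; omega), zero_mul]
      · exact map_zero _

theorem NkO.final (hV : SmoothVar I) (hn : Dim I n k) (h : NkO I n Λ b) :
    ∃ (ε e' : ℕ) (F : V k[X] N) (d : ℤ), b ≤ ε ∧ ε + d ≤ n ∧ Neck I n ε ∧ Curve I n e' F d ∧
      Free I e' F := by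
  obtain ⟨ε, x, y, e, F, d, h1, h2, h3, h4, h5, h6⟩ := h
  obtain ⟨F', h7, h8⟩ := h5.spec hV hn
  exact ⟨ε, e, F', d, h1, h2, ⟨Λ, _, _, inferInstance, x, y, h3, h4⟩, h7, h8 h6⟩

end

end Pool.Agent.Lib.MP_41050a_ag.NK
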