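import Pool.Agent.Lib.MP_41050a_ag.NK.Gen

/-! Normalisation of the generic point. -/

namespace Pool.Agent.Lib.MP_41050a_ag.NK

open Polynomial Module

set_option linter.unusedSectionVars false

noncomputable section

variable {k : Type} [Field k] [IsAlgClosed k] [CharZero k] {N n e : ℕ} {I : Ideal (Pk k N)}
  {E : Type} [Field E] [Algebra k E] [IsAlgClosed E] {P : Ideal (MvPolynomial (Ix N e) k)}
  {ξ : Ix N e → E} {d c : ℤ}

theorem norm1_pol {R : Type} [CommRing R] (a : R) (γ : Ix N e → R) :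
    pol (a • γ) = C a • pol γ := funext fun i => by
  simp only [pol, Pi.smul_apply, smul_eq_mul, Finset.mul_sum, C_mul_monomial]

/-- `gen_min` for `γ x = C (ξ x) * X` over `E[X]` with `φ` the evaluation at `1` (`On.smul`,
`On.map`), then evaluate at `a`. -/
theorem scal_mem (hV : Cone I) (hP : P ∈ (eqs I e).minimalPrimes)
    (hξ : ∀ g, MvPolynomial.aeval ξ g = 0 ↔ g ∈ P) (a : E) :
    ∀ g ∈ P, MvPolynomial.aeval (a • ξ) g = 0 := by
  intro g hg
  have h1 : On I (pol ξ) := eqs_iff.1 fun g hg => (hξ g).2 (hP.1.2 hg)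
  have h2 : On I (pol ((X : E[X]) • (C ∘ ξ))) := by
    have h3 := h1.map (mapAlgHom ((CAlgHom : E →ₐ[E] E[X]).restrictScalars k))
    rw [norm1_pol]
    refine On.smul hV ?_ _
    have h4 : pol (C ∘ ξ) = _ := funext fun i => (pol_map ξ C i).symm
    rw [h4]
    exact h3
  have h5 := (gen_min hP hξ ((aeval (1 : E)).restrictScalars k) h2 (fun x => by simp) g).2 hg
  have h6 := MvPolynomial.comp_aeval_apply ((X : E[X]) • (C ∘ ξ))
    ((aeval a : E[X] →ₐ[E] E).restrictScalars k) g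
  rw [h5, map_zero] at h6
  refine Eq.trans ?_ h6.symm
  congr 2
  funext x
  simp [mul_comm a]

/-- With `c` the image of `X` in `L = RatFunc E` the tuple is `c ^ e * (pol ξ)(t / c)`: `On.map`
for `aeval (C c⁻¹ * X) : E[X] → L[X]`, `On.smul`, then `On.of_map` for `mapAlgHom (amH k E)`. -/
theorem rot_on (hV : Cone I) (h : On I (pol ξ)) :
    On I (pol fun x : Ix N e => (C (ξ x) * X ^ (e - x.2) : E[X])) := by
  have h1 := (h.map ((aeval (C (RatFunc.X : RatFunc E)⁻¹ * X) :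
    E[X] →ₐ[E] (RatFunc E)[X]).restrictScalars k)).smul hV (C (RatFunc.X ^ e))
  refine On.of_map (φ := mapAlgHom (amH k E)) (map_injective _ free_amH_inj) ?_
  refine (congrArg (On I) (funext fun i => ?_)).mp h1
  simp only [pol, Pi.smul_apply, Function.comp_apply, map_sum, smul_eq_mul, Finset.mul_sum]
  refine Finset.sum_congr rfl fun j _ => ?_
  have h2 : (RatFunc.X : RatFunc E) ^ e * RatFunc.X⁻¹ ^ (j : ℕ) = RatFunc.X ^ (e - j) := by
    rw [pow_sub₀ _ RatFunc.X_ne_zero (Nat.lt_succ_iff.1 j.2), inv_pow]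
  rw [AlgHom.restrictScalars_apply, aeval_monomial, mapAlgHom_monomial, ← C_mul_X_pow_eq_monomial,
    map_mul, map_pow (amH k E), mul_pow, Polynomial.algebraMap_apply]
  change _ = C (algebraMap E[X] (RatFunc E) (C _) * algebraMap E[X] (RatFunc E) X ^ _) * _
  rw [RatFunc.algebraMap_X, ← h2, RatFunc.algebraMap_C, RatFunc.algebraMap_eq_C, map_mul, map_mul,
    C_pow (a := (RatFunc.X : RatFunc E)⁻¹)]
  ring

/-- The map `adjoin k (range ξ) → E'` on the subalgebra (a quotient of the polynomial ring) is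
injective; extend it to the field of fractions (`IntermediateField.adjoin` is a fraction ring of
`Algebra.adjoin`: `IntermediateField.adjoin.isFractionRing` or `IsFractionRing.liftAlgHom`). -/
theorem exists_hom {σ E' : Type} [Field E'] [Algebra k E'] {ξ : σ → E} {η : σ → E'}
    (h : ∀ g : MvPolynomial σ k, MvPolynomial.aeval ξ g = 0 ↔ MvPolynomial.aeval η g = 0) :
    ∃ ψ : IntermediateField.adjoin k (Set.range ξ) →ₐ[k] E',
      ∀ x, ψ ⟨ξ x, IntermediateField.subset_adjoin k _ ⟨x, rfl⟩⟩ = η x := by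
  open scoped IntermediateField.algebraAdjoinAdjoin in
  let f : MvPolynomial σ k →ₐ[k] Algebra.adjoin k (Set.range ξ) :=
    MvPolynomial.aeval fun x => ⟨ξ x, Algebra.subset_adjoin ⟨x, rfl⟩⟩
  have h1 (g) : (f g : E) = MvPolynomial.aeval ξ g :=
    MvPolynomial.comp_aeval_apply _ (Algebra.adjoin k (Set.range ξ)).val g
  have h2 : Function.Surjective f := fun ⟨a, ha⟩ => by
    rw [← MvPolynomial.aeval_range] at ha
    obtain ⟨g, rfl⟩ := ha
    exact ⟨g, Subtype.ext (h1 g)⟩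
  let φ := f.liftOfSurjective h2 (MvPolynomial.aeval η) fun g hg =>
    (h g).1 ((h1 g).symm.trans (congrArg Subtype.val hg))
  have h3 (g) : φ (f g) = MvPolynomial.aeval η g := f.liftOfSurjective_apply ..
  have h4 : Function.Injective φ := (injective_iff_map_eq_zero _).2 fun a ha => by
    obtain ⟨g, rfl⟩ := h2 a
    exact Subtype.ext ((h1 g).trans ((h g).2 ((h3 g).symm.trans ha)))
  refine ⟨IsFractionRing.liftAlgHom h4, fun x => ?_⟩
  have h5 := h3 (MvPolynomial.X x)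
  rw [MvPolynomial.aeval_X, MvPolynomial.aeval_X] at h5
  exact (IsFractionRing.lift_algebraMap (g := φ.toRingHom) h4
    ⟨ξ x, Algebra.subset_adjoin ⟨x, rfl⟩⟩).trans h5

/-- The two ends, normalised. -/
def ends (α : Ix N e → E) (i₁ : Fin (N + 1)) : Fin (N + 1) ⊕ Fin (N + 1) → E :=
  Sum.elim (fun i => α (i, Fin.last e)) fun i => α (i, 0) / α (i₁, 0)

/-- `rot_on`, `gen_min` (evaluation at `1`) and `exists_hom` give `ψ : k(ξ) →ₐ[k] RatFunc E` with
`ψ (ξ x) = ξ x * c ^ (e - x.2)`. Then `ψ (α x) = α x * c ^ (e - x.2)`, `ψ` is the inclusion on the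
ends, hence on `k'`, and sends `adjoin k' (range α)` into `E[c]` (inductions; state them as
`∃ h : q ∈ k(ξ), ∃ f : E[X], ψ ⟨q, h⟩ = algebraMap _ _ f`). From `l * q = 1` we get
`C l * X ^ e * f = 1` in `E[X]`; evaluate at `0`. -/
theorem not_unit (hV : Cone I) (hP : P ∈ (eqs I e).minimalPrimes)
    (hξ : ∀ g, MvPolynomial.aeval ξ g = 0 ↔ g ∈ P) (he : 0 < e) {i₀ i₁ : Fin (N + 1)}
    (h0 : ξ (i₀, Fin.last e) ≠ 0) (h1 : ξ (i₁, 0) ≠ 0) {α : Ix N e → E}
    (hα : α = (ξ (i₀, Fin.last e))⁻¹ • ξ) :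
    ∀ q ∈ Algebra.adjoin (IntermediateField.adjoin k (Set.range (ends α i₁))) (Set.range α),
      α (i₁, 0) * q ≠ 1 := by
  have ha : Function.Injective (amH k E) := IsFractionRing.injective E[X] (RatFunc E)
  have hγ := gen_min hP hξ ((aeval (1 : E) : E[X] →ₐ[E] E).restrictScalars k)
    (rot_on hV (eqs_iff.1 fun g hg => (hξ g).2 (hP.1.2 hg))) fun x => by simp
  obtain ⟨ψ, hψ⟩ := exists_hom (k := k) (ξ := ξ)
    (η := fun x : Ix N e => amH k E (C (ξ x) * X ^ (e - x.2))) fun g => by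
      rw [hξ, ← hγ, ← map_eq_zero_iff _ ha, MvPolynomial.comp_aeval_apply]
  obtain ⟨R, hR⟩ : ∃ R : E → RatFunc E → Prop, ∀ q f, R q f ↔
      ∃ y : IntermediateField.adjoin k (Set.range ξ), (y : E) = q ∧ ψ y = f := ⟨_, fun _ _ => .rfl⟩
  have Ra : ∀ {q q' f f'}, R q f → R q' f' → R (q + q') (f + f') := by
    simp only [hR]
    rintro _ _ _ _ ⟨y, rfl, rfl⟩ ⟨y', rfl, rfl⟩
    exact ⟨y + y', rfl, map_add _ _ _⟩
  have Rm : ∀ {q q' f f'}, R q f → R q' f' → R (q * q') (f * f') := by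
    simp only [hR]
    rintro _ _ _ _ ⟨y, rfl, rfl⟩ ⟨y', rfl, rfl⟩
    exact ⟨y * y', rfl, map_mul _ _ _⟩
  have Ri : ∀ {q f}, R q f → R q⁻¹ f⁻¹ := by
    simp only [hR]
    rintro _ _ ⟨y, rfl, rfl⟩
    exact ⟨y⁻¹, rfl, map_inv₀ _ _⟩
  have R1 : ∀ {f}, R 1 f → f = 1 := by
    simp only [hR]
    rintro _ ⟨y, hy, rfl⟩
    rw [show y = 1 from Subtype.ext hy, map_one]
  have Rξ : ∀ x, R (ξ x) (amH k E (C (ξ x) * X ^ (e - x.2))) := fun x =>
    (hR _ _).2 ⟨_, rfl, hψ x⟩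
  have hi : ∀ q : E, (amH k E (C q))⁻¹ = amH k E (C q⁻¹) := fun q =>
    (map_inv₀ ((amH k E : E[X] →+* RatFunc E).comp C) q).symm
  have Rα : ∀ x, R (α x) (amH k E (C (α x) * X ^ (e - x.2))) := fun x => by
    have h := Rξ (i₀, Fin.last e)
    rw [Fin.val_last, Nat.sub_self, pow_zero, mul_one] at h
    have h' := Rm (Ri h) (Rξ x)
    rw [hi, ← map_mul, ← mul_assoc, ← C_mul] at h'
    rw [hα]
    exact h'
  have Rk : ∀ q ∈ IntermediateField.adjoin k (Set.range (ends α i₁)), R q (amH k E (C q)) := by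
    intro q hq
    induction hq using IntermediateField.adjoin_induction with
    | mem q hq =>
      obtain ⟨i | i, rfl⟩ := hq
      · have h := Rα (i, Fin.last e)
        rwa [Fin.val_last, Nat.sub_self, pow_zero, mul_one] at h
      · have h := Rm (Rα (i, 0)) (Ri (Rα (i₁, 0)))
        have hX : amH k E (X ^ (e - ((0 : Fin (e + 1)) : ℕ))) ≠ 0 :=
          (map_ne_zero_iff _ ha).2 (pow_ne_zero _ X_ne_zero)
        rwa [map_mul, map_mul, ← div_eq_mul_inv (_ * _), mul_div_mul_right _ _ hX, div_eq_mul_inv,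
          hi, ← map_mul, ← C_mul, ← div_eq_mul_inv] at h
    | algebraMap c => exact (hR _ _).2 ⟨_, rfl, (ψ.commutes c).trans ((amH k E).commutes c).symm⟩
    | add x y _ _ hx hy =>
      rw [C_add, map_add]
      exact Ra hx hy
    | inv x _ hx => exact hi x ▸ Ri hx
    | mul x y _ _ hx hy =>
      rw [C_mul, map_mul]
      exact Rm hx hy
  intro q hq h
  have Rq : ∃ f : E[X], R q (amH k E f) := by
    clear h
    induction hq using Algebra.adjoin_induction with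
    | mem q hq =>
      obtain ⟨x, rfl⟩ := hq
      exact ⟨_, Rα x⟩
    | algebraMap c => exact ⟨_, Rk c c.2⟩
    | add x y _ _ hx hy =>
      obtain ⟨f, hf⟩ := hx
      obtain ⟨g, hg⟩ := hy
      exact ⟨f + g, map_add (amH k E) f g ▸ Ra hf hg⟩
    | mul x y _ _ hx hy =>
      obtain ⟨f, hf⟩ := hx
      obtain ⟨g, hg⟩ := hy
      exact ⟨f * g, map_mul (amH k E) f g ▸ Rm hf hg⟩
  obtain ⟨f, hf⟩ := Rq
  have h2 := Rm (Rα (i₁, 0)) hf
  rw [h, ← map_mul] at h2
  have h3 := congrArg (eval 0) (ha ((R1 h2).trans (map_one _).symm))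
  simp [he.ne'] at h3

/-- The frame is the same (`tg_smul_left`). -/
theorem norm_smul (hV : Cone I) (hF : IsMap I e (pol ξ)) (hd : AntiK I n e (pol ξ) d) {a : E}
    (ha : a ≠ 0) : IsMap I e (pol (a • ξ)) ∧ AntiK I n e (pol (a • ξ)) d := by
  obtain ⟨δ, G, hG, rfl⟩ := hd
  refine ⟨⟨pol_deg _, ?_, fun p => ?_⟩, δ, G, ⟨hG.deg, fun j => ?_, hG.ind⟩, rfl⟩
  · rw [norm1_pol]
    exact hF.on.smul hV _
  · obtain ⟨i, hi⟩ := hF.bpf p
    refine ⟨i, ?_⟩
    rw [norm1_pol, Pi.smul_apply, smul_eq_mul, free0_val_mul]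
    exact mul_ne_zero ha hi
  · rw [norm1_pol]
    exact tg_smul_left hV (hG.tg j) _

/-- The normalised generic point. -/
structure Nm (I : Ideal (Pk k N)) (n : ℕ) (P : Ideal (MvPolynomial (Ix N e) k)) (α : Ix N e → E)
    (d : ℤ) (i₀ i₁ : Fin (N + 1)) : Prop where
  mem : ∀ g ∈ P, MvPolynomial.aeval α g = 0
  map : IsMap I e (pol α)
  deg : AntiK I n e (pol α) d
  one : α (i₀, Fin.last e) = 1
  ne : α (i₁, 0) ≠ 0
  g0 : Gn I fun i => ends α i₁ (.inl i)
  g1 : Gn I fun i => ends α i₁ (.inr i)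
  o0 : On I fun i => ends α i₁ (.inl i)
  o1 : On I fun i => ends α i₁ (.inr i)
  rank : ¬Cod ⊤ (Ann k (Set.range α)) (d + n - 1)
  nu : ∀ q ∈ Algebra.adjoin (IntermediateField.adjoin k (Set.range (ends α i₁))) (Set.range α),
    α (i₁, 0) * q ≠ 1

/-- `generic_curve`; `0 < e` by `antiK_zero`; `i₀, i₁` from `IsMap.bpf` (`pol_coeff`);
`generic_gn` with `Par.gn`, `On.val` with `Par.on`; for the rank `Cod.step` with `cod_one` for
`ξ (i₀, last e)` against `generic_rank`. -/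
theorem exists_nm (hV : SmoothVar I) (hn : Dim I n k) (hP : P ∈ (eqs I e).minimalPrimes)
    (hξ : ∀ g, MvPolynomial.aeval ξ g = 0 ↔ g ∈ P) (hg : GenK I n e P c) (hc : 0 < c) :
    ∃ (α : Ix N e → E) (d : ℤ) (i₀ i₁ : Fin (N + 1)), c ≤ d ∧ Nm I n P α d i₀ i₁ := by
  obtain ⟨hF, hf, d, hcd, hd⟩ := generic_curve hV hn hP hξ hg
  have he : 0 < e := by
    rcases Nat.eq_zero_or_pos e with rfl | h
    · have := antiK_zero hV hn hF hd
      omega
    · exact h
  have v0 : ∀ i, val e none (pol ξ i) = ξ (i, Fin.last e) := fun i => pol_coeff ξ i (Fin.last e)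
  have v1 : ∀ i, val e (some 0) (pol ξ i) = ξ (i, 0) := fun i =>
    (coeff_zero_eq_eval_zero _).symm.trans (pol_coeff ξ i 0)
  obtain ⟨i₀, h0⟩ := hF.bpf none
  obtain ⟨i₁, h1⟩ := hF.bpf (some 0)
  rw [v0] at h0
  rw [v1] at h1
  have ha := inv_ne_zero h0
  have hs := norm_smul hV.toCone hF hd ha
  have p0 : Par (ev e none (pol ξ)) fun i => ends ((ξ (i₀, Fin.last e))⁻¹ • ξ) i₁ (.inl i) :=
    ⟨_, ha, funext fun i => by simp [ends, ev, v0]⟩
  have p1 : Par (ev e (some 0) (pol ξ)) fun i => ends ((ξ (i₀, Fin.last e))⁻¹ • ξ) i₁ (.inr i) :=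
    ⟨_, inv_ne_zero h1, funext fun i => by
      simp only [ends, ev, v1, Sum.elim_inr, Pi.smul_apply, smul_eq_mul]
      field_simp⟩
  refine ⟨_, d, i₀, i₁, hcd, scal_mem hV.toCone hP hξ _, hs.1, hs.2, inv_mul_cancel₀ h0,
    mul_ne_zero ha h1, p0.gn hV.toCone (generic_gn hV hP hξ hF hf (.inl rfl)),
    p1.gn hV.toCone (generic_gn hV hP hξ hF hf (.inr rfl)), p0.on hV.toCone (On.val hV hF _),
    p1.on hV.toCone (On.val hV hF _), fun h => generic_rank hV hn hP hξ hF hf hd ?_,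
    not_unit hV.toCone hP hξ he h0 h1 rfl⟩
  refine ((h.step (cod_one ⊤ (ξ (i₀, Fin.last e))) le_top).weak le_rfl ?_).mono (by omega)
  rintro D ⟨-, hD, hD'⟩ _ ⟨x, rfl⟩
  have : ξ x = ξ (i₀, Fin.last e) * ((ξ (i₀, Fin.last e))⁻¹ • ξ) x := by
    simp [mul_inv_cancel_left₀ h0]
  rw [this, D.leibniz, hD _ ⟨x, rfl⟩, hD' _ rfl, smul_zero, smul_zero, add_zero]

end

end Pool.Agent.Lib.MP_41050a_ag.NK
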