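import Pool.Agent.Lib.MP_41050a_ag.NK.Der

/-! A divisorial place with centre on the zero set of a given function. -/

namespace Pool.Agent.Lib.MP_41050a_ag.NK

open Polynomial Module

set_option linter.unusedSectionVars false

noncomputable section

variable {k : Type} [Field k] {E : Type} [Field E] [Algebra k E]

theorem val1_ring {B : Type} [CommRing B] (f : B →+* E) (𝔭 : Ideal B) [𝔭.IsPrime]
    (hf : ∀ a, f a = 0 → a ∈ 𝔭) :
    ∃ O : ValuationSubring E, (∀ a, f a ∈ O) ∧ ∀ a, f a ∈ O.nonunits ↔ a ∈ 𝔭 := by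
  have hu : ∀ y : 𝔭.primeCompl, IsUnit (f y) := fun y => Ne.isUnit fun h => y.2 (hf _ h)
  obtain ⟨O, h, hl⟩ := IsLocalRing.exists_factor_valuationRing
    (IsLocalization.lift (S := Localization.AtPrime 𝔭) hu)
  refine ⟨O, fun a => IsLocalization.lift_eq (S := Localization.AtPrime 𝔭) hu a ▸ h _,
    fun a => ?_⟩
  rw [← IsLocalization.lift_eq (S := Localization.AtPrime 𝔭) hu,
    ← IsLocalization.AtPrime.to_map_mem_maximal_iff (Localization.AtPrime 𝔭) 𝔭]
  exact (O.coe_mem_nonunits_iff (a := ⟨_, h _⟩)).trans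
    (not_congr (isUnit_map_iff (RingHom.codRestrict _ O.toSubring h) _))

theorem val_ring {B : Type} [CommRing B] (f : B →+* E) (hf : Function.Injective f) (𝔭 : Ideal B)
    [𝔭.IsPrime] : ∃ O : ValuationSubring E, (∀ a, f a ∈ O) ∧ ∀ a, f a ∈ O.nonunits ↔ a ∈ 𝔭 :=
  val1_ring f 𝔭 fun _ h => hf (h.trans f.map_zero.symm) ▸ 𝔭.zero_mem

theorem val_var {r : ℕ} {π : MvPolynomial (Fin r) k} (h0 : π ≠ 0) (h1 : ¬IsUnit π) :
    ∃ t₀ : Fin r, ∀ g : MvPolynomial {t // t ≠ t₀} k,
      π ∣ MvPolynomial.rename Subtype.val g → g = 0 := by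
  obtain ⟨t, ht⟩ : π.vars.Nonempty := Finset.nonempty_of_ne_empty fun h => by
    rw [MvPolynomial.vars_eq_empty_iff_eq_C] at h
    exact h1 (h ▸ (Ne.isUnit fun e => h0 (by rw [h, e, map_zero])).map MvPolynomial.C)
  refine ⟨t, fun g ⟨c, hc⟩ => by_contra fun hg => ?_⟩
  have hc0 : c ≠ 0 := fun e => hg (MvPolynomial.rename_injective _ Subtype.val_injective
    (by rw [hc, e, mul_zero, map_zero]))
  obtain ⟨i, -, hi⟩ := MvPolynomial.mem_vars_rename Subtype.val g (j := t) (by
    rw [MvPolynomial.mem_vars_iff_degreeOf_ne_zero] at ht ⊢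
    rw [hc, MvPolynomial.degreeOf_mul_eq h0 hc0]
    omega)
  exact i.2 hi

theorem val_poly {r : ℕ} {z : Fin r → E} (hz : AlgebraicIndependent k z) {l : E} (h0 : l ≠ 0)
    (hi : IsIntegral (Algebra.adjoin k (Set.range z)) l)
    (hnu : ∀ q ∈ Algebra.adjoin k (insert l (Set.range z)), l * q ≠ 1) :
    ∃ (O : ValuationSubring E) (t₀ : Fin r), (∀ a ∈ Algebra.adjoin k (Set.range z), a ∈ O) ∧
      l ∈ O.nonunits ∧ ∀ g : MvPolynomial {t // t ≠ t₀} k,
        MvPolynomial.aeval (fun t : {t // t ≠ t₀} => z t) g ∈ O.nonunits → g = 0 := by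
  let _ : Algebra (MvPolynomial (Fin r) k) E := (MvPolynomial.aeval z).toRingHom.toAlgebra
  have : IsTorsionFree (MvPolynomial (Fin r) k) E := isTorsionFree_iff_algebraMap_injective.2 hz
  have hI : IsIntegral (MvPolynomial (Fin r) k) l :=
    (hz.aevalEquiv.toRingEquiv.isIntegral_iff rfl l).2 hi
  have hM := X_mul_divX_add (minpoly (MvPolynomial (Fin r) k) l)
  have hM' := congrArg (aeval l) hM
  rw [minpoly.aeval, map_add, map_mul, aeval_X, aeval_C] at hM'
  have hc0 : (minpoly (MvPolynomial (Fin r) k) l).coeff 0 ≠ 0 := fun e => by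
    rw [e, map_zero, add_zero] at hM hM'
    have h := minpoly.isIntegrallyClosed_dvd hI ((mul_eq_zero.1 hM').resolve_left h0)
    nth_rewrite 1 [← hM] at h
    refine not_isUnit_X (isUnit_of_dvd_one ((mul_dvd_mul_iff_right fun e' => ?_).1
      (h.trans (one_mul _).symm.dvd)))
    exact minpoly.ne_zero hI (by rw [← hM, e', mul_zero])
  have hz' : ∀ a ∈ Algebra.adjoin k (Set.range z),
      ∃ b, algebraMap (MvPolynomial (Fin r) k) E b = a := fun a h => by
    rwa [Algebra.adjoin_range_eq_range_aeval] at h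
  have hmem : ∀ p : (MvPolynomial (Fin r) k)[X],
      aeval l p ∈ Algebra.adjoin k (insert l (Set.range z)) := fun p => by
    refine p.induction_on' (fun _ _ h h' => by rw [map_add]; exact add_mem h h') fun n a => ?_
    rw [aeval_monomial]
    refine mul_mem (Algebra.adjoin_mono (Set.subset_insert _ _) ?_)
      (pow_mem (Algebra.subset_adjoin (Set.mem_insert _ _)) _)
    rw [Algebra.adjoin_range_eq_range_aeval]
    exact ⟨a, rfl⟩
  obtain ⟨π, hπ, hd⟩ := WfDvdMonoid.exists_irreducible_factor (fun h => by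
    obtain ⟨d, hd⟩ := h.exists_right_inv
    refine hnu _ (hmem (-C d * divX (minpoly (MvPolynomial (Fin r) k) l))) ?_
    rw [map_mul, map_neg, aeval_C, mul_left_comm, eq_neg_of_add_eq_zero_left hM', neg_mul_neg,
      ← map_mul, mul_comm, hd, map_one]) hc0
  have := (Ideal.span_singleton_prime hπ.ne_zero).2 hπ.prime
  obtain ⟨O, h1, h2⟩ := val1_ring (aeval l : (MvPolynomial (Fin r) k)[X] →ₐ[_] E).toRingHom
    ((Ideal.span {π}).comap constantCoeff) fun p hp => Ideal.mem_span_singleton.2 (hd.trans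
      (map_dvd constantCoeff (minpoly.isIntegrallyClosed_dvd hI hp)))
  obtain ⟨t, ht⟩ := val_var hπ.ne_zero hπ.not_isUnit
  refine ⟨O, t, fun a h => ?_, ?_, fun g hg => ht g ?_⟩
  · obtain ⟨b, rfl⟩ := hz' a h
    simpa using h1 (C b)
  · simpa using (h2 X).2 (by simp)
  · have := (h2 (C (MvPolynomial.rename Subtype.val g))).1 (by
      simpa [RingHom.algebraMap_toAlgebra, MvPolynomial.aeval_rename, Function.comp_def] using hg)
    simpa [Ideal.mem_span_singleton] using this

theorem val2_int {B : Type} [CommRing B] (f : B →+* E) (T : Subring E) (hT : ∀ b, f b ∈ T) {a : E}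
    (h : f.IsIntegralElem a) : IsIntegral T a := by
  obtain ⟨p, hp, h⟩ := h
  refine ⟨p.map (f.codRestrict T hT), hp.map _, ?_⟩
  rw [eval₂_map]
  exact h

/-- Noether normalisation (`exists_integral_inj_algHom_of_fg`) for `A = adjoin k (range α)`,
`val_poly`; a valuation ring contains the elements integral over it
(`ValuationSubring.isIntegrallyClosed`, `IsIntegrallyClosed.isIntegral_iff`). -/
theorem val_fg {σ : Type} [Finite σ] (α : σ → E) (s₀ : σ) (h0 : α s₀ ≠ 0)
    (hnu : ∀ q ∈ Algebra.adjoin k (Set.range α), α s₀ * q ≠ 1) :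
    ∃ (r : ℕ) (z : Fin r → E) (O : ValuationSubring E) (t₀ : Fin r),
      (∀ t, z t ∈ Algebra.adjoin k (Set.range α)) ∧
      (∀ s, IsIntegral (Algebra.adjoin k (Set.range z)) (α s)) ∧
      (∀ a ∈ Algebra.adjoin k (Set.range α), a ∈ O) ∧ α s₀ ∈ O.nonunits ∧
      ∀ g : MvPolynomial {t // t ≠ t₀} k,
        MvPolynomial.aeval (fun t : {t // t ≠ t₀} => z t) g ∈ O.nonunits → g = 0 := by
  have : Algebra.FiniteType k (Algebra.adjoin k (Set.range α)) :=
    Algebra.FiniteType.adjoin_of_finite (Set.finite_range α)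
  obtain ⟨r, g, h1, h2⟩ := exists_integral_inj_algHom_of_fg k (Algebra.adjoin k (Set.range α))
  set z : Fin r → E := fun t => g (MvPolynomial.X t) with hz
  have hG : MvPolynomial.aeval z = (Algebra.adjoin k (Set.range α)).val.comp g :=
    MvPolynomial.algHom_ext fun t => by simp [hz]
  have hi : ∀ a ∈ Algebra.adjoin k (Set.range α),
      IsIntegral (Algebra.adjoin k (Set.range z)) a := fun a ha => by
    obtain ⟨p, hp, h3⟩ := h2 ⟨a, ha⟩
    refine val2_int (MvPolynomial.aeval z : MvPolynomial (Fin r) k →ₐ[k] E).toRingHom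
      (Algebra.adjoin k (Set.range z)).toSubring (fun b => ?_) ⟨p, hp, ?_⟩
    · exact (Algebra.adjoin_range_eq_range_aeval k z).ge ⟨b, rfl⟩
    · have h4 := congrArg (Algebra.adjoin k (Set.range α)).val.toRingHom h3
      rw [hom_eval₂, map_zero] at h4
      rw [hG]
      exact h4
  have hs : ∀ s, α s ∈ Algebra.adjoin k (Set.range α) := fun s => Algebra.subset_adjoin ⟨s, rfl⟩
  obtain ⟨O, t₀, h3, h4, h5⟩ := val_poly (z := z) (l := α s₀)
    (by
      rw [algebraicIndependent_iff_injective_aeval, hG]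
      exact Subtype.val_injective.comp h1) h0 (hi _ (hs _))
    fun q hq => hnu q (Algebra.adjoin_le (Set.insert_subset (hs _) (by
      rintro _ ⟨t, rfl⟩
      exact (g (MvPolynomial.X t)).2)) hq)
  refine ⟨r, z, O, t₀, fun t => (g (MvPolynomial.X t)).2, fun s => hi _ (hs s), fun a ha => ?_,
    h4, h5⟩
  have h6 : IsIntegral O a := val2_int (Algebra.adjoin k (Set.range z)).val.toRingHom O.toSubring
    (fun b => h3 _ b.2) (hi a ha)
  obtain ⟨y, rfl⟩ := IsIntegrallyClosed.isIntegral_iff.1 h6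
  exact y.2

variable [IsAlgClosed k] [CharZero k]

/-- A maximal independent subfamily (a basis in `AlgebraicIndependent.matroid k E`, or
`exists_isTranscendenceBasis_subset`), listed by `Fin ρ`. -/
theorem val_basis {τ : Type} [Finite τ] (u : τ → E) : ∃ (ρ : ℕ) (j : Fin ρ → τ),
    AlgebraicIndependent k (u ∘ j) ∧ Ann k (Set.range (u ∘ j)) ≤ Ann k (Set.range u) := by
  obtain ⟨B, hB⟩ := (AlgebraicIndependent.matroid k E).exists_isBasis (Set.range u)
  obtain ⟨h1, h2, h3⟩ := AlgebraicIndependent.matroid_isBasis_iff.1 hB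
  have : Finite B := ((Set.finite_range u).subset h2).to_subtype
  obtain ⟨ρ, ⟨e⟩⟩ := Finite.exists_equiv_fin B
  choose j hj using fun l : Fin ρ => h2 (e.symm l).2
  have h4 : u ∘ j = (fun b : B => (b : E)) ∘ e.symm := funext hj
  refine ⟨ρ, j, h4 ▸ AlgebraicIndependent.comp h1 _ e.symm.injective, fun D hD a ha => ?_⟩
  rw [h4, e.symm.surjective.range_comp, Subtype.range_coe] at hD
  exact ann_alg hD (h3 a ha)

/-- A derivation that kills `u` is linear over `k' = k(u)` (`ann_adjoin`); if it kills `z` it kills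
`adjoin k' (range z) ⊆ k(u, z)` and the elements integral over it (`ann_alg` with `S` the set
`k(u, z)`). -/
theorem val_ann {σ τ υ : Type} (u : τ → E) (z : υ → E) (α : σ → E)
    (h : ∀ s, IsIntegral (Algebra.adjoin (IntermediateField.adjoin k (Set.range u)) (Set.range z))
      (α s)) : Ann k (Set.range u) ⊓ Ann k (Set.range z) ≤ Ann k (Set.range α) := by
  rintro D ⟨h1, h2⟩ _ ⟨s, rfl⟩
  set T := Algebra.adjoin (IntermediateField.adjoin k (Set.range u)) (Set.range z)
  have h3 : D ∈ Ann k (T : Set E) := fun a ha => by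
    induction ha using Algebra.adjoin_induction with
    | mem x hx => exact h2 x hx
    | algebraMap c => exact ann_adjoin _ h1 _ c.2
    | add x y _ _ hx hy => rw [map_add, hx, hy, add_zero]
    | mul x y _ _ hx hy => rw [D.leibniz, hx, hy, smul_zero, smul_zero, add_zero]
  have h4 : IsIntegral (Algebra.adjoin k (T : Set E)) (α s) :=
    val2_int T.val.toRingHom (Algebra.adjoin k (T : Set E)).toSubring
      (fun b => Algebra.subset_adjoin b.2) (h s)
  exact ann_alg h3 h4.isAlgebraic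

/-- `κ` makes `Λ` an algebra over `k' = k(u)`; `AlgebraicIndependent.sumElim_of_tower` (or
`sumElim_comp`) for `y = u ∘ j` in `k'` and `w`; the images lie in `k(S)` by induction
(`IntermediateField.adjoin_induction`); reindex by `Fin`, `Ind.not_cod`. -/
theorem val_tower {τ υ Λ : Type} [Fintype υ] [Field Λ] [Algebra k Λ] {u : τ → E} {ρ : ℕ}
    {j : Fin ρ → τ} (hj : AlgebraicIndependent k (u ∘ j))
    (κ : IntermediateField.adjoin k (Set.range u) →ₐ[k] Λ) {w : υ → Λ}
    (hw : ∀ g : MvPolynomial υ (IntermediateField.adjoin k (Set.range u)),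
      MvPolynomial.eval₂ (κ : _ →+* Λ) w g = 0 → g = 0) {S : Set Λ}
    (h1 : ∀ t, κ ⟨u t, IntermediateField.subset_adjoin k _ ⟨t, rfl⟩⟩ ∈ S)
    (h2 : ∀ t, w t ∈ IntermediateField.adjoin k S) :
    ¬Cod ⊤ (Ann k S) ((ρ : ℤ) + Fintype.card υ - 1) := by
  let K := IntermediateField.adjoin k (Set.range u)
  let _ : Algebra K Λ := (κ : K →+* Λ).toAlgebra
  have : IsScalarTower k K Λ := .of_algebraMap_eq fun a => (κ.commutes a).symm
  let x : Fin ρ → K := fun i => ⟨u (j i), IntermediateField.subset_adjoin k _ ⟨j i, rfl⟩⟩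
  have hx : AlgebraicIndependent k x := .of_comp K.val hj
  have hy : AlgebraicIndependent K w := algebraicIndependent_iff.2 hw
  have e : Fin (ρ + Fintype.card υ) ≃ υ ⊕ Fin ρ :=
    (Fintype.equivFinOfCardEq (by simp [add_comm])).symm
  have h : Ind k (IntermediateField.adjoin k S : Set Λ) (ρ + Fintype.card υ) := by
    refine ⟨_, (hx.sumElim_comp hy).comp e e.injective, fun l => ?_⟩
    rw [Function.comp_apply]
    rcases e l with t | i
    · exact h2 t
    · exact IntermediateField.subset_adjoin k S (h1 (j i))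
  simpa only [Nat.cast_add] using h.not_cod subset_rfl

theorem val4_cod {ι : Type} [Fintype ι] (y : ι → E) :
    Cod ⊤ (Ann k (Set.range y)) (Fintype.card ι : ℤ) := by
  have h := cod_sum (U := (⊤ : Submodule E (Dr k E))) Finset.univ (fun a => Ann k {y a})
    (fun _ => 1) fun a _ => cod_one _ _
  rw [Finset.sum_const, Finset.card_univ, nsmul_eq_mul, mul_one] at h
  refine h.weak le_rfl fun D hD => ?_
  rintro _ ⟨a, rfl⟩
  exact (Submodule.mem_iInf _).1 ((Submodule.mem_iInf _).1 hD.2 a) (Finset.mem_univ a) _ rfl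

/-- `val_fg` over `k' = k(u)`; `Λ` is the residue field of `O`, `O` is an algebra over `k` by
`RingHom.codRestrict`, `κ : k' →ₐ[k] Λ` is the residue map on `k' ⊆ O`. The residues of the
elements of `adjoin k' (range α)` lie in the field generated by the residues of `u` and `α`
(`Algebra.adjoin_induction`). By `val_tower` one has `ρ + r - 1 ≤ m`, and `D ↦ (D y, D z)` shows
`Cod ⊤ (Ann k (range α)) (ρ + r)` (`val_basis`, `val_ann`, `cod_one`, `cod_sum`). -/
theorem val_main {σ τ : Type} [Finite σ] [Finite τ] (u : τ → E) (α : σ → E) (s₀ : σ)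
    (h0 : α s₀ ≠ 0) (hnu : ∀ q ∈ Algebra.adjoin (IntermediateField.adjoin k (Set.range u))
      (Set.range α), α s₀ * q ≠ 1) :
    ∃ (O Λ : Type) (_ : CommRing O) (_ : IsDomain O) (_ : ValuationRing O) (_ : Algebra k O)
      (_ : Algebra O E) (_ : IsFractionRing O E) (_ : IsScalarTower k O E) (_ : Field Λ)
      (_ : Algebra k Λ) (red : O →ₐ[k] Λ) (u' : τ → O) (α' : σ → O), Res red ∧
      (∀ t, algebraMap O E (u' t) = u t) ∧ (∀ s, algebraMap O E (α' s) = α s) ∧ red (α' s₀) = 0 ∧
      (∀ g : MvPolynomial τ k, MvPolynomial.aeval (red ∘ u') g = 0 → MvPolynomial.aeval u g = 0) ∧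
      ∀ m : ℤ, Cod ⊤ (Ann k (Set.range (red ∘ u') ∪ Set.range (red ∘ α'))) m →
        Cod ⊤ (Ann k (Set.range α)) (m + 1) := by
  classical
  obtain ⟨r, z, O, t₀, hz, hi, hO, hs, hg⟩ := val_fg α s₀ h0 hnu
  have hk : ∀ a : IntermediateField.adjoin k (Set.range u), (a : E) ∈ O := fun a =>
    hO _ (Subalgebra.algebraMap_mem _ a)
  let _ : Algebra k O := ((algebraMap k E).codRestrict O fun a => hk (algebraMap k _ a)).toAlgebra
  have : IsScalarTower k O E := .of_algebraMap_eq fun _ => rfl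
  let ι : IntermediateField.adjoin k (Set.range u) →ₐ[k] O :=
    ⟨(algebraMap _ E).codRestrict O hk, fun _ => rfl⟩
  let red := IsScalarTower.toAlgHom k O (IsLocalRing.ResidueField O)
  have hred : ∀ a : O, red a = 0 ↔ (a : E) ∈ O.nonunits := fun a =>
    (IsLocalRing.residue_eq_zero_iff a).trans O.coe_mem_nonunits_iff.symm
  let u₀ : τ → IntermediateField.adjoin k (Set.range u) := fun t =>
    ⟨u t, IntermediateField.subset_adjoin k _ ⟨t, rfl⟩⟩
  let α' : σ → O := fun s => ⟨α s, hO _ (Algebra.subset_adjoin ⟨s, rfl⟩)⟩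
  refine ⟨O, IsLocalRing.ResidueField O, inferInstance, inferInstance, inferInstance,
    inferInstance, inferInstance, inferInstance, inferInstance, inferInstance, inferInstance, red,
    ι ∘ u₀, α', ⟨IsLocalRing.residue_surjective, fun a =>
      (IsLocalRing.residue_ne_zero_iff_isUnit a).1⟩, fun _ => rfl, fun _ => rfl,
    (hred _).2 hs, fun g h => ?_, fun m hm => ?_⟩
  · have h1 : MvPolynomial.aeval u₀ g = 0 := (map_eq_zero (red.comp ι)).1
      ((MvPolynomial.comp_aeval_apply _ _ _).trans h)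
    exact (MvPolynomial.comp_aeval_apply u₀ (IntermediateField.val _) g).symm.trans
      (by rw [h1, map_zero])
  obtain ⟨ρ, j, hj, hle⟩ := val_basis (k := k) u
  generalize hS : Set.range (red ∘ ι ∘ u₀) ∪ Set.range (red ∘ α') = S at hm
  have h1 : ∀ t, red (ι (u₀ t)) ∈ S := fun t => hS ▸ .inl ⟨t, rfl⟩
  have h2 : ∀ a ha, red (ι ⟨a, ha⟩) ∈ IntermediateField.adjoin k S := fun a ha => by
    induction ha using IntermediateField.adjoin_induction with
    | mem x hx =>
      obtain ⟨t, rfl⟩ := hx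
      exact IntermediateField.subset_adjoin _ _ (h1 t)
    | algebraMap x => exact ((red.comp ι).commutes x).symm ▸ IntermediateField.algebraMap_mem _ x
    | add x y hx hy ix iy =>
      exact (map_add (red.comp ι) ⟨x, hx⟩ ⟨y, hy⟩).symm ▸ add_mem ix iy
    | inv x hx ix => exact (map_inv₀ (red.comp ι) ⟨x, hx⟩).symm ▸ inv_mem ix
    | mul x y hx hy ix iy =>
      exact (map_mul (red.comp ι) ⟨x, hx⟩ ⟨y, hy⟩).symm ▸ mul_mem ix iy
  have h3 : ∀ a ha, red ⟨a, hO a ha⟩ ∈ IntermediateField.adjoin k S := fun a ha => by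
    induction ha using Algebra.adjoin_induction with
    | mem x hx =>
      obtain ⟨t, rfl⟩ := hx
      exact IntermediateField.subset_adjoin _ _ (hS ▸ .inr ⟨t, rfl⟩)
    | algebraMap x => exact h2 x.1 x.2
    | add x y hx hy ix iy =>
      exact (map_add red ⟨x, hO x hx⟩ ⟨y, hO y hy⟩).symm ▸ add_mem ix iy
    | mul x y hx hy ix iy =>
      exact (map_mul red ⟨x, hO x hx⟩ ⟨y, hO y hy⟩).symm ▸ mul_mem ix iy
  have h4 := val_tower hj (red.comp ι) (w := fun t : {t // t ≠ t₀} => red ⟨z t, hO _ (hz t)⟩)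
    (fun g h => hg g ?_) h1 fun t => h3 _ (hz t)
  · have h5 : Fintype.card {t // t ≠ t₀} + 1 = r := by
      have := t₀.pos
      rw [Fintype.card_subtype_compl, Fintype.card_fin, Fintype.card_unique]
      omega
    have h6 : (ρ : ℤ) + Fintype.card {t // t ≠ t₀} ≤ m := by
      by_contra hh
      exact h4 (hm.mono (by omega))
    refine ((val4_cod (Sum.elim (u ∘ j) z)).weak le_rfl fun D hD =>
      val_ann u z α hi ⟨hle ?_, ?_⟩).mono ?_
    · rintro _ ⟨a, rfl⟩
      exact hD.2 _ ⟨.inl a, rfl⟩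
    · rintro _ ⟨a, rfl⟩
      exact hD.2 _ ⟨.inr a, rfl⟩
    · rw [Fintype.card_sum, Fintype.card_fin, Fintype.card_fin]
      omega
  · let z' : {t // t ≠ t₀} → O := fun t => ⟨z t, hO _ (hz t)⟩
    have h5 := MvPolynomial.eval₂_comp_left red.toRingHom ι.toRingHom z' g
    have h6 : ((MvPolynomial.eval₂ ι.toRingHom z' g : O) : E) =
        MvPolynomial.aeval (fun t : {t // t ≠ t₀} => z t) g :=
      MvPolynomial.eval₂_comp_left O.subtype ι.toRingHom z' g
    exact h6 ▸ (hred _).1 (h5.trans h)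

end

end Pool.Agent.Lib.MP_41050a_ag.NK
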