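import Pool.Agent.Lib.MP_41050a_ag.NK.Count
import Pool.Agent.Lib.MP_41050a_ag.NK.Val
import Pool.Agent.Lib.MP_41050a_ag.NK.Norm
import Pool.Agent.Lib.MP_41050a_ag.NK.Desc

/-! The dichotomy. -/

namespace Pool.Agent.Lib.MP_41050a_ag.NK

open Polynomial Module

set_option linter.unusedSectionVars false

noncomputable section

variable {k : Type} [Field k] [IsAlgClosed k] [CharZero k] {N n e : ℕ} {I : Ideal (Pk k N)}
  {E : Type} [Field E] [Algebra k E] [IsAlgClosed E] {P : Ideal (MvPolynomial (Ix N e) k)}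
  {d b : ℤ} {Λ : Type} [Field Λ] [Algebra k Λ]
  {O : Type} [CommRing O] [IsDomain O] [ValuationRing O] [Algebra k O] [Algebra O E]
  [IsFractionRing O E] [IsScalarTower k O E] {red : O →ₐ[k] Λ} {α : Ix N e → E} {α' : Ix N e → O}

/-- `AntiK.pr` over `E`, `Res.norm`; `On.of_map`, `Pl.smul`, `Pl.of_map` for
`mapAlgHom (IsScalarTower.toAlgHom k O E)`; `pol_map`, `eval_map_algebraMap`. -/
theorem exists_tp (hV : Cone I) (hr : Res red) (hα : ∀ x, algebraMap O E (α' x) = α x)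
    (hF : IsMap I e (pol α)) (hd : AntiK I n e (pol α) d) :
    ∃ (p : ℕ) (π : Jx n N → O[X]), TP E I n (pol α') π ∧ (∀ S, (π S).natDegree ≤ p) ∧
      (∃ S, (π S).coeff p ≠ 0) ∧ rd red π ≠ 0 ∧ d = (n + 1) * e - p := by
  obtain ⟨p, ϖ, hp, rfl⟩ := hd.pr hF
  have h0 : ϖ ≠ 0 := fun h => by
    obtain ⟨S, hS⟩ := hp.bp.bpf none
    simp [h, val] at hS
  obtain ⟨c, π, hc, hπ, hred⟩ := hr.norm h0
  have hi : Function.Injective (algebraMap O E) := IsFractionRing.injective O E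
  let φ : O[X] →ₐ[k] E[X] := mapAlgHom (IsScalarTower.toAlgHom k O E)
  have hφ : Function.Injective φ := map_injective _ hi
  have e1 : ∀ i, (pol α' i).map (algebraMap O E) = pol α i := fun i => by
    rw [pol_map, show algebraMap O E ∘ α' = α from funext hα]
  have e2 : φ ∘ pol α' = pol α := funext e1
  have e3 : φ ∘ π = C c • ϖ := funext hπ
  refine ⟨p, π, ⟨On.of_map hφ (e2 ▸ hF.on), fun a => ?_, fun a => ?_, Pl.of_map hφ ?_⟩,
    fun S => ?_, ?_, hred, rfl⟩
  · obtain ⟨i, h⟩ := hF.bpf (some a)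
    exact ⟨i, by rwa [← eval_map_algebraMap, e1]⟩
  · obtain ⟨S, h⟩ := hp.bp.bpf (some a)
    refine ⟨S, ?_⟩
    rw [← eval_map_algebraMap, hπ, eval_mul, eval_C]
    exact mul_ne_zero hc h
  · rw [e2, e3]
    simpa using hp.pl.smul hV 1 (C c)
  · rw [← natDegree_map_eq_of_injective hi, hπ]
    exact (natDegree_C_mul_le _ _).trans (hp.bp.deg S)
  · obtain ⟨S, h⟩ := hp.bp.bpf none
    refine ⟨S, fun h' => mul_ne_zero hc h ?_⟩
    have := congrArg (coeff · p) (hπ S)
    simp only [coeff_map, h', map_zero, coeff_C_mul] at this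
    exact this.symm

/-- `Gn.transfer`, with `MvPolynomial.rename f`; `On.of_map`, `On.map`. -/
theorem gn_red (hV : Cone I) (hn : Dim I n k) {τ : Type} {u : τ → E} {u' : τ → O}
    (hu : ∀ t, algebraMap O E (u' t) = u t)
    (h : ∀ g : MvPolynomial τ k, MvPolynomial.aeval (red ∘ u') g = 0 → MvPolynomial.aeval u g = 0)
    (f : Fin (N + 1) → τ) {i : Fin (N + 1)} (h1 : u (f i) = 1) (ho : On I fun i => u (f i))
    (hg : Gn I fun i => u (f i)) : Gn I (red ∘ fun i => u' (f i)) := by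
  have hi : Function.Injective (algebraMap O E) := IsFractionRing.injective O E
  have e1 : IsScalarTower.toAlgHom k O E ∘ (fun i => u' (f i)) = fun i => u (f i) :=
    funext fun i => hu _
  have h2 : u' (f i) = 1 := hi (by rw [hu, h1, map_one])
  refine Gn.transfer hV hn (i := i) h1 (by simp [h2]) ho
    ((On.of_map (φ := IsScalarTower.toAlgHom k O E) hi (e1 ▸ ho)).map red) (fun q hq => ?_) hg
  have := h (MvPolynomial.rename f q) (by rwa [MvPolynomial.aeval_rename])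
  rwa [MvPolynomial.aeval_rename] at this

/-- `count` for `F = pol α'`, `x = u' ∘ inr`, `l = α' (i₁, 0)`. All identities in `O` follow from
the injectivity of `algebraMap O E`. For `hc`: `Ann k (cfs (rd red F)) ≤ Ann k (range (red ∘ α'))`,
`st_norm`, `u' (inl i) = α' (i, last e)`, `Cod.weak`, against `Nm.rank`. -/
theorem setup [IsAlgClosed Λ] (hV : SmoothVar I) (hn : Dim I n k) (hb : 1 ≤ b) (hl : Low I n Λ b)
    (hr : Res red) {i₀ i₁ : Fin (N + 1)} (h : Nm I n P α d i₀ i₁) (hd : (n : ℤ) + 2 ≤ d)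
    {u' : Fin (N + 1) ⊕ Fin (N + 1) → O} (hu : ∀ t, algebraMap O E (u' t) = ends α i₁ t)
    (hα : ∀ x, algebraMap O E (α' x) = α x) (h0 : red (α' (i₁, 0)) = 0)
    (hg : ∀ g : MvPolynomial (Fin (N + 1) ⊕ Fin (N + 1)) k,
      MvPolynomial.aeval (red ∘ u') g = 0 → MvPolynomial.aeval (ends α i₁) g = 0)
    (hc : ∀ m : ℤ, Cod ⊤ (Ann k (Set.range (red ∘ u') ∪ Set.range (red ∘ α'))) m →
      Cod ⊤ (Ann k (Set.range α)) (m + 1)) :
    Two red I n e (pol α') d ∨ NkO I n Λ b := by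
  have inj := IsFractionRing.injective O E
  obtain ⟨p, π, hT, h2, h4, h5, hp⟩ := exists_tp hV.toCone hr hα h.map h.deg
  have e0 : ∀ i, u' (.inl i) = α' (i, Fin.last e) := fun i => inj ((hu _).trans (hα _).symm)
  have e1 : ends α i₁ (.inr i₁) = 1 := div_self h.ne
  have e2 : (red ∘ fun i => u' (.inr i)) i₁ = 1 :=
    (congrArg red (inj ((hu _).trans (e1.trans (map_one _).symm)))).trans (map_one red)
  have e3 : ∀ x : Ix N e, (rd red (pol α') x.1).coeff x.2 = red (α' x) := fun x =>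
    (coeff_map _ _).trans (congrArg red (pol_coeff α' x.1 x.2))
  refine count hV hn hb hl hr hT (pol_deg α') h2 (i₀ := i₀)
    ((pol_coeff α' i₀ (Fin.last e)).trans (inj ((hα _).trans (h.one.trans (map_one _).symm))))
    h4 h5 ?_ (x := fun i => u' (.inr i)) (fun i => (pol_coeff α' i 0).trans (inj ?_)) h0
    (fun h' => one_ne_zero (e2.symm.trans (congrFun h' i₁)))
    (gn_red hV.toCone hn hu hg Sum.inr e1 h.o1 h.g1) hp hd fun h' => h.rank ?_
  · have := gn_red hV.toCone hn hu hg Sum.inl (i := i₀) h.one h.o0 h.g0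
    rwa [show (red ∘ fun i => u' (.inl i)) = ev e none (rd red (pol α')) from
      funext fun i => (congrArg red (e0 i)).trans (e3 (i, Fin.last e)).symm] at this
  · rw [map_mul, hu, hα, hα]
    exact (mul_div_cancel₀ _ h.ne).symm
  · refine (hc _ (h'.weak le_rfl ?_)).mono (by omega)
    rw [st_norm e2]
    rintro D ⟨-, hD, hD'⟩ a (⟨t | t, rfl⟩ | ⟨x, rfl⟩)
    · exact hD _ ⟨t, _, (congrArg red (e0 t)).trans (e3 (t, Fin.last e)).symm⟩
    · exact hD' _ ⟨t, rfl⟩
    · exact hD _ ⟨x.1, _, (e3 x).symm⟩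

theorem main (hV : SmoothVar I) (hn : Dim I n k) (hb : 1 ≤ b)
    (hl : ∀ (e : ℕ) (F : Fin (N + 1) → k[X]) (d : ℤ), Curve I n e F d → b ≤ d)
    (hP : P ∈ (eqs I e).minimalPrimes) (hg : GenK I n e P (n + 2)) :
    BreaksN I e P ∨ ∃ (ε e' : ℕ) (F : Fin (N + 1) → k[X]) (d : ℤ), b ≤ ε ∧ ε + d ≤ n ∧
      Neck I n ε ∧ Curve I n e' F d ∧ Free I e' F := by
  obtain ⟨E, _, _, _, ξ, hξ⟩ := exists_generic hP.1.1
  obtain ⟨α, d, i₀, i₁, hd, h⟩ := exists_nm hV hn hP hξ hg (by omega)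
  obtain ⟨O, Λ, _, _, _, _, _, _, _, _, _, red, u', α', hr, hu, hα, h0, h1, h2⟩ :=
    val_main (k := k) (ends α i₁) α (i₁, 0) h.ne h.nu
  have := hr.algClosed E
  refine (setup hV hn hb (Low.ext hV hn hl Λ) hr h hd hu hα h0 h1 h2).imp
    (Two.breaks hV hn fun g hg => IsFractionRing.injective O E ?_) (NkO.final hV hn)
  have := MvPolynomial.comp_aeval_apply (f := α') (IsScalarTower.toAlgHom k O E) g
  simp only [IsScalarTower.coe_toAlgHom', hα] at this
  rw [this, map_zero]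
  exact h.mem g hg

end

end Pool.Agent.Lib.MP_41050a_ag.NK
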