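import Pool.Agent.Lib.MP_41050a_ag.NK.Ant

/-! Infinitesimal automorphisms of the line. -/

namespace Pool.Agent.Lib.MP_41050a_ag.NK

open Polynomial Module

set_option linter.unusedSectionVars false

noncomputable section

variable {k : Type} [Field k] [IsAlgClosed k] [CharZero k] {N n : ℕ} {I : Ideal (Pk k N)}
  {Λ : Type} [Field Λ] [Algebra k Λ] [IsAlgClosed Λ] {e : ℕ} {F : V Λ[X] N} {d : ℤ}

theorem two_chain {R : Type} [CommRing R] [Algebra k R] (x : V R N) (D : Derivation k R R)
    (Φ : Pk k N) : ∑ i, MvPolynomial.aeval x (MvPolynomial.pderiv i Φ) * D (x i) =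
      D (MvPolynomial.aeval x Φ) := by
  induction Φ using MvPolynomial.induction_on with
  | C c => simp
  | add p q hp hq => simp only [map_add, add_mul, Finset.sum_add_distrib, hp, hq]
  | mul_X p j hp =>
    rw [grp0_mul_X x (fun i => D (x i)), hp, map_mul, MvPolynomial.aeval_X, D.leibniz, smul_eq_mul,
      smul_eq_mul]
    ring

/-- The chain rule for `derivative` (a derivation over `k`; `MvPolynomial.induction_on`). -/
theorem deriv_tg (h : On I F) : Tg I F fun i => derivative (F i) := fun Φ hΦ =>
  (two_chain F ((derivative' (R := Λ)).restrictScalars k) Φ).trans (by rw [h Φ hΦ, map_zero])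

/-- The same for any derivation. -/
theorem der_tg {R : Type} [CommRing R] [Algebra k R] {x : V R N} (h : On I x)
    (D : Derivation k R R) : Tg I x fun i => D (x i) := fun Φ hΦ =>
  (two_chain x D Φ).trans (by rw [h Φ hΦ, map_zero])

/-- If `α F + β X F' = 0` with `β ≠ 0`, compare coefficients: `F` has non-zero coefficient vectors
in degrees `0` and `e > 0`. -/
theorem ind_euler (hF : IsMap I e F) (he : 0 < e) :
    LinearIndependent Λ ![F, fun i => X * derivative (F i)] := by
  have : CharZero Λ := charZero_of_injective_algebraMap (algebraMap k Λ).injective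
  obtain ⟨m, rfl⟩ := Nat.exists_eq_succ_of_ne_zero he.ne'
  refine LinearIndependent.pair_iff.2 fun s t hst => ?_
  obtain ⟨i, hi⟩ := hF.bpf (some 0)
  obtain ⟨j, hj⟩ := hF.bpf none
  have h1 := congrArg (fun f => eval 0 f) (congrFun hst i)
  have h2 := congrArg (fun f => coeff f (m + 1)) (congrFun hst j)
  simp only [Pi.add_apply, Pi.smul_apply, eval_add, eval_smul, eval_mul, eval_X, zero_mul,
    smul_eq_mul, mul_zero, add_zero, Pi.zero_apply, eval_zero] at h1
  obtain rfl : s = 0 := (mul_eq_zero.1 h1).resolve_right hi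
  simp only [Pi.add_apply, Pi.smul_apply, zero_smul, zero_add, coeff_smul, coeff_X_mul,
    coeff_derivative, smul_eq_mul, Pi.zero_apply, coeff_zero] at h2
  exact ⟨rfl, (mul_eq_zero.1 h2).resolve_right (mul_ne_zero hj (Nat.cast_add_one_ne_zero m))⟩

/-- Write `b j = e - δ j ≥ 0` (`Frame.free_iff`), `e = e' + 1`. The tuples `F'` and `e F - X F'` lie
in `sec I e' F`, whose dimension is `∑ b j = d` (`Frame.rank_sec`). They are independent: if
`α F' + β (e F - X F') = 0`, the constant terms and the terms of degree `e - 1` and the recursion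
for the coefficients show that all `F i` are multiples of `(α - β X) ^ e`, which has a zero on the
projective line. (For `β = 0`: `F' = 0`, so `F` vanishes at infinity. For `β ≠ 0` evaluate at
`X = α / β`.) -/
theorem Curve.two (hV : SmoothVar I) (hn : Dim I n k) (h : Curve I n e F d) (hf : Free I e F) :
    2 ≤ d := by
  have : CharZero Λ := charZero_of_injective_algebraMap (algebraMap k Λ).injective
  obtain ⟨δ, G, hG, rfl⟩ := h.deg
  have hδ := (hG.free_iff hV hn h.map).1 hf
  obtain ⟨m, rfl⟩ := Nat.exists_eq_succ_of_ne_zero h.pos.ne'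
  obtain ⟨hfin, hr⟩ := hG.rank_sec hn h.map m
  have hm : (m : Λ) + 1 ≠ 0 := Nat.cast_add_one_ne_zero m
  have hA : (fun i => derivative (F i)) ∈ sec I m F :=
    ⟨fun i => (natDegree_derivative_le _).trans (Nat.sub_le_of_le_add (h.map.deg i)),
      deriv_tg h.map.on⟩
  have hB : (C ((m : Λ) + 1) • F - (X : Λ[X]) • fun i => derivative (F i)) ∈ sec I m F := by
    refine ⟨fun i => natDegree_le_iff_coeff_eq_zero.2 fun l hl => ?_,
      ((euler_tg hV.toCone h.map.on).smul _).sub ((deriv_tg h.map.on).smul _)⟩
    obtain ⟨l, rfl⟩ := Nat.exists_eq_succ_of_ne_zero (Nat.ne_zero_of_lt hl)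
    simp only [Pi.sub_apply, Pi.smul_apply, smul_eq_mul, coeff_sub, coeff_C_mul, coeff_X_mul,
      coeff_derivative, Nat.succ_eq_add_one]
    rcases (Nat.le_of_lt_succ hl).eq_or_lt with rfl | h1
    · ring
    · rw [coeff_eq_zero_of_natDegree_lt ((h.map.deg i).trans_lt (Nat.succ_lt_succ h1))]
      ring
  have hi : LinearIndependent Λ ![(⟨_, hA⟩ : sec I m F), ⟨_, hB⟩] := by
    refine LinearIndependent.pair_iff.2 fun s t hst => ?_
    have h1 : ∀ i, s • derivative (F i) + t • (C ((m : Λ) + 1) * F i - X * derivative (F i)) = 0 :=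
      fun i => congrFun (congrArg Subtype.val hst) i
    obtain rfl : t = 0 := by
      by_contra ht
      obtain ⟨i, hi⟩ := h.map.bpf (some (s / t))
      have h2 := congrArg (eval (s / t)) (h1 i)
      simp only [eval_add, eval_smul, eval_sub, eval_mul, eval_C, eval_X, smul_eq_mul,
        eval_zero] at h2
      refine mul_ne_zero ht (mul_ne_zero hm hi) ?_
      have h3 := mul_div_cancel₀ s ht
      change t * (_ * eval (s / t) (F i)) = 0
      linear_combination h2 + eval (s / t) (derivative (F i)) * h3
    obtain ⟨j, hj⟩ := h.map.bpf none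
    have h2 := congrArg (fun f => coeff f m) (h1 j)
    simp only [zero_smul, add_zero, coeff_smul, coeff_derivative, smul_eq_mul, coeff_zero] at h2
    exact ⟨(mul_eq_zero.1 h2).resolve_right (mul_ne_zero hj hm), rfl⟩
  have h2 := hi.fintype_card_le_finrank
  rw [hr, Fintype.card_fin] at h2
  refine (Int.ofNat_le.2 h2).trans_eq ?_
  rw [Nat.cast_sum]
  exact Finset.sum_congr rfl fun j _ => Nat.cast_sub (hδ j)

end

end Pool.Agent.Lib.MP_41050a_ag.NK
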