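import Pool.Agent.Lib.MP_41050a_ag.NK.Der
import Pool.Agent.Lib.MP_41050a_ag.NK.Two

/-! Derivations and points. -/

namespace Pool.Agent.Lib.MP_41050a_ag.NK

open Polynomial Module

set_option linter.unusedSectionVars false

noncomputable section

variable {k : Type} [Field k] [IsAlgClosed k] [CharZero k] {N n : ℕ} {I : Ideal (Pk k N)}
  {Λ : Type} [Field Λ] [Algebra k Λ] {x : V Λ N}

/-- The tangent vector given by a derivation. -/
def dv (x : V Λ N) : Dr k Λ →ₗ[Λ] V Λ N where
  toFun D := fun i => D (x i)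
  map_add' _ _ := rfl
  map_smul' _ _ := rfl

/-- The tangent field given by a derivation. -/
def dF (F : V Λ[X] N) : Dr k Λ →ₗ[Λ] V Λ[X] N where
  toFun D := fun i => dP D (F i)
  map_add' D D' := by
    funext i
    ext j
    simp [dP_coeff]
  map_smul' c D := by
    funext i
    ext j
    simp [dP_coeff]

theorem dF_sec {e : ℕ} {F : V Λ[X] N} (hF : IsMap I e F) (D : Dr k Λ) : dF F D ∈ sec I e F := by
  refine ⟨fun i => natDegree_le_iff_coeff_eq_zero.2 fun j hj => ?_, der_tg hF.on (dP D)⟩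
  change D ((F i).coeff j) = 0
  rw [natDegree_le_iff_coeff_eq_zero.1 (hF.deg i) j hj, map_zero]

theorem ev_dF {e : ℕ} (F : V Λ[X] N) (D : Dr k Λ) {p : Option Λ} (hp : p = none ∨ p = some 0) :
    ev e p (dF F D) = dv (ev e p F) D := by
  funext i
  rcases hp with rfl | rfl
  · rfl
  · change (dP D (F i)).eval 0 = D ((F i).eval 0)
    rw [← coeff_zero_eq_eval_zero, ← coeff_zero_eq_eval_zero, dP_coeff]

theorem dP_eval (D : Dr k Λ) (f : Λ[X]) (b : Λ) :
    D (f.eval b) = (dP D f).eval b + (derivative f).eval b * D b := by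
  induction f using Polynomial.induction_on' with
  | add p q hp hq => simp only [eval_add, map_add, hp, hq]; ring
  | monomial j a =>
    have : dP D (monomial j a) = monomial j (D a) := by
      ext l
      rw [dP_coeff, coeff_monomial, coeff_monomial]
      split_ifs <;> simp
    rw [this, derivative_monomial, eval_monomial, eval_monomial, eval_monomial, D.leibniz,
      D.leibniz_pow]
    simp only [smul_eq_mul, nsmul_eq_mul]
    ring

theorem mem_ann_cfs {ι : Type} {T : ι → Λ[X]} {D : Dr k Λ} :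
    D ∈ Ann k (cfs T) ↔ ∀ i, dP D (T i) = 0 := by
  constructor
  · intro h i
    ext j
    exact h _ ⟨i, j, rfl⟩
  · rintro h a ⟨i, j, rfl⟩
    rw [← dP_coeff, h i, coeff_zero]

theorem ann_le_st {e : ℕ} (F : V Λ[X] N) : Ann k (cfs F) ≤ St k (ev e (some 0) F) := by
  refine fun D hD => ⟨0, fun i => ?_⟩
  rw [zero_mul]
  exact hD _ ⟨i, 0, (coeff_zero_eq_eval_zero _).symm⟩

theorem seca_le (hV : Cone I) (hx : On I x) : Submodule.span Λ {x} ≤ tsp I x :=
  (Submodule.span_singleton_le_iff_mem _ _).2 (euler_tg hV hx)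

theorem seca_st {D : Dr k Λ} : dv x D ∈ Submodule.span Λ {x} ↔ D ∈ St k x :=
  Submodule.mem_span_singleton.trans (exists_congr fun _ =>
    ⟨fun h i => (congrFun h i).symm, fun h => funext fun i => (h i).symm⟩)

/-- `cod_of_map` for `dv x`, `T = tsp I x`, `T' = span {x}`. -/
theorem cod_st (hV : Cone I) (hn : Dim I n k) (h0 : x ≠ 0) (hx : On I x) :
    Cod ⊤ (St k x) (n : ℤ) := by
  refine cod_of_map (dv x) (T := tsp I x) (T' := Submodule.span Λ {x}) (seca_le hV hx)
    (fun D _ => der_tg hx D) (fun D _ => seca_st.1) ?_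
  rw [dim_ext hn Λ x h0 hx, finrank_span_singleton h0]
  push_cast
  omega

/-- `cod_of_map` for `T = range (dv x) ⊔ span {x}`, a proper subspace of the tangent space. -/
theorem cod_st_of_not (hV : Cone I) (hn : Dim I n k) (h0 : x ≠ 0) (hx : On I x) (h : ¬Gn I x) :
    Cod ⊤ (St k x) ((n : ℤ) - 1) := by
  have hlt : LinearMap.range (dv x : Dr k Λ →ₗ[Λ] V Λ N) ⊔ Submodule.span Λ {x} < tsp I x := by
    refine lt_of_le_of_ne (sup_le ?_ (seca_le hV hx)) fun he => h fun v hv => ?_
    · rintro _ ⟨D, rfl⟩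
      exact der_tg hx D
    · obtain ⟨_, ⟨D, rfl⟩, w, hw, rfl⟩ := Submodule.mem_sup.1 (he.ge (mem_tsp.2 hv))
      obtain ⟨c, rfl⟩ := Submodule.mem_span_singleton.1 hw
      exact ⟨D, c, fun _ => rfl⟩
  refine cod_of_map (dv x) (T' := Submodule.span Λ {x}) le_sup_right
    (fun D _ => Submodule.mem_sup_left (LinearMap.mem_range_self _ D)) (fun D _ => seca_st.1) ?_
  have := Submodule.finrank_lt_finrank_of_lt hlt
  rw [dim_ext hn Λ x h0 hx] at this
  rw [finrank_span_singleton h0]
  push_cast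
  omega

/-- Extend `x` to a basis `x, v 1, …, v n` of the tangent space and use `not_cod`. -/
theorem Gn.not_cod (hV : Cone I) (hn : Dim I n k) (h0 : x ≠ 0) (hx : On I x) (h : Gn I x) :
    ¬Cod ⊤ (St k x) ((n : ℤ) - 1) := by
  let f := (Submodule.span Λ {x}).mkQ ∘ₗ (tsp I x).subtype
  have hr : finrank Λ (LinearMap.range f) = n := by
    have h1 := f.finrank_range_add_finrank_ker
    rw [dim_ext hn Λ x h0 hx, LinearMap.ker_comp, Submodule.ker_mkQ,
      (Submodule.comapSubtypeEquivOfLe (seca_le hV hx)).finrank_eq,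
      finrank_span_singleton h0] at h1
    omega
  let b := Module.finBasisOfFinrankEq Λ _ hr
  have hD : ∀ l, ∃ D : Dr k Λ, (Submodule.span Λ {x}).mkQ (dv x D) = b l := fun l => by
    obtain ⟨v, hv⟩ := (b l).2
    obtain ⟨D, c, hc⟩ := h v v.2
    refine ⟨D, ((Submodule.Quotient.eq _).2 (Submodule.mem_span_singleton.2
      ⟨-c, ?_⟩)).trans hv⟩
    funext i
    change -c * x i = D (x i) - v.1 i
    rw [hc]
    ring
  choose D hD using hD
  refine NK.not_cod D (fun _ => trivial) fun w hw => funext (Fintype.linearIndependent_iff.1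
    b.linearIndependent w (Subtype.ext ?_))
  have := (Submodule.Quotient.mk_eq_zero _).2 (seca_st.2 hw)
  rw [← Submodule.mkQ_apply, map_sum, map_sum] at this
  simpa [hD] using this

/-- `st_norm`, `ind_of_not_cod`; the independent coordinates stay independent; `Ind.not_cod`. -/
theorem Gn.transfer (hV : Cone I) (hn : Dim I n k) {E : Type} [Field E] [Algebra k E] {y : V E N}
    {i : Fin (N + 1)} (h1 : x i = 1) (h2 : y i = 1) (hx : On I x) (hy : On I y)
    (h : ∀ q : Pk k N, MvPolynomial.aeval y q = 0 → MvPolynomial.aeval x q = 0) (hg : Gn I x) :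
    Gn I y := by
  have hx0 : x ≠ 0 := fun e => by simp [e] at h1
  have hy0 : y ≠ 0 := fun e => by simp [e] at h2
  by_contra hc
  have a := hg.not_cod hV hn hx0 hx
  have b := cod_st_of_not hV hn hy0 hy hc
  rw [st_norm h1] at a
  rw [st_norm h2] at b
  obtain ⟨t, ht, hm⟩ := ind_of_not_cod a
  choose j hj using hm
  refine Ind.not_cod (T := Set.range y) ⟨y ∘ j, algebraicIndependent_iff.2 fun q hq => ?_,
    fun l => ⟨j l, rfl⟩⟩ (IntermediateField.subset_adjoin _ _) b
  refine algebraicIndependent_iff.1 ht q ?_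
  rw [← funext hj]
  have := h (MvPolynomial.rename j q) (by rwa [MvPolynomial.aeval_rename])
  rwa [MvPolynomial.aeval_rename] at this

/-- `Frame.le_of_surj` with the sections `dF F D + c • F`. -/
theorem Gn.free [IsAlgClosed Λ] (hV : SmoothVar I) (hn : Dim I n k) {e : ℕ} {F : V Λ[X] N}
    (hF : IsMap I e F) {p : Option Λ} (hp : p = none ∨ p = some 0) (h : Gn I (ev e p F)) :
    Free I e F := by
  obtain ⟨δ, G, hG⟩ := exists_frame hn hF
  refine (hG.free_iff hV hn hF).2 (hG.le_of_surj hV hn hF p fun v hv => ?_)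
  obtain ⟨D, c, hc⟩ := h v hv
  refine ⟨dF F D + c • F, add_mem (dF_sec hF D)
    (Submodule.smul_mem _ c ⟨hF.deg, euler_tg hV.toCone hF.on⟩), funext fun i => ?_⟩
  rw [hc]
  exact (val_add p _ _).trans (congrArg₂ _ (congrFun (ev_dF F D hp) i) (val_smul p c _))

end

end Pool.Agent.Lib.MP_41050a_ag.NK
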