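import Pool.Agent.Lib.MP_41050a_ag.NK.FrmB

/-! The anticanonical degree. -/

namespace Pool.Agent.Lib.MP_41050a_ag.NK

open Polynomial Module

set_option linter.unusedSectionVars false

noncomputable section

variable {k : Type} [Field k] [IsAlgClosed k] [CharZero k] {N n : ℕ} {I : Ideal (Pk k N)}
  {Λ : Type} [Field Λ] [Algebra k Λ] [IsAlgClosed Λ] {e p p' : ℕ} {F : V Λ[X] N}
  {π π' : Jx n N → Λ[X]} {d d' b : ℤ}

/-- `pl_uniq` over `RatFunc Λ` (`Pl.map` with `amH`), clear denominators, `Bp.uniq`. -/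
theorem Pr.uniq (hn : Dim I n k) (h : Pr I n e F p π) (h' : Pr I n e F p' π') : p = p' := by
  have inj : Function.Injective (amH k Λ) := IsFractionRing.injective Λ[X] (RatFunc Λ)
  have ne : ∀ {q : ℕ} {σ : Jx n N → Λ[X]}, Bp q σ → amH k Λ ∘ σ ≠ 0 := fun {q σ} h e => by
    obtain ⟨i, hi⟩ := h.bpf none
    have : σ i = 0 := inj ((congrFun e i).trans (map_zero _).symm)
    simp [this, val] at hi
  obtain ⟨c, hc, e⟩ := pl_uniq (rank_am hn h.map) (h.pl.map (amH k Λ)) (h'.pl.map (amH k Λ))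
    (ne h.bp) (ne h'.bp)
  refine h.bp.uniq h'.bp (RatFunc.num_ne_zero hc) c.denom_ne_zero fun i => inj ?_
  have h1 : amH k Λ (π' i) = c * amH k Λ (π i) := congrFun e i
  have h2 : amH k Λ c.num = amH k Λ c.denom * c :=
    ((div_eq_iff (RatFunc.algebraMap_ne_zero c.denom_ne_zero)).1 c.num_div_denom).trans
      (mul_comm _ _)
  rw [map_mul, map_mul, h1, h2, mul_assoc]

theorem AntiK.pr (hF : IsMap I e F) (h : AntiK I n e F d) :
    ∃ (p : ℕ) (π : Jx n N → Λ[X]), Pr I n e F p π ∧ d = (n + 1) * e - p := by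
  obtain ⟨δ, G, h, rfl⟩ := h
  obtain ⟨-, ht, hb⟩ := frame_iff.1 h
  exact ⟨_, _, ⟨hF, hb, pl_mn ht⟩, by simp [Finset.sum_sub_distrib]⟩

theorem Pr.antiK (hn : Dim I n k) (h : Pr I n e F p π) : AntiK I n e F ((n + 1) * e - p) := by
  obtain ⟨δ, G, hG⟩ := exists_frame hn h.map
  obtain ⟨p', π', h', e'⟩ := AntiK.pr h.map ⟨δ, G, hG, rfl⟩
  exact ⟨δ, G, hG, by rw [h.uniq hn h', e']⟩

theorem AntiK.uniq (hn : Dim I n k) (hF : IsMap I e F) (h : AntiK I n e F d)
    (h' : AntiK I n e F d') : d = d' := by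
  obtain ⟨p, π, h1, rfl⟩ := h.pr hF
  obtain ⟨p', π', h2, rfl⟩ := h'.pr hF
  rw [h1.uniq hn h2]

/-- A basis of the tangent space at the point is a frame of constants. -/
theorem antiK_zero (hV : SmoothVar I) (hn : Dim I n k) (hF : IsMap I 0 F) (h : AntiK I n 0 F d) :
    d = 0 := by
  obtain ⟨δ, G, h, rfl⟩ := h
  have hf : Free I 0 F := fun p v hv => by
    have e : IsScalarTower.toAlgHom k Λ Λ[X] ∘ (fun i => val 0 p (F i)) = F :=
      funext fun i => by
        obtain ⟨c, hc⟩ := natDegree_eq_zero.1 (Nat.le_zero.1 (hF.deg i))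
        cases p <;> simp [val, ← hc]
    refine ⟨fun i => C (v i), fun i => (natDegree_C _).le, e ▸ hv.map _, fun i => ?_⟩
    cases p <;> simp [val]
  simp [fun j => Nat.le_zero.1 ((h.free_iff hV hn hF).1 hf j)]

theorem AntiK.rank_sec (hV : SmoothVar I) (hn : Dim I n k) (hF : IsMap I e F) (hf : Free I e F)
    (h : AntiK I n e F d) :
    FiniteDimensional Λ (sec I e F) ∧ (finrank Λ (sec I e F) : ℤ) = d + n + 1 := by
  obtain ⟨δ, G, h, rfl⟩ := h
  refine ⟨(h.rank_sec hn hF e).1, ?_⟩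
  rw [(h.rank_sec hn hF e).2, Nat.cast_sum, Finset.sum_congr rfl fun j _ =>
    Nat.cast_sub (((h.free_iff hV hn hF).1 hf j).trans e.le_succ)]
  simp [Finset.sum_sub_distrib]
  ring

/-- `s` contains the sets of `Bp.spread` for `F` and for `mn G` and the coefficients of `G`; use
`frame_iff`, `lift_poly`, `mn_map`. -/
theorem spread_frame (hF : IsMap I e F) {δ : Fin (n + 1) → ℕ} {G : Fin (n + 1) → V Λ[X] N}
    (h : Frame I n F δ G) : ∃ s : Set Λ, s.Finite ∧ ∀ A : Subalgebra k Λ, s ⊆ A →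
      ∀ (φ : A →ₐ[k] k) (F' : V A[X] N), (∀ i, (F' i).map (A.val : A →+* Λ) = F i) →
        IsMap I e (fun i => (F' i).map (φ : A →+* k)) ∧
          ∃ G', Frame I n (fun i => (F' i).map (φ : A →+* k)) δ G' := by
  obtain ⟨hd, ht, hb⟩ := frame_iff.1 h
  obtain ⟨s₁, f₁, h₁⟩ := (isMap_bp hF).spread (k := k)
  obtain ⟨s₂, f₂, h₂⟩ := hb.spread (k := k)
  refine ⟨s₁ ∪ s₂ ∪ cfs fun q : Fin (n + 1) × Fin (N + 1) => G q.1 q.2,
    (f₁.union f₂).union (cfs_finite _), fun A hA φ F' hF' => ?_⟩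
  simp only [Set.union_subset_iff] at hA
  obtain ⟨G', hG'⟩ := lift_poly A hA.2
  have hv : Function.Injective (A.val : A →+* Λ) := Subtype.val_injective
  have hi : Function.Injective (mapAlgHom A.val) := map_injective _ hv
  have e1 : mapAlgHom A.val ∘ F' = F := funext hF'
  have b1 := h₁ A hA.1.1 φ F' hF'
  refine ⟨⟨b1.deg, (On.of_map hi (e1 ▸ hF.on)).map (mapAlgHom φ), b1.bpf⟩,
    fun j i => (G' (j, i)).map φ, frame_iff.2 ⟨fun j i => natDegree_map_le.trans ?_, fun j => ?_, ?_⟩⟩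
  · rw [← natDegree_map_eq_of_injective hv, hG']
    exact hd j i
  · have e2 : (mapAlgHom A.val ∘ fun i => G' (j, i)) = G j := funext fun i => hG' (j, i)
    exact (Tg.of_map hi (by rw [e1, e2]; exact ht j)).map (mapAlgHom φ)
  · have h3 := h₂ A hA.1.2 φ (mn fun j i => G' (j, i)) fun T =>
      (mn_map (mapRingHom (A.val : A →+* Λ)) (fun j i => G' (j, i)) T).trans
        (congrArg (mn · T) (funext fun j => funext fun i => hG' (j, i)))
    exact (funext fun T => mn_map (mapRingHom (φ : A →+* k)) (fun j i => G' (j, i)) T) ▸ h3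

theorem spread_map (hV : SmoothVar I) (hn : Dim I n k) (hF : IsMap I e F) (h : AntiK I n e F d) :
    ∃ s : Set Λ, s.Finite ∧ ∀ A : Subalgebra k Λ, s ⊆ A →
      ∀ (φ : A →ₐ[k] k) (F' : V A[X] N), (∀ i, (F' i).map (A.val : A →+* Λ) = F i) →
        IsMap I e (fun i => (F' i).map (φ : A →+* k)) ∧
        AntiK I n e (fun i => (F' i).map (φ : A →+* k)) d ∧
        (Free I e F ↔ Free I e fun i => (F' i).map (φ : A →+* k)) := by
  obtain ⟨δ, G, hG, rfl⟩ := h
  obtain ⟨s, hs, h⟩ := spread_frame hF hG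
  refine ⟨s, hs, fun A hA φ F' hF' => ?_⟩
  obtain ⟨h1, G', h2⟩ := h A hA φ F' hF'
  exact ⟨h1, ⟨δ, G', h2, rfl⟩, (hG.free_iff hV hn hF).trans (h2.free_iff hV hn h1).symm⟩

theorem Curve.spec (hV : SmoothVar I) (hn : Dim I n k) (h : Curve I n e F d) :
    ∃ F' : V k[X] N, Curve I n e F' d ∧ (Free I e F → Free I e F') := by
  obtain ⟨s, hs, h1⟩ := spread_map hV hn h.map h.deg
  obtain ⟨φ⟩ := exists_point (k := k) (hs.union (cfs_finite F))
  have h2 := Set.union_subset_iff.1 (Algebra.subset_adjoin (R := k) (s := s ∪ cfs F))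
  obtain ⟨F', hF'⟩ := lift_poly _ h2.2
  obtain ⟨h3, h4, h5⟩ := h1 _ h2.1 φ F' hF'
  exact ⟨_, ⟨h.pos, h3, h4⟩, h5.1⟩

theorem Low.ext (hV : SmoothVar I) (hn : Dim I n k) (h : Low I n k b) (Λ : Type) [Field Λ]
    [Algebra k Λ] [IsAlgClosed Λ] : Low I n Λ b := fun e _ d hc =>
  (hc.spec hV hn).elim fun F' h1 => h e F' d h1.1

end

end Pool.Agent.Lib.MP_41050a_ag.NK
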