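import Pool.Agent.Lib.MP_41050a_ag.Defs

/-! Anticanonical degree, chains of rational curves, necks. -/

namespace Pool.Agent.Lib.MP_41050a_ag.NK

open Polynomial

noncomputable section

variable {k : Type} [Field k] {N : ℕ} (I : Ideal (Pk k N)) (n : ℕ)

section

variable {R : Type} [Field R] [Algebra k R]

/-- The tangent space of the affine cone at `x`. -/
def tsp (x : Fin (N + 1) → R) : Submodule R (Fin (N + 1) → R) where
  carrier := {v | Tg I x v}
  zero_mem' := fun Φ _ => by simp
  add_mem' := fun {v w} hv hw Φ hΦ => by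
    simp only [Pi.add_apply, mul_add, Finset.sum_add_distrib, hv Φ hΦ, hw Φ hΦ, add_zero]
  smul_mem' := fun c v hv Φ hΦ => by
    simp only [Pi.smul_apply, smul_eq_mul, mul_left_comm _ c, ← Finset.mul_sum, hv Φ hΦ, mul_zero]

/-- The variety has dimension `n`: all tangent spaces of the punctured cone at points with
coordinates in `R` have dimension `n + 1`. -/
def Dim (R : Type) [Field R] [Algebra k R] : Prop :=
  ∀ x : Fin (N + 1) → R, x ≠ 0 → On I x → Module.finrank R (tsp I x) = n + 1

/-- `G 0, …, G n` are tuples of forms of degrees `δ 0, …, δ n`, tangent to the cone along `F` and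
independent at every point of the projective line. If `F` has degree `e`, this splits the extension
`0 → O → E → f^* T_X → 0` as `E = ⊕ O(e - δ j)`. -/
structure Frame (F : Fin (N + 1) → R[X]) (δ : Fin (n + 1) → ℕ)
    (G : Fin (n + 1) → Fin (N + 1) → R[X]) : Prop where
  deg : ∀ j i, (G j i).natDegree ≤ δ j
  tg : ∀ j, Tg I F (G j)
  ind : ∀ p : Option R, LinearIndependent R fun j i => val (δ j) p (G j i)

/-- The degree of `f^* T_X`, that is the anticanonical degree, is `d`. -/
def AntiK (e : ℕ) (F : Fin (N + 1) → R[X]) (d : ℤ) : Prop :=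
  ∃ δ G, Frame I n F δ G ∧ d = ∑ j, ((e : ℤ) - δ j)

/-- A non-constant map of degree `e` from the projective line, of anticanonical degree `d`. -/
structure Curve (e : ℕ) (F : Fin (N + 1) → R[X]) (d : ℤ) : Prop where
  pos : 0 < e
  map : IsMap I e F
  deg : AntiK I n e F d

/-- The same point of projective space. -/
def Par (x y : Fin (N + 1) → R) : Prop := ∃ c : R, c ≠ 0 ∧ y = c • x

/-- A chain of rational curves from `x` to `y`, with its total anticanonical degree. -/
inductive Chain : (Fin (N + 1) → R) → (Fin (N + 1) → R) → ℤ → Prop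
  | nil {x y : Fin (N + 1) → R} : Par x y → Chain x y 0
  | cons {x y : Fin (N + 1) → R} {e : ℕ} {F : Fin (N + 1) → R[X]} {d ε : ℤ} :
      Curve I n e F d → Par x (fun i => val e none (F i)) →
        Chain (fun i => val e (some 0) (F i)) y ε → Chain x y (d + ε)

/-- The ratios of the coordinates. -/
def rat (x : Fin (N + 1) → R) : Set R := {a | ∃ i j, a = x i / x j}

end

/-- Over some extension field there is a chain of rational curves of total anticanonical degree `ε`
whose two ends have transcendence degree at least `n + ε` over `k`. -/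
def Neck (ε : ℕ) : Prop :=
  ∃ (Λ : Type) (_ : Field Λ) (_ : Algebra k Λ) (_ : IsAlgClosed Λ) (x y : Fin (N + 1) → Λ),
    Chain I n x y ε ∧ ∃ t : Fin (n + ε) → Λ, AlgebraicIndependent k t ∧ ∀ l, t l ∈ rat x ∪ rat y

/-- The general point of the zero set of `P` is a free rational curve of degree `e` and of
anticanonical degree at least `c`. -/
def GenK (e : ℕ) (P : Ideal (MvPolynomial (Fin (N + 1) × Fin (e + 1)) k)) (c : ℤ) : Prop :=
  ∃ h ∉ P, ∀ a : Fin (N + 1) × Fin (e + 1) → k, (∀ g ∈ P, MvPolynomial.aeval a g = 0) →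
    MvPolynomial.aeval a h ≠ 0 →
      IsMap I e (pol a) ∧ Free I e (pol a) ∧ ∃ d, c ≤ d ∧ AntiK I n e (pol a) d

/-- There is a family `F(s, t)` over `k⟦s⟧` in the zero set of `P` whose limit stable map at
`s = 0` consists of two free curves `F₁` (the main component) and `F₂` (a bubble at `t = 0`, seen
in the coordinate `u` with `t = l u`, where `l ≠ 0` vanishes at `s = 0`). -/
def BreaksN (e : ℕ) (P : Ideal (MvPolynomial (Fin (N + 1) × Fin (e + 1)) k)) : Prop :=
  ∃ (e₁ e₂ : ℕ) (l : PowerSeries k) (F₁ F₂ : Fin (N + 1) → k[X])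
    (c : Fin (N + 1) × Fin (e + 1) → PowerSeries k) (H : Fin (N + 1) → (PowerSeries k)[X]),
    0 < e₁ ∧ 0 < e₂ ∧ e₁ + e₂ = e ∧ IsMap I e₁ F₁ ∧ Free I e₁ F₁ ∧ IsMap I e₂ F₂ ∧ Free I e₂ F₂ ∧
    l ≠ 0 ∧ PowerSeries.constantCoeff l = 0 ∧ (∀ g ∈ P, MvPolynomial.aeval c g = 0) ∧
    (∀ i, (pol c i).map PowerSeries.constantCoeff = X ^ e₂ * F₁ i) ∧
    (∀ i, (pol c i).comp (C l * X) = C l ^ e₂ * H i) ∧
    ∀ i, (H i).map PowerSeries.constantCoeff = F₂ i

end

end Pool.Agent.Lib.MP_41050a_ag.NK
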