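import Pool.Agent.Lib.MP_41050a_ag.Member
import Pool.Agent.Lib.MP_41050a_ag.NK.Defs

/-! Definitions used in the proof. -/

namespace Pool.Agent.Lib.MP_41050a_ag.NK

open Polynomial

set_option linter.unusedSectionVars false

noncomputable section

variable {k : Type} [Field k] {N : ℕ}

section Lin

variable {Λ M : Type} [Field Λ] [AddCommGroup M] [Module Λ M]

/-- `U ⊓ U'` has codimension at most `c` in `U`. -/
def Cod (U U' : Submodule Λ M) (c : ℤ) : Prop :=
  ∃ (r : ℕ) (ψ : M →ₗ[Λ] (Fin r → Λ)), (r : ℤ) ≤ c ∧ ∀ D ∈ U, ψ D = 0 → D ∈ U'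

end Lin

section Der

variable (k) {Λ : Type} [Field Λ] [Algebra k Λ]

/-- Derivations. -/
abbrev Dr (Λ : Type) [Field Λ] [Algebra k Λ] : Type := Derivation k Λ Λ

/-- Derivations that kill `S`. -/
def Ann (S : Set Λ) : Submodule Λ (Dr k Λ) where
  carrier := {D | ∀ a ∈ S, D a = 0}
  zero_mem' := fun _ _ => rfl
  add_mem' := fun {D D'} h h' a ha => by simp [h a ha, h' a ha]
  smul_mem' := fun c D h a ha => by simp [h a ha]

/-- Derivations that fix the projective point `x`. -/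
def St (x : V Λ N) : Submodule Λ (Dr k Λ) where
  carrier := {D | ∃ c : Λ, ∀ i, D (x i) = c * x i}
  zero_mem' := ⟨0, fun _ => by simp⟩
  add_mem' := fun {D D'} ⟨c, h⟩ ⟨c', h'⟩ => ⟨c + c', fun i => by simp [h, h', add_mul]⟩
  smul_mem' := fun a D ⟨c, h⟩ => ⟨a * c, fun i => by simp [h, mul_assoc]⟩

/-- `S` contains `c` algebraically independent elements. -/
def Ind (S : Set Λ) (c : ℕ) : Prop :=
  ∃ t : Fin c → Λ, AlgebraicIndependent k t ∧ ∀ l, t l ∈ S

variable {k}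

/-- A derivation acts on the coefficients of a polynomial. -/
def dP (D : Dr k Λ) : Derivation k Λ[X] Λ[X] :=
  PolynomialModule.equivPolynomialSelf.toLinearMap.compDer D.mapCoeffs

theorem dP_coeff (D : Dr k Λ) (f : Λ[X]) (j : ℕ) : (dP D f).coeff j = D (f.coeff j) := rfl

/-- The coefficients of a tuple. -/
def cfs {ι : Type} (F : ι → Λ[X]) : Set Λ := {a | ∃ i j, a = (F i).coeff j}

/-- `x` is a generic point: derivations give all tangent vectors. -/
def Gn (I : Ideal (Pk k N)) (x : V Λ N) : Prop :=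
  ∀ v, Tg I x v → ∃ (D : Dr k Λ) (c : Λ), ∀ i, v i = D (x i) + c * x i

/-- Tangent fields of degree at most `m` along `F`. -/
def sec (I : Ideal (Pk k N)) (m : ℕ) (F : V Λ[X] N) : Submodule Λ (V Λ[X] N) where
  carrier := {G | (∀ i, (G i).natDegree ≤ m) ∧ Tg I F G}
  zero_mem' := ⟨fun _ => by simp, Tg.zero⟩
  add_mem' := fun {G H} hG hH =>
    ⟨fun i => (natDegree_add_le _ _).trans (max_le (hG.1 i) (hH.1 i)), hG.2.add hH.2⟩
  smul_mem' := fun c G hG => ⟨fun i => (natDegree_smul_le _ _).trans (hG.1 i), by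
    have h := hG.2.smul (C c)
    convert h using 1
    funext i
    simp [smul_eq_C_mul]⟩

/-- The value of a tuple at a point of the projective line. -/
def ev (e : ℕ) (p : Option Λ) {ι : Type} (F : ι → Λ[X]) : ι → Λ := fun i => val e p (F i)

/-- A tuple of forms of degree `e` without common zero. -/
structure Bp {ι : Type} (e : ℕ) (T : ι → Λ[X]) : Prop where
  deg : ∀ i, (T i).natDegree ≤ e
  bpf : ∀ p, ∃ i, val e p (T i) ≠ 0

/-- The tuple vanishes to order exactly `μ` at `b`, with leading vector `y`. -/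
def Ord {ι : Type} (T : ι → Λ[X]) (b : Λ) (μ : ℕ) (y : ι → Λ) : Prop :=
  y ≠ 0 ∧ ∃ T' : ι → Λ[X], (∀ i, T i = (X - C b) ^ μ * T' i) ∧ ∀ i, (T' i).eval b = y i

/-- Every rational curve has anticanonical degree at least `b`. -/
def Low (I : Ideal (Pk k N)) (n : ℕ) (Λ : Type) [Field Λ] [Algebra k Λ] (b : ℤ) : Prop :=
  ∀ (e : ℕ) (F : V Λ[X] N) (d : ℤ), Curve I n e F d → b ≤ d

end Der

section Plk

/-- The indices of the maximal minors. -/
abbrev Jx (n N : ℕ) : Type := Fin (n + 1) → Fin (N + 1)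

variable {n : ℕ} {R : Type} [CommRing R]

/-- The maximal minors. -/
def mn (G : Fin (n + 1) → V R N) : Jx n N → R := fun S => (Matrix.of fun j l => G j (S l)).det

/-- The vectors given by Cramer's rule. -/
def cr (π : Jx n N → R) (S : Jx n N) : Fin (n + 1) → V R N :=
  fun l i => π (Function.update S l i)

variable [Algebra k R]

/-- `π` is a multiple of the Pluecker vector of the tangent space at `x`. -/
structure Pl (I : Ideal (Pk k N)) (x : V R N) (π : Jx n N → R) : Prop where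
  tg : ∀ S l, Tg I x (cr π S l)
  rel : ∀ S T, mn (cr π S) T = π S ^ n * π T

end Plk

/-- A map together with its Gauss map. -/
structure Pr {Λ : Type} [Field Λ] [Algebra k Λ] (I : Ideal (Pk k N)) (n e : ℕ) (F : V Λ[X] N)
    (p : ℕ) (π : Jx n N → Λ[X]) : Prop where
  map : IsMap I e F
  bp : Bp p π
  pl : Pl I F π

/-- The reduction of a tuple. -/
def rd {O Λ ι : Type} [CommRing O] [CommRing Λ] [Algebra k O] [Algebra k Λ] (red : O →ₐ[k] Λ)
    (T : ι → O[X]) : ι → Λ[X] := fun i => (T i).map (red : O →+* Λ)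

/-- A map together with its Gauss map, with integral coefficients. -/
structure TP {O : Type} [CommRing O] [Algebra k O] (K : Type) [Field K] [Algebra O K]
    (I : Ideal (Pk k N)) (n : ℕ) (F : V O[X] N) (π : Jx n N → O[X]) : Prop where
  on : On I F
  bF : ∀ a : K, ∃ i, aeval a (F i) ≠ 0
  bP : ∀ a : K, ∃ S, aeval a (π S) ≠ 0
  pl : Pl I F π

/-- The residue map of a valuation ring. -/
structure Res {O Λ : Type} [CommRing O] [Field Λ] [Algebra k O] [Algebra k Λ] (red : O →ₐ[k] Λ) :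
    Prop where
  surj : Function.Surjective red
  unit : ∀ a, red a ≠ 0 → IsUnit a

/-- The limit consists of two free curves. -/
structure Two {O Λ : Type} [CommRing O] [Field Λ] [Algebra k O] [Algebra k Λ] (red : O →ₐ[k] Λ)
    (I : Ideal (Pk k N)) (n e : ℕ) (F : V O[X] N) (d : ℤ) : Prop where
  ex : ∃ (e₁ e₂ : ℕ) (d₁ d₂ : ℤ) (F₁ : V Λ[X] N) (σ : O) (H : V O[X] N), e₁ + e₂ = e ∧
    d₁ + d₂ ≤ d ∧ σ ≠ 0 ∧ red σ = 0 ∧ Curve I n e₁ F₁ d₁ ∧ Free I e₁ F₁ ∧
    Curve I n e₂ (rd red H) d₂ ∧ Free I e₂ (rd red H) ∧ (∀ i, rd red F i = X ^ e₂ * F₁ i) ∧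
    ∀ i, (F i).comp (C σ * X) = C σ ^ e₂ * H i

/-- The second alternative, over the field `Λ`. -/
def NkO (I : Ideal (Pk k N)) (n : ℕ) (Λ : Type) [Field Λ] [Algebra k Λ] (b : ℤ) : Prop :=
  ∃ (ε : ℕ) (x y : V Λ N) (e : ℕ) (F : V Λ[X] N) (d : ℤ), b ≤ ε ∧ ε + d ≤ n ∧ Chain I n x y ε ∧
    Ind k (rat x ∪ rat y) (n + ε) ∧ Curve I n e F d ∧ Free I e F

theorem mem_tsp {I : Ideal (Pk k N)} {Λ : Type} [Field Λ] [Algebra k Λ] {x v : V Λ N} :
    v ∈ tsp I x ↔ Tg I x v := Iff.rfl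

theorem mem_Ann {Λ : Type} [Field Λ] [Algebra k Λ] {S : Set Λ} {D : Dr k Λ} :
    D ∈ Ann k S ↔ ∀ a ∈ S, D a = 0 := Iff.rfl

theorem mem_St {Λ : Type} [Field Λ] [Algebra k Λ] {x : V Λ N} {D : Dr k Λ} :
    D ∈ St k x ↔ ∃ c : Λ, ∀ i, D (x i) = c * x i := Iff.rfl

theorem mem_sec {I : Ideal (Pk k N)} {Λ : Type} [Field Λ] [Algebra k Λ] {m : ℕ} {F G : V Λ[X] N} :
    G ∈ sec I m F ↔ (∀ i, (G i).natDegree ≤ m) ∧ Tg I F G := Iff.rfl

theorem isMap_bp {I : Ideal (Pk k N)} {Λ : Type} [Field Λ] [Algebra k Λ] {e : ℕ} {F : V Λ[X] N}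
    (h : IsMap I e F) : Bp e F := ⟨h.deg, h.bpf⟩

end

end Pool.Agent.Lib.MP_41050a_ag.NK
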