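import Pool.Agent.Lib.MP_41050a_ag.NK.SecB

/-! Chains. -/

namespace Pool.Agent.Lib.MP_41050a_ag.NK

open Polynomial Module

set_option linter.unusedSectionVars false

noncomputable section

variable {k : Type} [Field k] [IsAlgClosed k] [CharZero k] {N n : ℕ} {I : Ideal (Pk k N)}
  {Λ : Type} [Field Λ] [Algebra k Λ] [IsAlgClosed Λ] {x y x' : V Λ N} {ε b : ℤ}

theorem chn_ne {e : ℕ} {F : V Λ[X] N} (h : IsMap I e F) (p : Option Λ) : ev e p F ≠ 0 := by
  obtain ⟨i, hi⟩ := h.bpf p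
  exact fun h0 => hi (congrFun h0 i)

theorem Chain.nonneg (hl : Low I n Λ 1) (h : Chain I n x y ε) : 0 ≤ ε := by
  induction h with
  | nil _ => exact le_rfl
  | cons hc _ _ ih => exact add_nonneg (zero_le_one.trans (hl _ _ _ hc)) ih

theorem Chain.par_left (h : Chain I n x y ε) (hp : Par x' x) : Chain I n x' y ε := by
  cases h with
  | nil h => exact .nil (hp.trans h)
  | cons hc h h' => exact .cons hc (hp.trans h) h'

theorem Chain.snoc (h : Chain I n x y ε) : (ε = 0 ∧ Par x y) ∨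
    ∃ (y₂ : V Λ N) (ε' : ℤ) (e : ℕ) (R : V Λ[X] N) (d : ℤ), Chain I n x y₂ ε' ∧ Curve I n e R d ∧
      Par y₂ (ev e none R) ∧ Par (ev e (some 0) R) y ∧ ε = ε' + d := by
  induction h with
  | nil h => exact Or.inl ⟨rfl, h⟩
  | @cons x y e F d ε hc hp _ ih =>
    refine Or.inr ?_
    rcases ih with ⟨h0, h1⟩ | ⟨y₂, ε', e', R, d', h1, h2, h3, h4, h5⟩
    · exact ⟨x, 0, e, F, d, .nil (Par.refl x), hc, hp, h1, by omega⟩
    · exact ⟨y₂, d + ε', e', R, d', .cons hc hp h1, h2, h3, h4, by omega⟩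

/-- Induction on the chain; `cod_curve`, `st_par`, `Cod.step`, `Cod.weak` if the first curve is
free, otherwise `y₁ = x` (`Gn.free`, `Par.gn`). -/
theorem Chain.pre (hV : SmoothVar I) (hn : Dim I n k) (hb : 1 ≤ b) (hl : Low I n Λ b)
    (h : Chain I n x y ε) : (ε = 0 ∧ Par x y) ∨ Cod (St k x) (St k y) (ε - 1) ∨
      ∃ (y₁ : V Λ N) (ε₀ ε₁ : ℤ), y₁ ≠ 0 ∧ On I y₁ ∧ ¬Gn I y₁ ∧ Chain I n y₁ y ε₁ ∧ b ≤ ε₁ ∧
        ε₀ + ε₁ = ε ∧ Cod (St k y₁) (St k x) ε₀ := by
  induction h with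
  | nil h => exact Or.inl ⟨rfl, h⟩
  | @cons x y e F d ε hc hp hch ih =>
    refine Or.inr ?_
    by_cases hf : Free I e F
    · obtain ⟨c1, c2⟩ := cod_curve hV hn hc hf
      have hs : St k x = St k (ev e none F) := st_par hp
      rw [← hs] at c1 c2
      rcases ih with ⟨h0, h1⟩ | h1 | ⟨y₁, ε₀, ε₁, h1, h2, h3, h4, h5, h6, h7⟩
      · have hy : St k (ev e (some 0) F) = St k y := st_par h1
        rw [hy] at c1
        exact Or.inl (c1.mono (by omega))
      · exact Or.inl (((c1.step h1 inf_le_right).weak le_rfl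
          (inf_le_right.trans inf_le_right)).mono (by omega))
      · exact Or.inr ⟨y₁, ε₀ + d, ε₁, h1, h2, h3, h4, h5, by omega,
          ((Cod.step h7 c2 inf_le_right).weak le_rfl
            (inf_le_right.trans inf_le_right)).mono (by omega)⟩
    · have h0 := hch.nonneg fun e F d h => hb.trans (hl e F d h)
      have h1 := hl _ _ _ hc
      exact Or.inr ⟨x, 0, d + ε, hp.symm.ne (chn_ne hc.map none),
        hp.symm.on hV.toCone (On.val hV hc.map none),
        fun hg => hf (Gn.free hV hn hc.map (Or.inl rfl) (hp.gn hV.toCone hg)),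
        .cons hc hp hch, by omega, by omega, cod_zero le_rfl⟩

/-- The end of the count. `A = Ann k (cfs f)` for the main curve `f` with `f 0 = y`, and
`B = Ann k (cfs (g f))`. `R` is free (`Gn.free`). Apply `Chain.pre`. In the first two cases
`Cod ⊤ (B ⊓ St x) (d' + n + c + ρ)` with `ρ ≤ κ - 2`. In the third case start with
`St y₁ ⊓ St y₂ = Ann (rat y₁ ∪ rat y₂)` (`ind_of_not_cod`) and add `ε₀, d', c, d - 1`; for
`ε₁ + d ≤ n` start with `cod_st_of_not` and add `ε₀, d', c, n`. -/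
theorem chain_end (hV : SmoothVar I) (hn : Dim I n k) (hb : 1 ≤ b) (hl : Low I n Λ b)
    {A B : Submodule Λ (Dr k Λ)} {d' c κ : ℤ} (h1 : Cod ⊤ A (d' + n)) (h2 : Cod (St k y) A d')
    (h3 : A ≤ St k y) (h4 : Cod A B c) (h5 : ¬Cod ⊤ (B ⊓ St k x) (d' + n + c + κ - 2))
    (hx : Gn I x) {y₂ : V Λ N} {e : ℕ} {R : V Λ[X] N} {d : ℤ} (hc : Chain I n y y₂ ε)
    (hR : Curve I n e R d) (p1 : Par y₂ (ev e none R)) (p2 : Par (ev e (some 0) R) x)
    (hκ : ε + d ≤ κ) (hs : 0 < ε ∨ ε + d + 1 ≤ κ) : NkO I n Λ b := by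
  have hf : Free I e R := Gn.free hV hn hR.map (Or.inr rfl) (p2.symm.gn hV.toCone hx)
  have c1 : Cod (St k y₂) (St k x) (d - 1) := by
    rw [st_par p1, ← st_par p2]
    exact (cod_curve hV hn hR hf).1
  have hAB := h1.step h4 inf_le_right
  rcases hc.pre hV hn hb hl with ⟨h0, hp⟩ | hp | ⟨y₁, ε₀, ε₁, n1, o1, g1, ch, hε, hsum, c0⟩
  · rw [← st_par hp] at c1
    refine absurd (((hAB.step c1 (inf_le_right.trans (inf_le_left.trans h3))).weak le_rfl
      ?_).mono (by omega)) h5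
    exact inf_le_right.trans (inf_le_inf_right _ inf_le_right)
  · refine absurd ((((hAB.step hp (inf_le_right.trans (inf_le_left.trans h3))).step c1
      (inf_le_right.trans inf_le_right)).weak le_rfl ?_).mono (by omega)) h5
    exact inf_le_right.trans (inf_le_inf_right _ (inf_le_left.trans inf_le_right))
  · have key : ∀ {U : Submodule Λ (Dr k Λ)} {r : ℤ}, U ≤ St k y₁ → Cod ⊤ U r →
        Cod ⊤ (U ⊓ B) (r + ε₀ + d' + c) := fun hU H =>
      (((H.step c0 (inf_le_right.trans hU)).step h2 (inf_le_right.trans inf_le_right)).step h4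
        (inf_le_right.trans inf_le_right)).weak le_rfl
        (inf_le_right.trans (inf_le_inf_right _ (inf_le_left.trans inf_le_left)))
    obtain ⟨m, rfl⟩ := Int.eq_ofNat_of_zero_le (show 0 ≤ ε₁ by omega)
    refine ⟨m, y₁, y₂, e, R, d, hε, ?_, ch, ind_of_not_cod fun H => h5 ?_, hR, hf⟩
    · by_contra hlt
      have H := (key le_rfl (cod_st_of_not hV.toCone hn n1 o1 g1)).step
        (cod_st hV.toCone hn (p2.ne (chn_ne hR.map _))
          (p2.on hV.toCone (On.val hV hR.map _))) le_top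
      refine h5 ((H.weak le_rfl ?_).mono (by omega))
      exact inf_le_right.trans (inf_le_inf_right _ inf_le_right)
    · rw [ann_union, ← st_eq, ← st_eq] at H
      refine (((key inf_le_left H).step c1
        (inf_le_right.trans (inf_le_left.trans inf_le_right))).weak le_rfl ?_).mono ?_
      · exact inf_le_right.trans (inf_le_inf_right _ inf_le_right)
      · push_cast
        omega

end

end Pool.Agent.Lib.MP_41050a_ag.NK
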