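import Pool.Agent.Lib.MP_41050a_ag.NK.Base

/-! Codimension calculus. -/

namespace Pool.Agent.Lib.MP_41050a_ag.NK

open Polynomial Module

set_option linter.unusedSectionVars false

noncomputable section

variable {Λ M : Type} [Field Λ] [AddCommGroup M] [Module Λ M] {U U' W W' : Submodule Λ M}
  {c c' : ℤ}

theorem Cod.nonneg (h : Cod U U' c) : 0 ≤ c := by
  obtain ⟨r, -, h, -⟩ := h
  omega

theorem Cod.mono (h : Cod U U' c) (hc : c ≤ c') : Cod U U' c' := by
  obtain ⟨r, ψ, h1, h2⟩ := h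
  exact ⟨r, ψ, h1.trans hc, h2⟩

theorem Cod.weak (h : Cod U U' c) (h1 : W ≤ U) (h2 : W ⊓ U' ≤ W') : Cod W W' c := by
  obtain ⟨r, ψ, h3, h4⟩ := h
  exact ⟨r, ψ, h3, fun D hD e => h2 ⟨hD, h4 D (h1 hD) e⟩⟩

theorem cod_zero (h : U ≤ U') : Cod U U' 0 := by
  exact ⟨0, 0, le_rfl, fun D hD _ => h hD⟩

/-- Put the two families of linear forms together (`Fin.append`, `LinearMap.pi`). -/
theorem Cod.step (h : Cod U U' c) (h' : Cod W W' c') (hW : U ⊓ U' ≤ W) :
    Cod U (U' ⊓ W') (c + c') := by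
  obtain ⟨r, ψ, h1, h2⟩ := h
  obtain ⟨r', ψ', h3, h4⟩ := h'
  refine ⟨r + r', LinearMap.pi (Fin.append (fun i => LinearMap.proj i ∘ₗ ψ)
    fun i => LinearMap.proj i ∘ₗ ψ'), by push_cast; omega, fun D hD e => ?_⟩
  have e1 := h2 D hD (funext fun i => by simpa using congrFun e (Fin.castAdd r' i))
  exact ⟨e1, h4 D (hW ⟨hD, e1⟩) (funext fun i => by simpa using congrFun e (Fin.natAdd r i))⟩

theorem cod_sum {α : Type} (s : Finset α) (T : α → Submodule Λ M) (f : α → ℤ)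
    (h : ∀ a ∈ s, Cod U (T a) (f a)) : Cod U (⨅ a ∈ s, T a) (∑ a ∈ s, f a) := by
  classical
  induction s using Finset.induction_on with
  | empty => simpa using cod_zero le_top
  | insert a s ha ih =>
    rw [Finset.sum_insert ha, Finset.iInf_insert]
    exact (h a (Finset.mem_insert_self a s)).step
      (ih fun b hb => h b (Finset.mem_insert_of_mem hb)) inf_le_left

/-- Coordinates on the quotient of `T` by `T'`, extended to `Z` (`LinearMap.exists_extend`). -/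
theorem cod_of_map {Z : Type} [AddCommGroup Z] [Module Λ Z] (φ : M →ₗ[Λ] Z) {T T' : Submodule Λ Z}
    [FiniteDimensional Λ T] (hle : T' ≤ T) (hT : ∀ D ∈ U, φ D ∈ T)
    (h : ∀ D ∈ U, φ D ∈ T' → D ∈ U') (hc : (finrank Λ T : ℤ) ≤ finrank Λ T' + c) : Cod U U' c := by
  let N := T'.comap T.subtype
  obtain ⟨g, hg⟩ := LinearMap.exists_extend
    ((Module.finBasis Λ (T ⧸ N)).equivFun.toLinearMap ∘ₗ N.mkQ)
  have h1 := N.finrank_quotient_add_finrank
  rw [(Submodule.comapSubtypeEquivOfLe hle).finrank_eq] at h1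
  refine ⟨_, g ∘ₗ φ, by omega, fun D hD e => h D hD ?_⟩
  have h2 := LinearMap.congr_fun hg ⟨_, hT D hD⟩
  exact (Submodule.Quotient.mk_eq_zero N).1
    ((Module.finBasis Λ (T ⧸ N)).equivFun.map_eq_zero_iff.1 (h2.symm.trans e))

/-- The map `w ↦ ψ (∑ l, w l • D l)` from dimension `r` to a smaller dimension has a kernel. -/
theorem not_cod {r : ℕ} (D : Fin r → M) (hD : ∀ l, D l ∈ U)
    (h : ∀ w : Fin r → Λ, ∑ l, w l • D l ∈ U' → w = 0) : ¬Cod U U' ((r : ℤ) - 1) := by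
  rintro ⟨r', ψ, h1, h2⟩
  have h3 := LinearMap.finrank_le_finrank_of_injective
    (f := ψ ∘ₗ Fintype.linearCombination Λ D) ((injective_iff_map_eq_zero _).2 fun w e =>
      h w (h2 _ (U.sum_mem fun l _ => U.smul_mem _ (hD l)) e))
  simp only [finrank_fin_fun] at h3
  omega

end

end Pool.Agent.Lib.MP_41050a_ag.NK
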