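import Pool.Agent.Lib.MP_41050a_ag.NK.Tree

/-! The dimension count. -/

namespace Pool.Agent.Lib.MP_41050a_ag.NK

open Polynomial Module

set_option linter.unusedSectionVars false

noncomputable section

variable {k : Type} [Field k] [IsAlgClosed k] [CharZero k] {N n : ℕ} {I : Ideal (Pk k N)}
  {Λ : Type} [Field Λ] [Algebra k Λ] [IsAlgClosed Λ]
  {O K : Type} [CommRing O] [IsDomain O] [ValuationRing O] [Algebra k O] [Field K] [IsAlgClosed K]
  [Algebra O K] [IsFractionRing O K] {red : O →ₐ[k] Λ} {F : V O[X] N} {π : Jx n N → O[X]}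
  {e p : ℕ} {b d : ℤ}

/-- `tail` for the reversed tuples at `0` (`TP.rev`, `rd_rev`, `exists_ord`, `ord_zero_iff`): there
`μ = 0`, hence `ν = 0`. -/
theorem top_pi (hV : SmoothVar I) (hn : Dim I n k) (hl : Low I n Λ 1) (hr : Res red)
    (h : TP K I n F π) (h1 : ∀ i, (F i).natDegree ≤ e) (h2 : ∀ S, (π S).natDegree ≤ p)
    (h3 : ∃ i, (rd red F i).coeff e ≠ 0) (h4 : ∃ S, (π S).coeff p ≠ 0) (h5 : rd red π ≠ 0) :
    ∃ S, (rd red π S).coeff p ≠ 0 := by
  have ht := h.rev hV h1 h2 (h3.imp fun i hi e0 => hi (by simp [rd, e0])) h4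
  have o1 : Ord (rd red fun i => reflect e (F i)) 0 0 fun i => (rd red F i).coeff e := by
    rw [rd_rev]
    exact ord_zero_iff.2 ⟨fun e0 => h3.elim fun i hi => hi (congrFun e0 i),
      fun _ _ hj => absurd hj (Nat.not_lt_zero _), fun i => by rw [coeff_reflect, revAt_zero]⟩
  obtain ⟨ν, z, o2⟩ := exists_ord (T := rd red fun S => reflect p (π S)) (fun e0 => h5
    (funext fun S => reflect_eq_zero_iff.1 (congrFun ((rd_rev π p).symm.trans e0) S))) 0
  have h6 := (tail hV hn hl hr ht o1 o2).1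
  obtain rfl : ν = 0 := by
    simp only [Nat.cast_zero, mul_zero] at h6
    omega
  obtain ⟨hz, -, h7⟩ := ord_zero_iff.1 o2
  refine (Function.ne_iff.1 hz).imp fun S hS e0 => hS ((h7 S).symm.trans ?_)
  rw [rd_rev, coeff_reflect, revAt_zero]
  exact e0

theorem count1_pow {D : Dr k Λ} {a : Λ} (h : D a = 0) (r : ℕ) : dP D ((X - C a) ^ r) = 0 := by
  have h1 : dP D (X - C a) = 0 := by
    ext j
    simp [dP_coeff, coeff_X, coeff_C, apply_ite D, h]
  rw [Derivation.leibniz_pow, h1, smul_zero, smul_zero]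

/-- For `c ≠ 0` in `s` with `0 < m c` let `κ c` be the content and `W` the curve of `tail`. If
`Ann k (cfs f) ≤ Ann k {c}` the cost of `c` is `0 ≤ κ c - 1`. Otherwise `f c` is generic
(`Gn.root`), `W` is free (`Par.gn`, `Gn.free`), `2 ≤ κ c` (`Curve.two`), and the cost is `1`
(`cod_one`). Sum with `cod_sum` over the `c` with `0 < m c`; a derivation that kills the
coefficients of `f` and these `c` kills the coefficients of `rd red F` (`Vx.fac`, `mem_ann_cfs`). -/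
theorem side [DecidableEq Λ] (hV : SmoothVar I) (hn : Dim I n k) (hl : Low I n Λ 1) (hr : Res red)
    (h : TP K I n F π) {f : V Λ[X] N} {e' p' : ℕ} {s : Finset Λ} {m m' : Λ → ℕ}
    (hv : Vx I n (rd red F) (rd red π) e p f e' p' s m m') (hg : Gn I (ev e' none f)) :
    ∃ c : ℤ, Cod (Ann k (cfs f)) (Ann k (cfs (rd red F))) c ∧
      (c + 1 ≤ ∑ a ∈ s.erase 0, (((n : ℤ) + 1) * m a - m' a) ∨
        (c = 0 ∧ 0 ≤ ∑ a ∈ s.erase 0, (((n : ℤ) + 1) * m a - m' a) ∧ ∀ a ∈ s.erase 0, m a = 0)) := by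
  have key : ∀ a, 0 ≤ ((n : ℤ) + 1) * m a - m' a ∧
      (0 < m a → Cod (Ann k (cfs f)) (Ann k {a}) (((n : ℤ) + 1) * m a - m' a - 1)) := fun a => by
    obtain ⟨y, z, o1, hp, o2⟩ := hv.ord a
    obtain ⟨t1, t2⟩ := tail hV hn hl hr h o1 o2
    refine ⟨t1, fun h0 => ?_⟩
    obtain ⟨e, W, d, hW, pW, hd⟩ := t2 (Nat.add_pos_left h0 _)
    by_cases hA : Ann k (cfs f) ≤ Ann k {a}
    · exact (cod_zero hA).mono (by linarith [hl e W d hW])
    · exact (cod_one _ a).mono (by linarith [hW.two hV hn (Gn.free hV hn hW.map (Or.inl rfl)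
        (pW.gn hV (hp.symm.gn hV (Gn.root hV hn hv.map hg hA))))])
  refine ⟨_, (cod_sum ((s.erase 0).filter fun a => 0 < m a) _ _ fun a ha =>
    (key a).2 (Finset.mem_filter.1 ha).2).weak le_rfl fun D ⟨h1, h2⟩ => mem_ann_cfs.2 fun i => ?_, ?_⟩
  · have h3 : dP D (∏ b ∈ s, (X - C b) ^ m b) = 0 := by
      refine Finset.prod_induction _ (fun g => dP D g = 0) (fun a b ha hb => by simp [ha, hb])
        (by simp) fun a ha => ?_
      rcases Nat.eq_zero_or_pos (m a) with h0 | h0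
      · simp [h0]
      · refine count1_pow ?_ _
        rcases eq_or_ne a 0 with rfl | h4
        · exact map_zero D
        · exact (Submodule.mem_iInf _).1 ((Submodule.mem_iInf _).1 h2 a)
            (Finset.mem_filter.2 ⟨Finset.mem_erase.2 ⟨h4, ha⟩, h0⟩) a rfl
    simp [hv.fac i, h3, mem_ann_cfs.1 h1 i]
  · by_cases h0 : ∀ a ∈ s.erase 0, m a = 0
    · exact Or.inr ⟨Finset.sum_eq_zero fun a ha => absurd (h0 a (Finset.mem_filter.1 ha).1)
        (Finset.mem_filter.1 ha).2.ne', Finset.sum_nonneg fun a _ => (key a).1, h0⟩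
    · push Not at h0
      obtain ⟨a, ha, h1⟩ := h0
      rw [Finset.sum_filter]
      refine Or.inl (Int.add_one_le_iff.2 (Finset.sum_lt_sum (fun a _ => ?_)
        ⟨a, ha, by rw [if_pos (Nat.pos_of_ne_zero h1)]; exact sub_one_lt _⟩))
      split_ifs
      exacts [(sub_one_lt _).le, (key a).1]

/-- The form of `chain_end` for a chain with slack. `Chain.snoc`; if the chain is trivial then
`St k y = St k x` and `Cod ⊤ (B ⊓ St k x) (d' + n + c)`. -/
theorem chain_slack (hV : SmoothVar I) (hn : Dim I n k) (hb : 1 ≤ b) (hl : Low I n Λ b)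
    {A B : Submodule Λ (Dr k Λ)} {d' c κ ε : ℤ} {x y : V Λ N} (h1 : Cod ⊤ A (d' + n))
    (h2 : Cod (St k y) A d') (h3 : A ≤ St k y) (h4 : Cod A B c)
    (h5 : ¬Cod ⊤ (B ⊓ St k x) (d' + n + c + κ - 2)) (hx : Gn I x) (hc : Chain I n y x ε)
    (hκ : ε + 1 ≤ κ) (h6 : 2 ≤ κ ∨ 0 < ε ∨ ¬Par y x) : NkO I n Λ b := by
  rcases hc.snoc with ⟨rfl, hp⟩ | ⟨y₂, ε', e, R, d, c1, hR, p1, p2, rfl⟩
  · have h7 : 2 ≤ κ := h6.elim id fun h => h.elim (fun h => absurd h (lt_irrefl _)) fun h => (h hp).elim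
    refine (h5 (Cod.mono ((h1.step h4 inf_le_right).weak le_rfl fun D hD => ?_) (by linarith))).elim
    exact ⟨hD.2.2, st_par (k := k) hp ▸ h3 hD.2.1⟩
  · exact chain_end hV hn hb hl h1 h2 h3 h4 h5 hx c1 hR p1 p2 (by linarith) (Or.inr hκ)

/-- The form of `chain_end` for a chain with at least two curves: `Chain.snoc` for `hc`, then
`Chain.cons`. -/
theorem chain_long (hV : SmoothVar I) (hn : Dim I n k) (hb : 1 ≤ b) (hl : Low I n Λ b)
    {A B : Submodule Λ (Dr k Λ)} {d' c κ ε : ℤ} {x y : V Λ N} (h1 : Cod ⊤ A (d' + n))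
    (h2 : Cod (St k y) A d') (h3 : A ≤ St k y) (h4 : Cod A B c)
    (h5 : ¬Cod ⊤ (B ⊓ St k x) (d' + n + c + κ - 2)) (hx : Gn I x) {W : V Λ[X] N}
    (hW : Curve I n e W d) (hp : Par y (ev e none W)) (hc : Chain I n (ev e (some 0) W) x ε)
    (hε : 0 < ε) (hκ : d + ε ≤ κ) : NkO I n Λ b := by
  rcases hc.snoc with ⟨rfl, -⟩ | ⟨y₂, ε', e₂, R, d₂, c1, hR, p1, p2, rfl⟩
  · exact absurd hε (lt_irrefl _)
  · exact chain_end hV hn hb hl h1 h2 h3 h4 h5 hx (Chain.cons hW hp c1) hR p1 p2 (by linarith)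
      (Or.inl (by linarith [hl e W d hW, c1.nonneg fun e F d h => hb.trans (hl e F d h)]))

/-- `top_pi`, `vertex` give the main curve `f` of degrees `e'`, `d'`; it is free (`Vx.top`,
`Gn.free`), `cod_cfs`, `ann_le_st`, `side`. Put `μ = m 0 > 0` (as `red l = 0`), `κ₀` the content of
`0`, `τ` the sum of `side`, `κ = κ₀ + τ - c`, so `d = d' + c + κ` (`Vx.sum`); `y = f 0`
(`st_par`, `Chain.par_left`). If `Par y (red ∘ x)` then `y` is generic and `2 ≤ κ₀` (`tail`,
`Gn.free`, `Curve.two`). Apply `path`: third case `chain_long`, second case `chain_slack`. In the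
first case `rd red H` is a chain with one curve; if `c + 1 ≤ τ` use `chain_slack`. Otherwise
`rd red F i = X ^ μ * f i`, `e = e' + μ`; for `0 < e'` this is `Two`; for `e' = 0` one has `d' = 0`
and `Cod ⊤ (B ⊓ St k (red ∘ x)) (n + 0 + n)` (`cod_st`; `On I x` from `l ≠ 0`), against `hc` and
`hd`. -/
theorem count (hV : SmoothVar I) (hn : Dim I n k) (hb : 1 ≤ b) (hl : Low I n Λ b) (hr : Res red)
    (h : TP K I n F π) (h1 : ∀ i, (F i).natDegree ≤ e) (h2 : ∀ S, (π S).natDegree ≤ p)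
    {i₀ : Fin (N + 1)} (h3 : (F i₀).coeff e = 1) (h4 : ∃ S, (π S).coeff p ≠ 0)
    (h5 : rd red π ≠ 0) (hg : Gn I (ev e none (rd red F))) {l : O} {x : V O N}
    (hx : ∀ i, (F i).coeff 0 = l * x i) (hl0 : red l = 0) (hx0 : red ∘ x ≠ 0)
    (hgx : Gn I (red ∘ x)) (hp : d = (n + 1) * e - p) (hd : (n : ℤ) + 2 ≤ d)
    (hc : ¬Cod ⊤ (Ann k (cfs (rd red F)) ⊓ St k (red ∘ x)) (d + n - 2)) :
    Two red I n e F d ∨ NkO I n Λ b := by
  classical
  have hl1 : Low I n Λ 1 := fun e F d h => hb.trans (hl e F d h)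
  have g1 : (rd red F i₀).coeff e = 1 := by rw [rd, coeff_map, h3, map_one]
  have g0 : ∃ i, (rd red F i).coeff e ≠ 0 := ⟨i₀, g1 ▸ one_ne_zero⟩
  obtain ⟨f, e', p', s, m, m', hv⟩ := vertex hV hn (h.resid red).1 (h.resid red).2
    (fun i => natDegree_map_le.trans (h1 i)) (fun S => natDegree_map_le.trans (h2 S)) g0
    (top_pi hV hn hl1 hr h h1 h2 g0 h4 h5)
  have hgf : Gn I (ev e' none f) := (funext hv.top : ev e' none f = ev e none (rd red F)) ▸ hg
  have hf := hgf.free hV hn hv.map (.inl rfl)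
  obtain ⟨c1, c2⟩ := cod_cfs hV hn hv.map hf hv.deg ((hv.top i₀).trans g1)
  have c3 := ann_le_st (k := k) (e := e') f
  obtain ⟨c, c4, hτ⟩ := side hV hn hl1 hr h hv hgf
  obtain ⟨y, z, o1, py, o2⟩ := hv.ord 0
  rw [← st_par py] at c2 c3
  have hμ : 0 < m 0 := Nat.pos_of_ne_zero fun h0 => o1.1 (funext fun i => by
    rw [← (ord_zero_iff.1 o1).2.2 i, h0, rd, coeff_map, hx, map_mul]
    exact (congrArg (· * _) hl0).trans (zero_mul _))
  have hs := hv.sum
  generalize ∑ a ∈ s.erase 0, (((n : ℤ) + 1) * m a - m' a) = τ at hτ hs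
  have hτ' : c ≤ τ := by omega
  have c5 : ¬Cod ⊤ (Ann k (cfs (rd red F)) ⊓ St k (red ∘ x))
      ((n + 1) * e' - p' + n + c + (((n : ℤ) + 1) * m 0 - m' 0 + τ - c) - 2) :=
    fun h => hc (h.mono (by omega))
  rcases path hV hn hl1 hr h hx hx0 o1 o2 hμ with ⟨σ, H, dH, s0, s1, s2, hH, p1, p2, hdH⟩ |
    ⟨ε, hε, h6⟩ | ⟨e₁, W, d₁, ε, hW, p1, hε, h6, h7⟩
  · have hch : Chain I n y (red ∘ x) (dH + 0) := .cons hH p1 (.nil p2)
    have hpos := hl1 _ _ _ hH
    rcases hτ with hτ | ⟨rfl, -, hm⟩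
    · exact .inr (chain_slack hV hn hb hl c1 c2 c3 c4 c5 hgx hch (by omega) (.inr (.inl (by omega))))
    have he : e' + m 0 = e := by
      rw [hv.mu, ← Finset.add_sum_erase s m hv.mem, Finset.sum_eq_zero hm, add_zero]
    rcases Nat.eq_zero_or_pos e' with h0 | h0
    · have h7 := hv.zero h0
      have c6 := cod_st (k := k) hV.toCone hn hx0 (p2.on hV.toCone (On.val hV hH.map _))
      refine absurd ((((c1.step c4 inf_le_right).step c6 le_top).weak le_rfl ?_).mono ?_) hc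
      · exact inf_le_right.trans (inf_le_inf_right _ inf_le_right)
      · subst h0 h7
        simp only [Nat.cast_zero, mul_zero, sub_zero, zero_add, add_zero]
        omega
    · refine .inl ⟨e', m 0, _, dH, f, σ, H, he, by omega, s0, s1, ⟨h0, hv.map, hv.deg⟩, hf, hH,
        (p2.symm.gn hV.toCone hgx).free hV hn hH.map (.inr rfl), fun i => ?_, s2⟩
      rw [hv.fac i, ← Finset.mul_prod_erase s _ hv.mem,
        Finset.prod_eq_one fun a ha => by rw [hm a ha, pow_zero]]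
      simp
  · refine .inr (chain_slack hV hn hb hl c1 c2 c3 c4 c5 hgx hε (by omega) ?_)
    by_cases hy : Par y (red ∘ x)
    · obtain ⟨e₁, W, d₁, hW, p1, h7⟩ := (tail hV hn hl1 hr h o1 o2).2 (by omega)
      have := hW.two hV hn ((p1.gn hV.toCone (hy.symm.gn hV.toCone hgx)).free hV hn hW.map (.inl rfl))
      exact .inl (by omega)
    · exact .inr (.inr hy)
  · exact .inr (chain_long hV hn hb hl c1 c2 c3 c4 c5 hgx hW p1 hε h6 (by omega))

end

end Pool.Agent.Lib.MP_41050a_ag.NK
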