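import Pool.Agent.Lib.MP_41050a_ag.NK.Cod

/-! Derivations and transcendence. -/

namespace Pool.Agent.Lib.MP_41050a_ag.NK

open Polynomial Module

set_option linter.unusedSectionVars false

noncomputable section

variable {k : Type} [Field k] [IsAlgClosed k] [CharZero k] {N n : ℕ} {I : Ideal (Pk k N)}
  {Λ : Type} [Field Λ] [Algebra k Λ]

theorem der1_nil :
    IsNilpotent (RingHom.ker (TrivSqZeroExt.fstHom Λ Λ Λ : DualNumber Λ →+* Λ)) := by
  refine ⟨2, ?_⟩
  rw [Submodule.pow_succ, Submodule.pow_one, Ideal.zero_eq_bot, eq_bot_iff, Ideal.mul_le]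
  intro r hr s hs
  have hr' : r.fst = 0 := hr
  have hs' : s.fst = 0 := hs
  rw [Ideal.mem_bot]
  ext
  · rw [TrivSqZeroExt.fst_mul, hr', zero_mul, TrivSqZeroExt.fst_zero]
  · rw [DualNumber.snd_mul, hr', hs', zero_mul, mul_zero, add_zero, TrivSqZeroExt.snd_zero]

theorem der1_lift {A : Type} [CommRing A] [Algebra A Λ] [Algebra.FormallySmooth A Λ]
    (g : A →+* DualNumber Λ) (e : ∀ a, (g a).fst = algebraMap A Λ a) :
    ∃ G : Λ →+* DualNumber Λ, (∀ x, (G x).fst = x) ∧ ∀ a, G (algebraMap A Λ a) = g a := by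
  have key : ∀ {B : Type} [CommRing B] (g : A →+* B) (π : B →+* Λ), Function.Surjective π →
      IsNilpotent (RingHom.ker π) → (∀ a, π (g a) = algebraMap A Λ a) →
      ∃ G : Λ →+* B, (∀ x, π (G x) = x) ∧ ∀ a, G (algebraMap A Λ a) = g a := by
    intro B _ g π hπ hn e
    let _ := g.toAlgebra
    let p : B →ₐ[A] Λ := ⟨π, e⟩
    let G := Algebra.FormallySmooth.liftOfSurjective (AlgHom.id A Λ) p hπ hn
    exact ⟨G.toRingHom, fun x => Algebra.FormallySmooth.liftOfSurjective_apply _ p hπ hn x,
      fun a => G.commutes a⟩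
  exact key g (TrivSqZeroExt.fstHom Λ Λ Λ : DualNumber Λ →+* Λ)
    (fun x => ⟨TrivSqZeroExt.inl x, rfl⟩) der1_nil e

theorem der1_smooth {A : Type} [CommRing A] [Algebra k A] (ι : A →ₐ[k] Λ)
    (hι : Function.Injective ι) :
    @Algebra.FormallySmooth A Λ _ _ ι.toRingHom.toAlgebra := by
  let _ := ι.toRingHom.toAlgebra
  have : FaithfulSMul A Λ := (faithfulSMul_iff_algebraMap_injective A Λ).2 hι
  have : IsDomain A := hι.isDomain ι
  let _ := FractionRing.liftAlgebra A Λ
  have : CharZero A := charZero_of_injective_algebraMap (algebraMap k A).injective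
  obtain ⟨s, hs⟩ := exists_isTranscendenceBasis (FractionRing A) Λ
  have := hs.isAlgebraic_field
  have : Algebra.FormallySmooth (FractionRing A) Λ := .of_algebraicIndependent_of_isSeparable hs.1
  have : Algebra.FormallySmooth A (FractionRing A) := .of_isLocalization (nonZeroDivisors _)
  exact .comp _ (FractionRing A) _

/-- `a ↦ ι a + ε d a` is a map `A → DualNumber Λ`; extend it to the field of fractions `L` of the
image (`IsFractionRing.lift` or `IsLocalization.lift`), then to `Λ`: `Λ` is formally smooth over `L`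
(`exists_isTranscendenceBasis`, `Algebra.FormallySmooth.of_algebraicIndependent_of_isSeparable`,
characteristic zero), make `DualNumber Λ` an `L`-algebra by the map above and lift the identity
(`Algebra.FormallySmooth.exists_lift` or `liftOfSurjective`). -/
theorem exists_der_ext {A : Type} [CommRing A] [Algebra k A] (ι : A →ₐ[k] Λ)
    (hι : Function.Injective ι) (d : A →ₗ[k] Λ) (hd : ∀ a b, d (a * b) = ι a * d b + ι b * d a) :
    ∃ D : Dr k Λ, ∀ a, D (ι a) = d a := by
  have h1 : d 1 = 0 := by simpa using hd 1 1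
  let g : A →+* DualNumber Λ :=
    { toFun := fun a => ⟨ι a, d a⟩
      map_one' := TrivSqZeroExt.ext (map_one ι) h1
      map_mul' := fun a b => TrivSqZeroExt.ext (map_mul ι a b) (by
        rw [DualNumber.snd_mul]
        exact (hd a b).trans (by rw [mul_comm (ι b)]; rfl))
      map_zero' := TrivSqZeroExt.ext (map_zero ι) (map_zero d)
      map_add' := fun a b => TrivSqZeroExt.ext (map_add ι a b) (map_add d a b) }
  let _ := ι.toRingHom.toAlgebra
  have := der1_smooth ι hι
  obtain ⟨G, h2, h3⟩ := der1_lift g fun _ => rfl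
  have h4 : ∀ a, (G (ι a)).snd = d a := fun a => congrArg TrivSqZeroExt.snd (h3 a)
  refine ⟨Derivation.mk' ⟨⟨fun x => (G x).snd, fun x y => ?_⟩, fun c x => ?_⟩ fun x y => ?_, h4⟩
  · rw [map_add, TrivSqZeroExt.snd_add]
  · change (G (c • x)).snd = c • (G x).snd
    rw [Algebra.smul_def, Algebra.smul_def, map_mul, DualNumber.snd_mul, h2, ← ι.commutes, h4,
      Algebra.algebraMap_eq_smul_one, map_smul d, h1, smul_zero, zero_mul, add_zero]
  · change (G (x * y)).snd = x • (G y).snd + y • (G x).snd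
    rw [map_mul, DualNumber.snd_mul, h2, h2, smul_eq_mul, smul_eq_mul, mul_comm y]

/-- `exists_der_ext` for `A = MvPolynomial (Fin r) k`, `ι = aeval t`, `d = ι ∘ pderiv l`. -/
theorem exists_dual {r : ℕ} {t : Fin r → Λ} (ht : AlgebraicIndependent k t) :
    ∃ D : Fin r → Dr k Λ, ∀ l l', D l (t l') = if l = l' then 1 else 0 := by
  have h : ∀ l, ∃ D : Dr k Λ, ∀ a, D (MvPolynomial.aeval t a) =
      MvPolynomial.aeval t (MvPolynomial.pderiv l a) := fun l =>
    exists_der_ext (MvPolynomial.aeval t) ht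
      ((MvPolynomial.aeval t).toLinearMap ∘ₗ (MvPolynomial.pderiv l).toLinearMap) fun a b => by
      simp
  choose D hD using h
  refine ⟨D, fun l l' => ?_⟩
  have := hD l (MvPolynomial.X l')
  rw [MvPolynomial.aeval_X, MvPolynomial.pderiv_X, Pi.single_apply] at this
  rw [this]
  by_cases e : l = l' <;> simp [e, eq_comm]

theorem ann_mono {S T : Set Λ} (h : S ⊆ T) : Ann k T ≤ Ann k S := by
  intro D hD a ha
  exact hD a (h ha)

theorem ann_union (S T : Set Λ) : Ann k (S ∪ T) = Ann k S ⊓ Ann k T := by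
  ext D
  exact ⟨fun h => ⟨fun a ha => h a (Or.inl ha), fun a ha => h a (Or.inr ha)⟩,
    fun h a ha => ha.elim (h.1 a) (h.2 a)⟩

theorem ann_adjoin (S : Set Λ) : Ann k S ≤ Ann k (IntermediateField.adjoin k S : Set Λ) := by
  intro D hD a ha
  induction ha using IntermediateField.adjoin_induction with
  | mem x hx => exact hD x hx
  | algebraMap x => exact D.map_algebraMap x
  | add x y _ _ hx hy => rw [map_add, hx, hy, add_zero]
  | inv x _ hx => rw [D.leibniz_inv, hx, smul_zero]
  | mul x y _ _ hx hy => rw [D.leibniz, hx, hy, smul_zero, smul_zero, add_zero]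

/-- Take a non-zero polynomial of least degree over `Algebra.adjoin k S` that kills `a` and apply
`D` (`Derivation.apply_aeval_eq` or `dP`). -/
theorem ann_alg {S : Set Λ} {D : Dr k Λ} (hD : D ∈ Ann k S) {a : Λ}
    (ha : IsAlgebraic (Algebra.adjoin k S) a) : D a = 0 := by
  set L := IntermediateField.adjoin k S
  have hL : ∀ c : L, D (algebraMap L Λ c) = 0 := fun c => ann_adjoin S hD c c.2
  have key : ∀ p : L[X], D (aeval a p) = aeval a (derivative p) * D a := by
    intro p
    induction p using Polynomial.induction_on' with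
    | add p q hp hq => simp only [map_add, hp, hq, add_mul]
    | monomial m c =>
      simp only [aeval_monomial, D.leibniz, D.leibniz_pow, derivative_monomial, map_mul,
        map_natCast, hL, smul_eq_mul, nsmul_eq_mul]
      ring
  have ha' : IsIntegral L a := by
    obtain ⟨p, hp, hpa⟩ := ha
    let f := (Subalgebra.inclusion (IntermediateField.algebra_adjoin_le_adjoin k S)).toRingHom
    refine IsAlgebraic.isIntegral ⟨p.map f, ?_, ?_⟩
    · exact (Polynomial.map_ne_zero_iff (Subalgebra.inclusion_injective _)).2 hp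
    · rw [aeval_def, eval₂_map]
      exact hpa
  have : CharZero L := algebraRat.charZero L
  have hs := (minpoly.irreducible ha').separable
  have h0 := key (minpoly L a)
  rw [minpoly.aeval, map_zero] at h0
  exact (mul_eq_zero.1 h0.symm).resolve_left (hs.aeval_derivative_ne_zero (minpoly.aeval L a))

theorem Ind.not_cod {S T : Set Λ} {c : ℕ} (h : Ind k T c)
    (hT : T ⊆ IntermediateField.adjoin k S) : ¬Cod ⊤ (Ann k S) ((c : ℤ) - 1) := by
  obtain ⟨t, ht, htT⟩ := h
  obtain ⟨D, hD⟩ := exists_dual ht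
  refine NK.not_cod D (fun _ => trivial) fun w hw => _root_.funext fun l => ?_
  let φ : Dr k Λ →ₗ[Λ] Λ := ⟨⟨fun E => E (t l), fun _ _ => rfl⟩, fun _ _ => rfl⟩
  have h0 : φ _ = 0 := ann_adjoin S hw (t l) (hT (htT l))
  rw [map_sum] at h0
  simpa [φ, hD] using h0

/-- Let `B ⊆ S` be a maximal algebraically independent subset (a basis of `S` in
`AlgebraicIndependent.matroid k Λ`). If it had less than `c` elements, `D ↦ (D b)` would show
`Cod`. -/
theorem ind_of_not_cod {S : Set Λ} {c : ℕ} (h : ¬Cod ⊤ (Ann k S) ((c : ℤ) - 1)) : Ind k S c := by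
  obtain ⟨B, hB⟩ := (AlgebraicIndependent.matroid k Λ).exists_isBasis S
  have hi : AlgebraicIndependent k ((↑) : B → Λ) := hB.indep
  by_contra hc
  have hlt : ∀ f : Fin c → B, ¬Function.Injective f := fun f hf =>
    hc ⟨_, hi.comp f hf, fun l => hB.subset (f l).2⟩
  have : Finite B := by
    by_contra hf
    have := not_finite_iff_infinite.1 hf
    exact hlt _ ((Infinite.natEmbedding B).injective.comp Fin.val_injective)
  obtain ⟨r, ⟨e⟩⟩ := Finite.exists_equiv_fin B
  have hr : r < c := by
    by_contra hr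
    exact hlt _ (e.symm.injective.comp (Fin.castLE_injective (not_lt.1 hr)))
  refine h ⟨r, ⟨⟨fun D l => D (e.symm l), fun _ _ => rfl⟩, fun _ _ => rfl⟩, by omega,
    fun D _ hD a ha => ann_alg (S := B) (fun b hb => ?_)
      ((AlgebraicIndependent.matroid_isBasis_iff.1 hB).2.2 a ha)⟩
  simpa using congrFun hD (e ⟨b, hb⟩)

theorem st_eq (x : V Λ N) : St k x = Ann k (rat x) := by
  ext D
  rw [mem_St, mem_Ann]
  constructor
  · rintro ⟨c, h⟩ a ⟨i, j, rfl⟩
    by_cases hj : x j = 0
    · simp [hj]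
    · have h1 := D.leibniz (x i / x j) (x j)
      rw [div_mul_cancel₀ _ hj, h, h, smul_eq_mul, smul_eq_mul, mul_left_comm,
        div_mul_cancel₀ _ hj, left_eq_add] at h1
      exact (mul_eq_zero.1 h1).resolve_left hj
  · intro h
    by_cases hx : ∀ j, x j = 0
    · exact ⟨0, fun i => by simp [hx]⟩
    · obtain ⟨j, hj⟩ := not_forall.1 hx
      refine ⟨D (x j) / x j, fun i => ?_⟩
      have h1 := D.leibniz (x i / x j) (x j)
      rw [div_mul_cancel₀ _ hj, h _ ⟨i, j, rfl⟩, smul_zero, add_zero, smul_eq_mul] at h1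
      rw [h1]
      ring

theorem st_norm {x : V Λ N} {i : Fin (N + 1)} (h : x i = 1) : St k x = Ann k (Set.range x) := by
  ext D
  rw [mem_St, mem_Ann]
  constructor
  · rintro ⟨c, hc⟩ a ⟨j, rfl⟩
    have h1 := hc i
    rw [h, mul_one, D.map_one_eq_zero] at h1
    rw [hc, ← h1, zero_mul]
  · exact fun hc => ⟨0, fun j => by rw [hc _ ⟨j, rfl⟩, zero_mul]⟩

theorem st_par {x y : V Λ N} (h : Par x y) : St k x = St k y := by
  obtain ⟨c, hc, rfl⟩ := h
  rw [st_eq, st_eq]
  congr 1
  ext a
  simp only [rat, Set.mem_ofPred_eq, Pi.smul_apply, smul_eq_mul, mul_div_mul_left _ _ hc]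

theorem cod_one (U : Submodule Λ (Dr k Λ)) (a : Λ) : Cod U (Ann k {a}) 1 := by
  refine ⟨1, ⟨⟨fun D _ => D a, fun D D' => ?_⟩, fun c D => ?_⟩, le_rfl, fun D _ h b hb => ?_⟩
  · funext l
    simp
  · funext l
    simp
  · rw [Set.mem_singleton_iff.1 hb]
    exact congrFun h 0

end

end Pool.Agent.Lib.MP_41050a_ag.NK
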