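import Pool.Agent.Lib.MP_41050a_ag.NK.Base

/-! Tuples of polynomials without common zero. -/

namespace Pool.Agent.Lib.MP_41050a_ag.NK

open Polynomial Module

set_option linter.unusedSectionVars false

noncomputable section

variable {k : Type} [Field k] [IsAlgClosed k] [CharZero k] {N n : ℕ} {I : Ideal (Pk k N)}
  {Λ : Type} [Field Λ] [Algebra k Λ] {ι : Type} [Fintype ι] {e e' : ℕ} {T T' : ι → Λ[X]}

/-- The ideal generated by the entries is principal, its generator has no root. -/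
theorem Bp.bez [IsAlgClosed Λ] (h : Bp e T) : ∃ u : ι → Λ[X], ∑ i, u i * T i = 1 := by
  obtain ⟨g, hg⟩ := (IsPrincipalIdealRing.principal (Ideal.span (Set.range T))).principal
  have hd (i : ι) : g ∣ T i := by
    have : T i ∈ Ideal.span (Set.range T) := Ideal.subset_span ⟨i, rfl⟩
    rw [hg] at this
    exact Ideal.mem_span_singleton.1 this
  have hu : IsUnit g := by
    rw [isUnit_iff_degree_eq_zero]
    by_contra h0
    obtain ⟨a, ha⟩ := IsAlgClosed.exists_root g h0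
    obtain ⟨i, hi⟩ := h.bpf (some a)
    exact hi (ha.dvd (hd i))
  refine Ideal.mem_span_range_iff_exists_fun.1 ?_
  rw [hg]
  exact Ideal.mem_span_singleton.2 hu.dvd

theorem bp_of_bez (hd : ∀ i, (T i).natDegree ≤ e) (h0 : ∃ i, (T i).coeff e ≠ 0) {u : ι → Λ[X]}
    (hu : ∑ i, u i * T i = 1) : Bp e T := by
  refine ⟨hd, fun p => ?_⟩
  cases p with
  | none => exact h0
  | some a =>
    by_contra hc
    have hz (i : ι) : (T i).eval a = 0 := not_not.1 fun hi => hc ⟨i, hi⟩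
    have := congrArg (eval a) hu
    simp [eval_finsetSum, hz] at this

theorem prim1_le [IsAlgClosed Λ] (h : Bp e T) (h' : Bp e' T') {u v : Λ[X]} (hu : u ≠ 0) (hv : v ≠ 0)
    (huv : ∀ i, v * T' i = u * T i) : e ≤ e' := by
  obtain ⟨i, hi⟩ := h.bpf none
  have hi' : (T i).coeff e ≠ 0 := hi
  have h0 : T i ≠ 0 := fun h0 => hi' (by simp [h0])
  have h1 : T' i ≠ 0 := fun h1 => mul_ne_zero hu h0 (by rw [← huv, h1, mul_zero])
  have h2 := congrArg natDegree (huv i)
  rw [natDegree_mul hv h1, natDegree_mul hu h0] at h2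
  have h3 := le_natDegree_of_ne_zero hi'
  have h4 := h'.deg i
  obtain ⟨w', hw'⟩ := h.bez
  have hd' : v ∣ u := ⟨∑ i, w' i * T' i, by
    rw [Finset.mul_sum]
    simp only [mul_left_comm v, huv, mul_left_comm _ u, ← Finset.mul_sum, hw', mul_one]⟩
  have h5 := natDegree_le_of_dvd hd' hu
  omega

/-- By `Bp.bez`, `u ∣ v` and `v ∣ u`, so the degrees of `u` and `v` agree. -/
theorem Bp.uniq [IsAlgClosed Λ] (h : Bp e T) (h' : Bp e' T') {u v : Λ[X]} (hu : u ≠ 0) (hv : v ≠ 0)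
    (huv : ∀ i, v * T' i = u * T i) : e = e' := by
  exact le_antisymm (prim1_le h h' hu hv huv) (prim1_le h' h hv hu fun i => (huv i).symm)

theorem Bp.ext [IsAlgClosed Λ] (h : Bp e T) {E : Type} [Field E] (φ : Λ →+* E) :
    Bp e fun i => (T i).map φ := by
  obtain ⟨u, hu⟩ := h.bez
  obtain ⟨i, hi⟩ := h.bpf none
  refine bp_of_bez (u := fun i => (u i).map φ) (fun i => natDegree_map_le.trans (h.deg i))
    ⟨i, by rw [coeff_map]; exact (map_ne_zero φ).2 hi⟩ ?_
  have := congrArg (Polynomial.map φ) hu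
  simpa [Polynomial.map_sum] using this

theorem cfs_finite (T : ι → Λ[X]) : (cfs T).Finite := by
  refine ((Set.finite_iUnion fun i => (T i).coeffs.finite_toSet).insert 0).subset ?_
  rintro a ⟨i, j, rfl⟩
  by_cases h : (T i).coeff j = 0
  · exact Or.inl h
  · exact Or.inr (Set.mem_iUnion.2 ⟨i, coeff_mem_coeffs h⟩)

/-- `Polynomial.lifts`, or `Polynomial.toSubring`. -/
theorem lift_poly (A : Subalgebra k Λ) (h : cfs T ⊆ A) :
    ∃ T' : ι → A[X], ∀ i, (T' i).map (A.val : A →+* Λ) = T i := by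
  have (i : ι) : ∃ q : A[X], q.map (A.val : A →+* Λ) = T i :=
    (mem_lifts _).1 ((lifts_iff_coeff_lifts _).2 fun j => ⟨⟨_, h ⟨i, j, rfl⟩⟩, rfl⟩)
  choose T' hT using this
  exact ⟨T', hT⟩

/-- `s` consists of the coefficients of a Bezout identity and the inverse of a top coefficient. -/
theorem Bp.spread [IsAlgClosed Λ] (h : Bp e T) : ∃ s : Set Λ, s.Finite ∧
    ∀ A : Subalgebra k Λ, s ⊆ A → ∀ (φ : A →ₐ[k] k) (T' : ι → A[X]),
      (∀ i, (T' i).map (A.val : A →+* Λ) = T i) → Bp e fun i => (T' i).map (φ : A →+* k) := by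
  obtain ⟨u, hu⟩ := h.bez
  obtain ⟨i, hi⟩ := h.bpf none
  have hi' : (T i).coeff e ≠ 0 := hi
  refine ⟨insert ((T i).coeff e)⁻¹ (cfs u), (cfs_finite u).insert _, fun A hA φ T' hT => ?_⟩
  obtain ⟨u', hu'⟩ := lift_poly (k := k) A ((Set.subset_insert _ _).trans hA)
  have inj : Function.Injective (A.val : A →+* Λ) := Subtype.val_injective
  have h1 : ∑ i, u' i * T' i = 1 := map_injective _ inj (by
    simp only [Polynomial.map_sum, Polynomial.map_mul, hu', hT, hu, Polynomial.map_one])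
  have h2 : (T' i).coeff e * ⟨_, hA (Set.mem_insert _ _)⟩ = 1 := inj (by
    rw [map_mul, map_one, ← coeff_map, hT]
    exact mul_inv_cancel₀ hi')
  refine bp_of_bez (u := fun i => (u' i).map (φ : A →+* k)) (fun j => natDegree_map_le.trans ?_)
    ⟨i, ?_⟩ ?_
  · rw [← natDegree_map_eq_of_injective inj, hT]
    exact h.deg j
  · rw [coeff_map]
    exact left_ne_zero_of_mul_eq_one (by rw [← map_mul, h2, map_one])
  · have := congrArg (Polynomial.map (φ : A →+* k)) h1
    simpa only [Polynomial.map_sum, Polynomial.map_mul, Polynomial.map_one] using this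

theorem prim2_le {b : Λ} {μ μ' : ℕ} {y y' : ι → Λ} (h : Ord T b μ y) (h' : Ord T b μ' y') :
    μ ≤ μ' := by
  obtain ⟨-, U, h1, -⟩ := h
  obtain ⟨h0, U', h3, h4⟩ := h'
  by_contra! H
  obtain ⟨c, rfl⟩ := Nat.exists_eq_add_of_lt H
  refine h0 (funext fun i => ?_)
  have h5 := (h3 i).symm.trans (h1 i)
  rw [add_assoc, pow_add, mul_assoc] at h5
  simp [← h4, mul_left_cancel₀ (pow_ne_zero _ (X_sub_C_ne_zero b)) h5]

theorem Ord.uniq {b : Λ} {μ μ' : ℕ} {y y' : ι → Λ} (h : Ord T b μ y) (h' : Ord T b μ' y') :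
    μ = μ' ∧ y = y' := by
  obtain rfl := le_antisymm (prim2_le h h') (prim2_le h' h)
  obtain ⟨-, U, h1, h2⟩ := h
  obtain ⟨-, U', h3, h4⟩ := h'
  refine ⟨rfl, funext fun i => ?_⟩
  rw [← h2, ← h4, mul_left_cancel₀ (pow_ne_zero _ (X_sub_C_ne_zero b)) ((h1 i).symm.trans (h3 i))]

theorem ord_zero_iff {μ : ℕ} {y : ι → Λ} : Ord T 0 μ y ↔
    y ≠ 0 ∧ (∀ i j, j < μ → (T i).coeff j = 0) ∧ ∀ i, (T i).coeff μ = y i := by
  have h1 : ∀ U : Λ[X], (X ^ μ * U).coeff μ = U.eval 0 := fun U => by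
    simpa [coeff_zero_eq_eval_zero] using coeff_X_pow_mul U μ 0
  simp only [Ord, C_0, sub_zero]
  refine and_congr_right fun _ => ⟨?_, fun ⟨h2, h3⟩ => ?_⟩
  · rintro ⟨U, h2, h3⟩
    exact ⟨fun i => X_pow_dvd_iff.1 ⟨_, h2 i⟩, fun i => by rw [h2, h1, h3]⟩
  · choose U hU using fun i => X_pow_dvd_iff.2 (h2 i)
    exact ⟨U, hU, fun i => by rw [← h3, hU, h1]⟩

theorem Ord.shift {b : Λ} {μ : ℕ} {y : ι → Λ} (h : Ord T b μ y) :
    Ord (fun i => (T i).comp (X + C b)) 0 μ y := by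
  obtain ⟨h0, U, h1, h2⟩ := h
  exact ⟨h0, fun i => (U i).comp (X + C b), fun i => by simp [h1], fun i => by simp [eval_comp, h2]⟩

theorem exists_ord (h : T ≠ 0) (b : Λ) : ∃ μ y, Ord T b μ y := by
  classical
  obtain ⟨i₀, h0, h1⟩ := (Finset.univ.filter fun i => T i ≠ 0).exists_min_image
    (fun i => (T i).rootMultiplicity b) (by simpa [Finset.Nonempty] using Function.ne_iff.1 h)
  simp only [Finset.mem_filter, Finset.mem_univ, true_and] at h0 h1
  have h2 : ∀ i, (X - C b) ^ (T i₀).rootMultiplicity b ∣ T i := fun i => by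
    by_cases hi : T i = 0
    · simp [hi]
    · exact (le_rootMultiplicity_iff hi).1 (h1 i hi)
  choose U hU using h2
  refine ⟨_, fun i => (U i).eval b, fun h3 => pow_rootMultiplicity_not_dvd h0 b ?_, U, hU,
    fun _ => rfl⟩
  rw [pow_succ]
  exact (mul_dvd_mul_left _ (dvd_iff_isRoot.2 (congrFun h3 i₀))).trans (hU i₀).symm.dvd

/-- `g` is the monic generator of the ideal of the entries; `m b = g.rootMultiplicity b`. The
conclusion holds for every finite set `s` that contains the roots of `g`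
(`Polynomial.prod_multiset_root_eq_finset_root`, `IsAlgClosed.splits`). -/
theorem exists_prim [IsAlgClosed Λ] {μ : ℕ} (hd : ∀ i, (T i).natDegree ≤ μ)
    (h0 : ∃ i, (T i).coeff μ ≠ 0) : ∃ (g : Λ[X]) (T' : ι → Λ[X]) (e : ℕ) (m : Λ → ℕ)
      (s₀ : Finset Λ), g.Monic ∧ (∀ i, T i = g * T' i) ∧ Bp e T' ∧
      (∀ i, (T' i).coeff e = (T i).coeff μ) ∧
      (∀ b, ∃ u : Λ, u ≠ 0 ∧ Ord T b (m b) (u • ev e (some b) T')) ∧
      ∀ s, s₀ ⊆ s → μ = e + ∑ b ∈ s, m b ∧ g = ∏ b ∈ s, (X - C b) ^ m b := by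
  classical
  obtain ⟨i₀, h0⟩ := h0
  obtain ⟨U, hU, h1⟩ := Finset.extract_gcd T ⟨i₀, Finset.mem_univ _⟩
  have hn := Finset.normalize_gcd (s := Finset.univ) (f := T)
  generalize Finset.univ.gcd T = g at hU hn
  replace hU := fun i => hU i (Finset.mem_univ i)
  have hT : T i₀ ≠ 0 := fun h => h0 (by simp [h])
  have hg0 : g ≠ 0 := left_ne_zero_of_mul (hU i₀ ▸ hT)
  have hg : g.Monic := hn ▸ monic_normalize hg0
  obtain ⟨e, rfl⟩ := Nat.exists_eq_add_of_le ((natDegree_le_of_dvd ⟨_, hU i₀⟩ hT).trans (hd i₀))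
  have h2 : ∀ i, (U i).natDegree ≤ e := fun i => by
    by_cases hi : U i = 0
    · simp [hi]
    · have := hd i
      rw [hU, natDegree_mul hg0 hi] at this
      omega
  have h3 : ∀ i, (U i).coeff e = (T i).coeff (g.natDegree + e) := fun i => by
    rw [hU, coeff_mul_add_eq_of_natDegree_le le_rfl (h2 i), hg.coeff_natDegree, one_mul]
  have h4 : ∀ a, ∃ i, (U i).eval a ≠ 0 := fun a => by
    by_contra! H
    exact not_isUnit_X_sub_C a (isUnit_of_dvd_one
      (h1 ▸ Finset.dvd_gcd fun i _ => dvd_iff_isRoot.2 (H i)))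
  refine ⟨g, U, e, fun b => g.rootMultiplicity b, g.roots.toFinset, hg, hU, ⟨h2, ?_⟩, h3,
    fun b => ?_, fun s hs => ?_⟩
  · rintro (_ | a)
    exacts [⟨i₀, (h3 i₀).trans_ne h0⟩, h4 a]
  · obtain ⟨q, h5, h6⟩ := exists_eq_pow_rootMultiplicity_mul_and_not_dvd g hg0 b
    rw [dvd_iff_isRoot] at h6
    refine ⟨q.eval b, h6, smul_ne_zero h6 (Function.ne_iff.2 (h4 b)), fun i => q * U i,
      fun i => ?_, fun i => eval_mul⟩
    rw [← mul_assoc, ← h5, hU]
  · have h5 : g = ∏ b ∈ s, (X - C b) ^ g.rootMultiplicity b := by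
      refine ((IsAlgClosed.splits g).eq_prod_roots_of_monic hg).trans
        (prod_multiset_root_eq_finset_root.trans (Finset.prod_subset hs fun b _ hb => ?_))
      rw [rootMultiplicity_eq_zero (by simpa [hg0] using hb), pow_zero]
    refine ⟨?_, h5⟩
    have h6 := congrArg natDegree h5
    rw [natDegree_prod_of_monic _ _ fun b _ => (monic_X_sub_C b).pow _] at h6
    simpa [add_comm] using h6

end

end Pool.Agent.Lib.MP_41050a_ag.NK
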