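import Pool.Agent.Lib.MP_41050a_ag.NK.Base

/-! Specialisation to the ground field. -/

namespace Pool.Agent.Lib.MP_41050a_ag.NK

open Polynomial Module

set_option linter.unusedSectionVars false

noncomputable section

variable {k : Type} [Field k] [IsAlgClosed k] [CharZero k] {N n : ℕ} {I : Ideal (Pk k N)}
  {Λ : Type} [Field Λ] [Algebra k Λ]

/-- `lift_point` for the zero ideal. -/
theorem exists_point {s : Set Λ} (hs : s.Finite) : Nonempty (Algebra.adjoin k s →ₐ[k] k) := by
  haveI : Algebra.FiniteType k (Algebra.adjoin k s) := .adjoin_of_finite hs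
  haveI : Nontrivial (Algebra.adjoin k s) := inferInstance
  obtain ⟨φ, -⟩ := lift_point (k := k) (A := Algebra.adjoin k s) (T := ⊥) bot_ne_top
  exact ⟨φ⟩

/-- Independence is witnessed by a one-sided inverse matrix, whose entries form `s`. -/
theorem spread_ind {ι κ : Type} [Fintype ι] [Fintype κ] {v : ι → κ → Λ}
    (h : LinearIndependent Λ v) : ∃ s : Set Λ, s.Finite ∧ ∀ A : Subalgebra k Λ, s ⊆ A →
      ∀ (φ : A →ₐ[k] k) (v' : ι → κ → A), (∀ i j, (v' i j : Λ) = v i j) →
        LinearIndependent k fun i j => φ (v' i j) := by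
  classical
  obtain ⟨g, hg⟩ := LinearMap.exists_leftInverse_of_injective (Fintype.linearCombination Λ v)
    (LinearMap.ker_eq_bot.2 (linearIndependent_iff_injective_fintypeLinearCombination.1 h))
  have hB : ∀ i i', ∑ j, v i j * g (Pi.single j 1) i' = if i = i' then 1 else 0 := by
    intro i i'
    have h1 : g (v i) = Pi.single i 1 := by
      simpa [Fintype.linearCombination_apply_single] using LinearMap.congr_fun hg (Pi.single i 1)
    have h2 := LinearMap.pi_apply_eq_sum_univ g (v i)
    have h3 := congrFun (h1.symm.trans h2) i'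
    rw [Pi.single_apply, Finset.sum_apply] at h3
    rw [if_congr eq_comm rfl rfl, h3]
    refine Finset.sum_congr rfl fun j _ => ?_
    have e : (Pi.single j 1 : κ → Λ) = fun l => if j = l then 1 else 0 :=
      funext fun l => by rw [Pi.single_apply, if_congr eq_comm rfl rfl]
    rw [Pi.smul_apply, smul_eq_mul, e]
  refine ⟨Set.range fun p : κ × ι => g (Pi.single p.1 1) p.2, Set.finite_range _,
    fun A hA φ v' hv => Fintype.linearIndependent_iff.2 fun c hc i' => ?_⟩
  let B : κ → A := fun j => ⟨g (Pi.single j 1) i', hA ⟨(j, i'), rfl⟩⟩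
  have h1 : ∀ i, ∑ j, φ (v' i j) * φ (B j) = if i = i' then 1 else 0 := by
    intro i
    have : ∑ j, v' i j * B j = if i = i' then 1 else 0 := by
      apply Subtype.val_injective
      have := hB i i'
      split_ifs at this ⊢ <;> simpa [B, hv] using this
    have h2 := congrArg φ this
    split_ifs at h2 ⊢ <;> simpa using h2
  have h2 : ∀ j, ∑ i, c i * φ (v' i j) = 0 := fun j => by simpa using congrFun hc j
  calc c i' = ∑ i, c i * ∑ j, φ (v' i j) * φ (B j) := by simp [h1]
    _ = ∑ j, (∑ i, c i * φ (v' i j)) * φ (B j) := by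
      simp only [Finset.mul_sum, Finset.sum_mul, mul_assoc]
      exact Finset.sum_comm
    _ = 0 := by simp [h2]

/-- The tangent space is the annihilator of the span of the gradients. -/
theorem tsp_rank {E : Type} [Field E] [Algebra k E] (x : V E N) :
    finrank E (tsp I x) + finrank E (Submodule.span E {w : V E N | ∃ Φ ∈ I,
      w = fun i => MvPolynomial.aeval x (MvPolynomial.pderiv i Φ)}) = N + 1 := by
  let B : LinearMap.BilinForm E (V E N) := dotProductBilin E E
  set W := Submodule.span E {w : V E N | ∃ Φ ∈ I,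
    w = fun i => MvPolynomial.aeval x (MvPolynomial.pderiv i Φ)} with hW
  have hk : LinearMap.ker B = ⊥ := LinearMap.ker_eq_bot'.2 fun u hu =>
    dotProduct_eq_zero u fun w => LinearMap.congr_fun hu w
  have ho : tsp I x = B.orthogonal W := by
    ext v
    refine ⟨fun hv w hw => ?_, fun hv Φ hΦ => hv _ (Submodule.subset_span ⟨Φ, hΦ, rfl⟩)⟩
    have : W ≤ LinearMap.ker (B.flip v) := Submodule.span_le.2 (by
      rintro _ ⟨Φ, hΦ, rfl⟩
      exact hv Φ hΦ)
    exact this hw
  have := LinearMap.BilinForm.finrank_add_finrank_orthogonal' (B := B) W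
  rw [hk, inf_bot_eq, finrank_bot, add_zero, finrank_fin_fun] at this
  rw [ho, add_comm, this]

theorem spec_le {m : ℕ} (W : Submodule k (V k N)) {v : Fin m → V k N} (h : LinearIndependent k v)
    (hv : ∀ l, v l ∈ W) : m ≤ finrank k W := by
  simpa using (LinearIndependent.of_comp W.subtype (v := fun l => (⟨v l, hv l⟩ : W))
    h).fintype_card_le_finrank

/-- Let `m` be the dimension of the tangent space at `x`. Take a basis of it, `N + 1 - m`
independent gradients of elements of `I` (`tsp_rank`) and the inverse of a coordinate of `x`;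
specialise (`spread_ind`, `exists_point`, `On.of_map`, `On.map`, `Tg.of_map`, `Tg.map`). -/
theorem dim_ext (h : Dim I n k) (Λ : Type) [Field Λ] [Algebra k Λ] : Dim I n Λ := by
  intro x hx0 hx
  obtain ⟨i₀, hi₀⟩ := Function.ne_iff.1 hx0
  have hr := tsp_rank (I := I) x
  obtain ⟨f, hf, -, hfi⟩ := Submodule.exists_fun_fin_finrank_span_eq Λ {w : V Λ N | ∃ Φ ∈ I,
    w = fun i => MvPolynomial.aeval x (MvPolynomial.pderiv i Φ)}
  choose Φ hΦ hfΦ using hf
  let b := finBasis Λ (tsp I x)
  have hb : LinearIndependent Λ fun l => (b l : V Λ N) :=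
    b.linearIndependent.map' (tsp I x).subtype (Submodule.ker_subtype _)
  obtain ⟨s₁, hs₁, h₁⟩ := spread_ind (k := k) hb
  obtain ⟨s₂, hs₂, h₂⟩ := spread_ind (k := k) hfi
  let s : Set Λ := s₁ ∪ s₂ ∪ Set.range x ∪ Set.range (fun p : _ × _ => (b p.1 : V Λ N) p.2) ∪
    {(x i₀)⁻¹}
  obtain ⟨φ⟩ := exists_point (k := k) (s := s) ((((hs₁.union hs₂).union (Set.finite_range _)).union
    (Set.finite_range _)).union (Set.finite_singleton _))
  have hs : s ⊆ Algebra.adjoin k s := Algebra.subset_adjoin
  let x' : V (Algebra.adjoin k s) N := fun i => ⟨x i, hs (.inl (.inl (.inr ⟨i, rfl⟩)))⟩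
  let b' : _ → V (Algebra.adjoin k s) N := fun l i =>
    ⟨(b l : V Λ N) i, hs (.inl (.inr ⟨(l, i), rfl⟩))⟩
  have hinj : Function.Injective (Algebra.adjoin k s).val := Subtype.val_injective
  have hx' : On I x' := On.of_map hinj hx
  have hy0 : φ ∘ x' ≠ 0 := fun h0 => by
    have e : x' i₀ * ⟨(x i₀)⁻¹, hs (.inr rfl)⟩ = 1 := Subtype.ext (mul_inv_cancel₀ hi₀)
    have := congrArg φ e
    rw [map_mul, show φ (x' i₀) = 0 from congrFun h0 i₀, zero_mul, map_one] at this
    exact zero_ne_one this
  have hd := h _ hy0 (hx'.map φ)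
  have hr' := tsp_rank (I := I) (φ ∘ x')
  have l₁ := h₁ _ (fun a ha => hs (.inl (.inl (.inl (.inl ha))))) φ b' fun _ _ => rfl
  have l₂ := h₂ _ (fun a ha => hs (.inl (.inl (.inl (.inr ha))))) φ
    (fun l i => MvPolynomial.aeval x' (MvPolynomial.pderiv i (Φ l))) fun l i => by
      rw [hfΦ l]
      exact map_aev (Algebra.adjoin k s).val x' _
  have m₁ := spec_le (tsp I (φ ∘ x')) l₁ fun l =>
    (Tg.of_map (z := x') (v := b' l) hinj (b l).2).map φ
  have m₂ := spec_le (Submodule.span k {w : V k N | ∃ Φ ∈ I,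
    w = fun i => MvPolynomial.aeval (φ ∘ x') (MvPolynomial.pderiv i Φ)}) l₂ fun l =>
      Submodule.subset_span ⟨Φ l, hΦ l, funext fun i => map_aev φ x' _⟩
  rw [hd] at hr'
  have m₃ := m₁.trans_eq hd
  omega

end

end Pool.Agent.Lib.MP_41050a_ag.NK
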