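import Pool.Agent.Lib.MP_41050a_ag.NK.Plk
import Pool.Agent.Lib.MP_41050a_ag.NK.Prim
import Pool.Agent.Lib.MP_41050a_ag.NK.Spec

/-! Existence of frames. -/

namespace Pool.Agent.Lib.MP_41050a_ag.NK

open Polynomial Module

set_option linter.unusedSectionVars false

noncomputable section

variable {k : Type} [Field k] [IsAlgClosed k] [CharZero k] {N n : ℕ} {I : Ideal (Pk k N)}
  {Λ : Type} [Field Λ] [Algebra k Λ] [IsAlgClosed Λ] {e m : ℕ} {F G : V Λ[X] N}

theorem ev_ne (hF : IsMap I e F) (p : Option Λ) : ev e p F ≠ 0 := fun h =>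
  (hF.bpf p).elim fun i hi => hi (congrFun h i)

/-- At infinity reduce to homogeneous `Φ` and use `coeff_aev` for the forms `pderiv i Φ`. -/
theorem tg_val (hV : Cone I) (hF : ∀ i, (F i).natDegree ≤ e) (hG : ∀ i, (G i).natDegree ≤ m)
    (h : Tg I F G) (p : Option Λ) : Tg I (ev e p F) (ev m p G) := by
  intro Φ hΦ
  cases p with
  | some a =>
    have h1 := congrArg (eval a) (h Φ hΦ)
    simp only [eval_finsetSum, eval_mul, eval_aev, eval_zero] at h1
    exact h1
  | none =>
    rw [← Φ.sum_homogeneousComponent]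
    simp only [map_sum, Finset.sum_mul]
    rw [Finset.sum_comm]
    refine Finset.sum_eq_zero fun d _ => ?_
    have h1 := congrArg (coeff · ((d - 1) * e + m)) (h _ (hV.hom Φ hΦ d))
    simp only [finsetSum_coeff, coeff_zero] at h1
    refine (Finset.sum_congr rfl fun i _ => ?_).trans h1
    obtain ⟨h2, h3⟩ := coeff_aev
      ((MvPolynomial.homogeneousComponent_isHomogeneous d Φ).pderiv (i := i)) hF
    rw [coeff_mul_add_eq_of_natDegree_le h2 (hG i), h3]
    rfl

theorem rank_ev (hV : SmoothVar I) (hn : Dim I n k) (hF : IsMap I e F) (p : Option Λ) :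
    finrank Λ (tsp I (ev e p F)) = n + 1 :=
  dim_ext hn Λ _ (ev_ne hF p) (On.val hV hF p)

theorem rank_am (hn : Dim I n k) (hF : IsMap I e F) :
    finrank (RatFunc Λ) (tsp I (am F)) = n + 1 := by
  refine dim_ext hn _ _ (fun h => ev_ne hF none (funext fun i => ?_)) (hF.on.map (amH k Λ))
  have h1 : F i = 0 := RatFunc.algebraMap_injective Λ ((congrFun h i).trans (map_zero _).symm)
  simp [ev, val, h1]

/-- A family of independent tangent tuples with degree bounds. -/
structure Frma2 (I : Ideal (Pk k N)) (n : ℕ) (F : V Λ[X] N) (δ : Fin (n + 1) → ℕ)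
    (G : Fin (n + 1) → V Λ[X] N) : Prop where
  deg : ∀ j i, (G j i).natDegree ≤ δ j
  tg : ∀ j, Tg I F (G j)
  ind : LinearIndependent Λ[X] G

theorem frma2_init (hn : Dim I n k) (hF : IsMap I e F) : ∃ δ G, Frma2 I n F δ G := by
  let b := Module.finBasisOfFinrankEq (RatFunc Λ) (tsp I (am F)) (rank_am hn hF)
  choose c l hc hl using fun j => free_clear (b j : V (RatFunc Λ) N)
  have hi : Function.Injective (algebraMap Λ[X] (RatFunc Λ)) := IsFractionRing.injective _ _
  refine ⟨fun j => Finset.univ.sup fun i => (l j i).natDegree, l, fun j i =>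
    Finset.le_sup (f := fun i => (l j i).natDegree) (Finset.mem_univ i), fun j => ?_, ?_⟩
  · refine Tg.of_map (φ := amH k Λ) hi ?_
    rw [amH_comp, amH_comp, hl]
    exact Tg.smul (b j).2 _
  · rw [Fintype.linearIndependent_iff]
    intro a ha j
    have hb := b.linearIndependent.map' (tsp I (am F)).subtype (Submodule.ker_subtype _)
    have h := Fintype.linearIndependent_iff.1 hb
      (fun j => algebraMap Λ[X] (RatFunc Λ) (a j * c j)) ?_ j
    · exact (mul_eq_zero.1 (hi (h.trans (map_zero _).symm))).resolve_right (hc j)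
    · funext i
      have h1 := congrArg (algebraMap Λ[X] (RatFunc Λ)) (congrFun ha i)
      simp only [Finset.sum_apply, Pi.smul_apply, smul_eq_mul, map_sum, map_mul, Pi.zero_apply,
        map_zero] at h1 ⊢
      rw [← h1]
      refine Finset.sum_congr rfl fun j _ => ?_
      have h2 := congrFun (hl j) i
      simp only [am, Pi.smul_apply, smul_eq_mul] at h2
      rw [h2, mul_assoc]
      rfl

theorem frma2_step {δ : Fin (n + 1) → ℕ} {G : Fin (n + 1) → V Λ[X] N} (h : Frma2 I n F δ G)
    {j₀ : Fin (n + 1)} {c : Fin (n + 1) → Λ[X]} (hc : c j₀ ≠ 0) {q : Λ[X]} (hq : q ≠ 0)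
    {H : V Λ[X] N} (hH : q • H = ∑ j, c j • G j) (hd : ∀ i, (H i).degree < δ j₀) :
    ∃ δ' G', Frma2 I n F δ' G' ∧ ∑ j, δ' j < ∑ j, δ j := by
  have hi := Fintype.linearIndependent_iff.1 h.ind
  have hI : LinearIndependent Λ[X] (Function.update G j₀ H) := by
    rw [Fintype.linearIndependent_iff]
    intro a ha
    have e1 : ∀ b : Fin (n + 1) → Λ[X], ∑ j, b j • Function.update G j₀ H j =
        ∑ j, b j • G j + b j₀ • (H - G j₀) := by
      intro b
      rw [← Finset.add_sum_erase _ _ (Finset.mem_univ j₀),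
        ← Finset.add_sum_erase _ (fun j => b j • G j) (Finset.mem_univ j₀),
        Finset.sum_congr rfl (g := fun j => b j • G j) fun j hj => by
          rw [Function.update_of_ne (Finset.ne_of_mem_erase hj)], Function.update_self, smul_sub]
      abel
    rw [e1] at ha
    have h0 : a j₀ = 0 := by
      have := hi (fun j => q * a j + a j₀ * c j - if j = j₀ then q * a j₀ else 0) ?_ j₀
      · simp only [if_true, add_sub_cancel_left] at this
        exact (mul_eq_zero.1 this).resolve_right hc
      · have h2 := congrArg (q • ·) ha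
        simp only [smul_add, smul_zero, smul_sub, smul_comm q (a j₀) H, hH, Finset.smul_sum,
          smul_smul] at h2
        simp only [sub_smul, add_smul, Finset.sum_sub_distrib, Finset.sum_add_distrib, ite_smul,
          zero_smul, Finset.sum_ite_eq', Finset.mem_univ, if_true]
        rw [← h2]
        abel
    rw [h0, zero_smul, add_zero] at ha
    exact hi a ha
  have hne : H ≠ 0 := by simpa using hI.ne_zero j₀
  obtain ⟨i₀, hi₀⟩ := Function.ne_iff.1 hne
  have hpos : 0 < δ j₀ := lt_of_le_of_lt (Nat.zero_le _) ((natDegree_lt_iff_degree_lt hi₀).2 (hd i₀))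
  refine ⟨Function.update δ j₀ (δ j₀ - 1), Function.update G j₀ H, ⟨fun j i => ?_, fun j => ?_, hI⟩,
    Finset.sum_lt_sum (fun j _ => ?_) ⟨j₀, Finset.mem_univ _, by simpa using hpos⟩⟩
  · by_cases hj : j = j₀
    · subst hj
      simp only [Function.update_self]
      by_cases h0 : H i = 0
      · simp [h0]
      · exact Nat.le_sub_one_of_lt ((natDegree_lt_iff_degree_lt h0).2 (hd i))
    · simpa only [Function.update_of_ne hj] using h.deg j i
  · by_cases hj : j = j₀
    · subst hj
      have h1 : Tg I F (q • H) := hH ▸ Finset.sum_induction _ (Tg I F) (fun _ _ => Tg.add) Tg.zero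
        fun j _ => (h.tg j).smul _
      intro Φ hΦ
      have h2 := h1 Φ hΦ
      simp only [Pi.smul_apply, smul_eq_mul, mul_left_comm _ q, ← Finset.mul_sum] at h2
      simpa only [Function.update_self] using (mul_eq_zero.1 h2).resolve_left hq
    · simpa only [Function.update_of_ne hj] using h.tg j
  · by_cases hj : j = j₀
    · subst hj
      simp
    · simp [hj]

/-- There are `n + 1` tangent tuples independent over `Λ[X]` (`rank_am`, `free_clear`). Among all
pairs `(δ, G)` of degree bounds and independent tangent families take one with least `∑ δ`. If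
`∑ w j • (value of G j at p) = 0` with `w ≠ 0`, take `j₀` with `w j₀ ≠ 0` and `δ j₀` maximal and
replace `G j₀` by `(∑ w j G j) / (X - a)` (for `p = some a`), resp. `∑ w j X ^ (δ j₀ - δ j) G j`
(for `p = none`): tangent, not zero, of degree less than `δ j₀`, and the family stays
independent. -/
theorem exists_frame (hn : Dim I n k) (hF : IsMap I e F) : ∃ δ G, Frame I n F δ G := by
  classical
  obtain ⟨⟨δ, G⟩, h, hmin⟩ := (measure fun x : (Fin (n + 1) → ℕ) × (Fin (n + 1) → V Λ[X] N) =>
    ∑ j, x.1 j).wf.has_min {x | Frma2 I n F x.1 x.2}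
    (by obtain ⟨δ, G, h⟩ := frma2_init hn hF; exact ⟨(δ, G), h⟩)
  replace h : Frma2 I n F δ G := h
  refine ⟨δ, G, h.deg, h.tg, fun p => ?_⟩
  rw [Fintype.linearIndependent_iff]
  intro w hw
  by_contra hne
  obtain ⟨j₀, hj₀, hmax⟩ := (Finset.univ.filter fun j => w j ≠ 0).exists_max_image δ
    (by simpa [Finset.Nonempty] using hne)
  replace hj₀ : w j₀ ≠ 0 := by simpa using hj₀
  replace hmax : ∀ j, w j ≠ 0 → δ j ≤ δ j₀ := by simpa using hmax
  have hw' : ∀ i, ∑ j, w j * val (δ j) p (G j i) = 0 := fun i => by simpa using congrFun hw i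
  suffices ∃ δ' G', Frma2 I n F δ' G' ∧ ∑ j, δ' j < ∑ j, δ j by
    obtain ⟨δ', G', h1, h2⟩ := this
    exact hmin (δ', G') h1 h2
  cases p with
  | some a =>
    have hd : ∀ i, ∃ g, ∑ j, C (w j) * G j i = (X - C a) * g := fun i =>
      dvd_iff_isRoot.2 (by simpa [val, eval_finsetSum] using hw' i)
    choose H hH using hd
    refine frma2_step h (c := fun j => C (w j)) (C_ne_zero.2 hj₀) (X_sub_C_ne_zero a) (H := H)
      (funext fun i => by simp [hH]) fun i => ?_
    by_cases h0 : H i = 0
    · simp [h0]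
    have h1 : (∑ j, C (w j) * G j i).natDegree ≤ δ j₀ := natDegree_sum_le_of_forall_le _ _ fun j _ => by
      by_cases hj : w j = 0
      · simp [hj]
      · exact (natDegree_C_mul_le _ _).trans ((h.deg j i).trans (hmax j hj))
    rw [hH, natDegree_mul (X_sub_C_ne_zero a) h0, natDegree_X_sub_C] at h1
    exact (natDegree_lt_iff_degree_lt h0).1 (by omega)
  | none =>
    refine frma2_step h (c := fun j => C (w j) * X ^ (δ j₀ - δ j)) (by simpa using hj₀) one_ne_zero
      (one_smul _ _) fun i => (degree_lt_iff_coeff_zero _ _).2 fun r hr => ?_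
    simp only [Finset.sum_apply, Pi.smul_apply, smul_eq_mul, finsetSum_coeff, mul_assoc,
      coeff_C_mul]
    rcases hr.eq_or_lt with rfl | hlt
    · rw [← hw' i]
      refine Finset.sum_congr rfl fun j _ => ?_
      by_cases hj : w j = 0
      · simp [hj]
      · rw [coeff_X_pow_mul', if_pos (Nat.sub_le _ _), Nat.sub_sub_self (hmax j hj)]
        rfl
    · refine Finset.sum_eq_zero fun j _ => ?_
      by_cases hj : w j = 0
      · simp [hj]
      · have h1 := hmax j hj
        have h2 := h.deg j i
        rw [coeff_X_pow_mul', if_pos (by omega), coeff_eq_zero_of_natDegree_lt (by omega), mul_zero]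

end

end Pool.Agent.Lib.MP_41050a_ag.NK
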