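import Pool.Agent.Lib.MP_41050a_ag.NK.FrmA

/-! Sections in terms of a frame. -/

namespace Pool.Agent.Lib.MP_41050a_ag.NK

open Polynomial Module

set_option linter.unusedSectionVars false

noncomputable section

variable {k : Type} [Field k] [IsAlgClosed k] [CharZero k] {N n : ℕ} {I : Ideal (Pk k N)}
  {Λ : Type} [Field Λ] [Algebra k Λ] [IsAlgClosed Λ] {e m : ℕ} {F : V Λ[X] N}
  {δ : Fin (n + 1) → ℕ} {G : Fin (n + 1) → V Λ[X] N}

theorem frmb1_upd {R : Type} [CommRing R] (G : Fin (n + 1) → V R N) (c : Fin (n + 1) → R)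
    {H : V R N} (hH : ∀ i, H i = ∑ l, c l * G l i) (j : Fin (n + 1)) (T : Jx n N) :
    mn (Function.update G j H) T = c j * mn G T := by
  refine Eq.trans (congrArg Matrix.det ?_)
    (Matrix.det_updateRow_sum (Matrix.of fun j l => G j (T l)) j c)
  ext a b
  by_cases h : a = j
  · simp [h, hH, Finset.sum_apply]
  · simp [h]

theorem frmb1_tg {R : Type} [CommRing R] [Algebra k R] {x : V R N} {G : Fin (n + 1) → V R N}
    (hG : ∀ j, Tg I x (G j)) (c : Fin (n + 1) → R) : Tg I x fun i => ∑ l, c l * G l i := by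
  intro Φ hΦ
  simp only [Finset.mul_sum, mul_left_comm _ (c _)]
  rw [Finset.sum_comm]
  exact Finset.sum_eq_zero fun l _ => by rw [← Finset.mul_sum, hG l Φ hΦ, mul_zero]

theorem frmb1_deg {f : Λ[X]} {d : ℕ} :
    f ∈ degreeLT Λ (m + 1 - d) ↔ (f ≠ 0 → f.natDegree + d ≤ m) := by
  rw [mem_degreeLT]
  by_cases h : f = 0
  · simp [h]
  · rw [degree_eq_natDegree h, Nat.cast_lt]
    exact ⟨fun h1 _ => by omega, fun h1 => by have := h1 h; omega⟩

theorem frmb1_top (h : Frame I n F δ G) :
    ∃ T, mn G T ≠ 0 ∧ (mn G T).natDegree = ∑ j, δ j := by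
  obtain ⟨-, -, hb⟩ := frame_iff.1 h
  obtain ⟨T, hT⟩ := hb.bpf none
  exact ⟨T, fun h0 => hT (by simp [val, h0]), natDegree_eq_of_le_of_coeff_ne_zero (hb.deg T) hT⟩

/-- Cramer's rule: over `RatFunc Λ` the `G j` are a basis of the tangent space (`rank_am`,
`mn_ne_zero`). -/
theorem cramer_tg (hn : Dim I n k) (hF : IsMap I e F) (hG : ∀ j, Tg I F (G j)) (h0 : mn G ≠ 0)
    {H : V Λ[X] N} (hH : Tg I F H) (T : Jx n N) (i : Fin (N + 1)) :
    mn G T * H i = ∑ j, mn (Function.update G j H) T * G j i := by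
  have hi : Function.Injective (algebraMap Λ[X] (RatFunc Λ)) := free_amH_inj (k := k)
  have hli : LinearIndependent (RatFunc Λ) fun j => am (G j) := by
    refine mn_ne_zero.1 fun h => h0 (funext fun S => hi ?_)
    rw [mn_map, Pi.zero_apply, map_zero]
    exact congrFun h S
  have hs : Submodule.span (RatFunc Λ) (Set.range fun j => am (G j)) = tsp I (am F) := by
    refine Submodule.eq_of_le_of_finrank_eq (Submodule.span_le.2 ?_) ?_
    · rintro _ ⟨j, rfl⟩
      exact (hG j).map (amH k Λ)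
    · rw [finrank_span_eq_card hli, rank_am hn hF, Fintype.card_fin]
  have hm : am H ∈ tsp I (am F) := hH.map (amH k Λ)
  rw [← hs, Submodule.mem_span_range_iff_exists_fun] at hm
  obtain ⟨c, hc⟩ := hm
  have hc' : ∀ i, am H i = ∑ l, c l * am (G l) i := fun i => by
    rw [← hc, Finset.sum_apply]
    rfl
  have hu : ∀ j, algebraMap Λ[X] (RatFunc Λ) (mn (Function.update G j H) T) =
      c j * algebraMap Λ[X] (RatFunc Λ) (mn G T) := fun j => by
    rw [mn_map, mn_map]
    refine Eq.trans (congrArg (mn · T) ?_) (frmb1_upd (fun j => am (G j)) c hc' j T)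
    exact Function.comp_update am G j H
  apply hi
  simp only [map_mul, map_sum, hu]
  refine (congrArg _ (hc' i)).trans ?_
  rw [Finset.mul_sum]
  exact Finset.sum_congr rfl fun j _ => by rw [mul_left_comm, mul_assoc]; rfl

/-- With a Bezout identity `∑ u T * mn G T = 1` put `φ j = ∑ u T * mn (update G j H) T`. By
independence `mn G T * φ j = mn (update G j H) T`; take `T` with `mn G T` of degree `∑ δ`, and
`mn_val` for the degree of the right side. -/
theorem Frame.expand (hn : Dim I n k) (hF : IsMap I e F) (h : Frame I n F δ G) {H : V Λ[X] N}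
    (hH : H ∈ sec I m F) : ∃ φ : Fin (n + 1) → Λ[X],
      (∀ j, φ j ∈ degreeLT Λ (m + 1 - δ j)) ∧ ∀ i, H i = ∑ j, φ j * G j i := by
  obtain ⟨u, hu⟩ := (frame_iff.1 h).2.2.bez
  obtain ⟨T, hT, hd⟩ := frmb1_top h
  have key : ∀ i, H i = ∑ j, (∑ S, u S * mn (Function.update G j H) S) * G j i := fun i => by
    simp only [Finset.sum_mul, mul_assoc]
    rw [Finset.sum_comm]
    simp only [← Finset.mul_sum, ← cramer_tg hn hF h.tg (fun h0 => hT (congrFun h0 T)) hH.2 _ i]
    simp only [← mul_assoc]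
    rw [← Finset.sum_mul, hu, one_mul]
  refine ⟨_, fun j => frmb1_deg.2 fun h0 => ?_, key⟩
  have h1 := (mn_val (G := Function.update G j H) (δ := Function.update δ j m) (fun l i => by
    by_cases hl : l = j
    · simpa [hl] using hH.1 i
    · simpa [hl] using h.deg l i) T).1
  rw [frmb1_upd G _ key j T, natDegree_mul h0 hT, hd, Finset.sum_update_of_mem (Finset.mem_univ j),
    ← Finset.add_sum_erase _ _ (Finset.mem_univ j), Finset.sdiff_singleton_eq_erase] at h1
  omega

/-- `sec I m F` is isomorphic to `Π j, degreeLT Λ (m + 1 - δ j)`. -/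
theorem Frame.rank_sec (hn : Dim I n k) (hF : IsMap I e F) (h : Frame I n F δ G) (m : ℕ) :
    FiniteDimensional Λ (sec I m F) ∧ finrank Λ (sec I m F) = ∑ j, (m + 1 - δ j) := by
  let L : (Π j, degreeLT Λ (m + 1 - δ j)) →ₗ[Λ] V Λ[X] N :=
    { toFun := fun φ i => ∑ j, (φ j : Λ[X]) * G j i
      map_add' := fun φ ψ => funext fun i => by simp [add_mul, Finset.sum_add_distrib]
      map_smul' := fun c φ => funext fun i => by simp [Finset.smul_sum] }
  obtain ⟨T, hT, -⟩ := frmb1_top h
  have hL : Function.Injective L := (injective_iff_map_eq_zero L).2 fun φ h0 => by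
    funext j
    have h1 := frmb1_upd G (fun l => (φ l : Λ[X])) (H := 0) (fun i => (congrFun h0 i).symm) j T
    rw [frmb1_upd G 0 (fun i => by simp) j T] at h1
    exact Subtype.ext (mul_right_cancel₀ hT h1.symm)
  have hr : LinearMap.range L = sec I m F := by
    ext H
    refine ⟨?_, fun hH => ?_⟩
    · rintro ⟨φ, rfl⟩
      refine mem_sec.2 ⟨fun i => ?_, frmb1_tg h.tg fun j => φ j⟩
      change (∑ j, (φ j : Λ[X]) * G j i).natDegree ≤ m
      refine natDegree_sum_le_of_forall_le _ _ fun j _ => ?_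
      by_cases h0 : (φ j : Λ[X]) = 0
      · simp [h0]
      · exact natDegree_mul_le.trans
          ((Nat.add_le_add_left (h.deg j i) _).trans (frmb1_deg.1 (φ j).2 h0))
    · obtain ⟨φ, h1, h2⟩ := h.expand hn hF hH
      exact ⟨fun j => ⟨φ j, h1 j⟩, funext fun i => (h2 i).symm⟩
  have hf : ∀ r, Module.Finite Λ (degreeLT Λ r) := fun r =>
    Module.Finite.equiv (degreeLTEquiv Λ r).symm
  rw [← hr, LinearMap.finrank_range_of_inj hL, finrank_pi_fintype]
  refine ⟨inferInstance, Finset.sum_congr rfl fun j _ => ?_⟩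
  rw [(degreeLTEquiv Λ _).finrank_eq, finrank_fin_fun]

theorem frmb2_mul {a c : ℕ} {f g : Λ[X]} (hf : f.natDegree ≤ a) (hg : g.natDegree ≤ c)
    (p : Option Λ) : val (a + c) p (f * g) = val a p f * val c p g := by
  cases p with
  | none => exact coeff_mul_add_eq_of_natDegree_le hf hg
  | some b => exact eval_mul

theorem frmb2_sum {ι : Type} (s : Finset ι) (p : Option Λ) (f : ι → Λ[X]) :
    val m p (∑ j ∈ s, f j) = ∑ j ∈ s, val m p (f j) := by
  cases p with
  | none => exact finsetSum_coeff s f m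
  | some b => exact eval_finsetSum s f b

theorem frmb2_span (hV : SmoothVar I) (hn : Dim I n k) (hF : IsMap I e F) (h : Frame I n F δ G)
    (p : Option Λ) {v : V Λ N} (hv : Tg I (ev e p F) v) :
    ∃ c : Fin (n + 1) → Λ, ∀ i, ∑ j, c j * val (δ j) p (G j i) = v i := by
  let w : Fin (n + 1) → tsp I (ev e p F) := fun j =>
    ⟨ev (δ j) p (G j), tg_val hV hF.deg (h.deg j) (h.tg j) p⟩
  have hw : LinearIndependent Λ w := LinearIndependent.of_comp (tsp I (ev e p F)).subtype (h.ind p)
  have ht := hw.span_eq_top_of_card_eq_finrank (by rw [rank_ev hV hn hF p, Fintype.card_fin])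
  obtain ⟨c, hc⟩ := (Submodule.mem_span_range_iff_exists_fun Λ).1
    (ht.ge (Submodule.mem_top : (⟨v, hv⟩ : tsp I (ev e p F)) ∈ ⊤))
  refine ⟨c, fun i => ?_⟩
  simpa [w, ev] using congrFun (congrArg Subtype.val hc) i

theorem frmb2_tg (h : ∀ j, Tg I F (G j)) (φ : Fin (n + 1) → Λ[X]) :
    Tg I F fun i => ∑ j, φ j * G j i := by
  intro Φ hΦ
  simp only [Finset.mul_sum, mul_left_comm _ (φ _)]
  rw [Finset.sum_comm]
  exact Finset.sum_eq_zero fun j _ => by rw [← Finset.mul_sum, h j Φ hΦ, mul_zero]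

/-- If `e < δ j₀`, the value of `G j₀` at `p` is a combination of the other values. -/
theorem Frame.le_of_surj (hV : SmoothVar I) (hn : Dim I n k) (hF : IsMap I e F)
    (h : Frame I n F δ G) (p : Option Λ)
    (hs : ∀ v, Tg I (ev e p F) v → ∃ H ∈ sec I e F, ev e p H = v) (j : Fin (n + 1)) :
    δ j ≤ e := by
  by_contra hj
  obtain ⟨H, hH, hv⟩ := hs _ (tg_val hV hF.deg (h.deg j) (h.tg j) p)
  obtain ⟨φ, hφ, he⟩ := h.expand hn hF hH
  have h0 (l) (hl : ¬ δ l ≤ e) : φ l = 0 := by
    have := mem_degreeLT.1 (hφ l)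
    rw [show e + 1 - δ l = 0 by omega] at this
    exact degree_eq_bot.1 (Nat.WithBot.lt_zero_iff.1 this)
  have h1 (l i) : val e p (φ l * G l i) = val (e - δ l) p (φ l) * val (δ l) p (G l i) := by
    by_cases hl : δ l ≤ e
    · have hd : (φ l).natDegree ≤ e - δ l := by
        have := hφ l
        rw [show e + 1 - δ l = e - δ l + 1 by omega, degreeLT_succ_eq_degreeLE] at this
        exact natDegree_le_of_degree_le (mem_degreeLE.1 this)
      rw [← frmb2_mul hd (h.deg l i), Nat.sub_add_cancel hl]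
    · rw [h0 l hl, zero_mul, free0_val_zero, free0_val_zero, zero_mul]
  have h2 := Fintype.linearIndependent_iff.1 (h.ind p)
    (fun l => val (e - δ l) p (φ l) - if l = j then 1 else 0) (funext fun i => by
      have h3 : val e p (H i) = val (δ j) p (G j i) := congrFun hv i
      rw [he, frmb2_sum] at h3
      simp only [h1] at h3
      simp [sub_mul, h3]) j
  rw [h0 j hj, free0_val_zero] at h2
  simp at h2

/-- At infinity use `X ^ (e - δ j) * G j`. -/
theorem Frame.free_iff (hV : SmoothVar I) (hn : Dim I n k) (hF : IsMap I e F)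
    (h : Frame I n F δ G) : Free I e F ↔ ∀ j, δ j ≤ e := by
  refine ⟨fun hf => h.le_of_surj hV hn hF none fun v hv => ?_, fun hδ p v hv => ?_⟩
  · obtain ⟨H, h1, h2, h3⟩ := hf none v hv
    exact ⟨H, ⟨h1, h2⟩, funext h3⟩
  obtain ⟨c, hc⟩ := frmb2_span hV hn hF h p hv
  obtain ⟨φ, h1, h2⟩ : ∃ φ : Fin (n + 1) → Λ[X], (∀ j, (φ j).natDegree ≤ e - δ j) ∧
      ∀ j, val (e - δ j) p (φ j) = c j := by
    cases p with
    | none => exact ⟨fun j => monomial _ (c j), fun j => natDegree_monomial_le _,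
        fun j => coeff_monomial_same _ _⟩
    | some b => exact ⟨fun j => C (c j), fun j => by simp, fun j => eval_C⟩
  refine ⟨_, fun i => natDegree_sum_le_of_forall_le _ _ fun j _ => natDegree_mul_le.trans ?_,
    frmb2_tg h.tg φ, fun i => ?_⟩
  · have := h1 j
    have := h.deg j i
    have := hδ j
    omega
  · rw [frmb2_sum, ← hc]
    refine Finset.sum_congr rfl fun j _ => ?_
    rw [← h2, ← frmb2_mul (h1 j) (h.deg j i), Nat.sub_add_cancel (hδ j)]

/-- Every tangent vector at a finite point is the value of a tangent tuple. -/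
theorem exists_tg_eval (hV : SmoothVar I) (hn : Dim I n k) (hF : IsMap I e F) (b : Λ) {v : V Λ N}
    (hv : Tg I (ev e (some b) F) v) : ∃ H : V Λ[X] N, Tg I F H ∧ ∀ i, (H i).eval b = v i := by
  obtain ⟨δ, G, h⟩ := exists_frame hn hF
  obtain ⟨c, hc⟩ := frmb2_span hV hn hF h (some b) hv
  refine ⟨_, frmb2_tg h.tg fun j => C (c j), fun i => ?_⟩
  rw [← hc, eval_finsetSum]
  exact Finset.sum_congr rfl fun j _ => eval_C_mul

end

end Pool.Agent.Lib.MP_41050a_ag.NK
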