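import Pool.Agent.Lib.MP_41050a_ag.NK.SecA

/-! The generic point of a component. -/

namespace Pool.Agent.Lib.MP_41050a_ag.NK

open Polynomial Module

set_option linter.unusedSectionVars false

noncomputable section

variable {k : Type} [Field k] [IsAlgClosed k] [CharZero k] {N n e : ℕ} {I : Ideal (Pk k N)}
  {E : Type} [Field E] [Algebra k E] [IsAlgClosed E] {P : Ideal (MvPolynomial (Ix N e) k)}
  {ξ : Ix N e → E} {d c : ℤ}

theorem deform_sec (hV : SmoothVar I) {F G : V E[X] N} (hF : IsMap I e F) (hf : Free I e F)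
    (hG : G ∈ sec I e F) : ∃ γ : Ix N e → PowerSeries E, On I (pol γ) ∧
      (∀ x, PowerSeries.coeff 0 (γ x) = (F x.1).coeff x.2) ∧
      ∀ x, PowerSeries.coeff 1 (γ x) = (G x.1).coeff x.2 := by
  have base : Df I e F (0 + 2) fun j => if j = 1 then G else F := by
    refine ⟨rfl, fun j i => ?_, (deform_key one_pos (y := fun i => PowerSeries.C (F i)) (z := F)
      (fun i j hj => ?_) (fun i => ?_) (fun i => ?_) fun Φ hΦ => ?_).2 hG.2⟩
    · split_ifs
      exacts [hG.1 i, hF.deg i]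
    · rw [Nat.lt_one_iff.1 hj, PowerSeries.coeff_mk, PowerSeries.coeff_zero_C]
      rfl
    · exact PowerSeries.coeff_zero_C _
    · rw [PowerSeries.coeff_mk, PowerSeries.coeff_C, if_neg one_ne_zero, sub_zero]
      rfl
    · exact Dvd.intro 0 ((mul_zero _).trans
        (hF.on.map ⟨PowerSeries.C, fun _ => PowerSeries.algebraMap_apply.symm⟩ Φ hΦ).symm)
  choose f hf1 using fun n (L : ℕ → V E[X] N) (h : Df I e F (n + 2) L) =>
    h.step hV hF hf n.succ.succ_pos
  let s : (n : ℕ) → {L // Df I e F (n + 2) L} := fun n =>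
    Nat.rec ⟨_, base⟩ (fun n x => ⟨_, hf1 n x.1 x.2⟩) n
  have stab : ∀ m n, m ≤ n → ∀ j < m + 2, (s n).1 j = (s m).1 j := by
    intro m n hmn j hj
    induction n, hmn using Nat.le_induction with
    | base => rfl
    | succ n hn ih => exact (Function.update_of_ne (by omega) _ _).trans ih
  have h3 : On I fun i => PowerSeries.mk fun j => (s j).1 j i := fun Φ hΦ =>
    PowerSeries.ext fun n => PowerSeries.X_pow_dvd_iff.1 (deform_congr (fun i j hj => by
      rw [PowerSeries.coeff_mk, PowerSeries.coeff_mk]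
      rcases le_total j n with h | h
      · rw [stab j n h j (by omega)]
      · rw [stab n j h j hj]) (s n).2.on Φ hΦ) n (by omega)
  let γ : Ix N e → PowerSeries E := fun x => PowerSeries.mk fun n => ((s n).1 n x.1).coeff x.2
  have hc : ∀ i a n, PowerSeries.coeff n ((pol γ i).coeff a) = ((s n).1 n i).coeff a := by
    intro i a n
    by_cases ha : a < e + 1
    · rw [pol_coeff γ i ⟨a, ha⟩, PowerSeries.coeff_mk]
    · rw [coeff_eq_zero_of_natDegree_lt ((pol_deg γ i).trans_lt (by omega)),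
        coeff_eq_zero_of_natDegree_lt (((s n).2.deg n i).trans_lt (by omega)), map_zero]
  refine ⟨γ, On.of_map (φ := deform_sw k E) (fun q r hqr => ?_) ?_,
    fun x => PowerSeries.coeff_mk _ _, fun x => ?_⟩
  · ext a n
    rw [← deform_sw_coeff (k := k), hqr, deform_sw_coeff]
  · have e1 : deform_sw k E ∘ pol γ = fun i => PowerSeries.mk fun j => (s j).1 j i := by
      funext i
      ext n a
      rw [Function.comp_apply, deform_sw_coeff, hc, PowerSeries.coeff_mk]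
    rwa [e1]
  · rw [PowerSeries.coeff_mk, stab 0 1 zero_le_one 1 one_lt_two]
    rfl

theorem gen_min (hP : P ∈ (eqs I e).minimalPrimes)
    (hξ : ∀ g, MvPolynomial.aeval ξ g = 0 ↔ g ∈ P) {R : Type} [CommRing R] [IsDomain R]
    [Algebra k R] (φ : R →ₐ[k] E) {γ : Ix N e → R} (h : On I (pol γ)) (hγ : ∀ x, φ (γ x) = ξ x) :
    ∀ g, MvPolynomial.aeval γ g = 0 ↔ g ∈ P := by
  have h1 : RingHom.ker (MvPolynomial.aeval γ : _ →ₐ[k] R) ≤ P := fun g hg => by
    rw [← hξ, ← funext hγ, ← MvPolynomial.comp_aeval_apply, RingHom.mem_ker.1 hg, map_zero]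
  exact fun g => ⟨fun hg => h1 hg, fun hg =>
    hP.2 ⟨RingHom.ker_isPrime _, fun a ha => eqs_iff.2 h a ha⟩ h1 hg⟩

theorem der_sec (hV : SmoothVar I) (hP : P ∈ (eqs I e).minimalPrimes)
    (hξ : ∀ g, MvPolynomial.aeval ξ g = 0 ↔ g ∈ P) (hF : IsMap I e (pol ξ))
    (hf : Free I e (pol ξ)) {G : V E[X] N} (hG : G ∈ sec I e (pol ξ)) :
    ∃ D : Dr k E, dF (pol ξ) D = G := by
  obtain ⟨γ, h1, h2, h3⟩ := deform_sec hV hF hf hG
  have h0 : ∀ x, deform_cc k E (γ x) = ξ x := fun x =>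
    (PowerSeries.coeff_zero_eq_constantCoeff_apply _).symm.trans ((h2 x).trans (pol_coeff ξ _ _))
  have h4 := gen_min hP hξ (deform_cc k E) h1 h0
  let ι := Ideal.Quotient.liftₐ P (MvPolynomial.aeval ξ) fun a ha => (hξ a).2 ha
  let ψ := Ideal.Quotient.liftₐ P (MvPolynomial.aeval γ) fun a ha => (h4 a).2 ha
  have h5 : ∀ a, PowerSeries.coeff 0 (ψ a) = ι a := fun a => by
    obtain ⟨a, rfl⟩ := Ideal.Quotient.mk_surjective a
    rw [PowerSeries.coeff_zero_eq_constantCoeff_apply]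
    refine (MvPolynomial.comp_aeval_apply γ (deform_cc k E) a).trans ?_
    rw [funext h0]
    rfl
  obtain ⟨D, hD⟩ := exists_der_ext ι ((injective_iff_map_eq_zero ι).2 fun a ha => by
      obtain ⟨a, rfl⟩ := Ideal.Quotient.mk_surjective a
      exact Ideal.Quotient.eq_zero_iff_mem.2 ((hξ a).1 ha))
    ((PowerSeries.coeff 1).restrictScalars k ∘ₗ ψ.toLinearMap) fun a b => by
      change PowerSeries.coeff 1 (ψ (a * b)) =
        _ * PowerSeries.coeff 1 (ψ b) + _ * PowerSeries.coeff 1 (ψ a)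
      rw [map_mul, PowerSeries.coeff_mul, Finset.Nat.antidiagonal_succ, ← h5, ← h5]
      simp [mul_comm]
  refine ⟨D, funext fun i => Polynomial.ext fun j => (dP_coeff D _ j).trans ?_⟩
  by_cases hj : j < e + 1
  · rw [pol_coeff ξ i ⟨j, hj⟩, ← h3 (i, ⟨j, hj⟩), ← MvPolynomial.aeval_X (R := k) ξ,
      ← MvPolynomial.aeval_X (R := k) γ]
    exact hD (Ideal.Quotient.mk P (MvPolynomial.X _))
  · rw [coeff_eq_zero_of_natDegree_lt ((pol_deg ξ i).trans_lt (by omega)),
      coeff_eq_zero_of_natDegree_lt ((hG.1 i).trans_lt (by omega)), map_zero]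

/-- `generic_isMap`, `exists_frame`, `spread_map`; specialise on
`A = adjoin k (s ∪ range ξ ∪ {(aeval ξ h)⁻¹})` (`exists_point`, `pol_map`), `AntiK.uniq`. -/
theorem generic_curve (hV : SmoothVar I) (hn : Dim I n k) (hP : P ∈ (eqs I e).minimalPrimes)
    (hξ : ∀ g, MvPolynomial.aeval ξ g = 0 ↔ g ∈ P) (hg : GenK I n e P c) :
    IsMap I e (pol ξ) ∧ Free I e (pol ξ) ∧ ∃ d, c ≤ d ∧ AntiK I n e (pol ξ) d := by
  obtain ⟨h, hh, hg⟩ := hg
  have hF := generic_isMap hP ⟨h, hh, fun a h1 h2 => ⟨(hg a h1 h2).1, (hg a h1 h2).2.1⟩⟩ hξ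
  obtain ⟨δ, G, hG⟩ := exists_frame hn hF
  have hd : AntiK I n e (pol ξ) _ := ⟨δ, G, hG, rfl⟩
  obtain ⟨s, hs, H⟩ := spread_map hV hn hF hd
  have hS := Algebra.subset_adjoin (R := k)
    (s := s ∪ Set.range ξ ∪ {(MvPolynomial.aeval ξ h)⁻¹})
  obtain ⟨φ⟩ := exists_point (k := k)
    ((hs.union (Set.finite_range ξ)).union (Set.finite_singleton (MvPolynomial.aeval ξ h)⁻¹))
  generalize Algebra.adjoin k (A := E) _ = A at hS φ
  let ξ' : Ix N e → A := fun x => ⟨ξ x, hS (.inl (.inr ⟨x, rfl⟩))⟩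
  have e1 : ∀ g, A.val (MvPolynomial.aeval ξ' g) = MvPolynomial.aeval ξ g := fun g =>
    MvPolynomial.comp_aeval_apply _ _ g
  have e2 : ∀ g, MvPolynomial.aeval (φ ∘ ξ') g = φ (MvPolynomial.aeval ξ' g) := fun g =>
    (MvPolynomial.comp_aeval_apply _ _ g).symm
  obtain ⟨hm, hf, d', hc, hd'⟩ := hg (φ ∘ ξ') (fun g hg => by
    rw [e2, show MvPolynomial.aeval ξ' g = 0 from Subtype.ext ((e1 g).trans ((hξ g).2 hg)),
      map_zero]) (by
    have : MvPolynomial.aeval ξ' h * ⟨_, hS (.inr rfl)⟩ = 1 := Subtype.ext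
      ((congrArg (· * _) (e1 h)).trans (mul_inv_cancel₀ fun h0 => hh ((hξ h).1 h0)))
    rw [e2]
    exact left_ne_zero_of_mul_eq_one ((map_mul φ _ _).symm.trans ((congrArg φ this).trans
      (map_one φ))))
  have := H A (fun a ha => hS (.inl (.inl ha))) φ (pol ξ') fun i => pol_map _ _ i
  rw [show (fun i => (pol ξ' i).map (φ : A →+* k)) = pol (φ ∘ ξ') from
    funext fun i => pol_map _ _ i] at this
  exact ⟨hF, this.2.2.2 hf, _, (this.2.1.uniq hn hm hd').symm ▸ hc, hd⟩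

/-- `der_sec`, `ev_dF`. -/
theorem generic_gn (hV : SmoothVar I) (hP : P ∈ (eqs I e).minimalPrimes)
    (hξ : ∀ g, MvPolynomial.aeval ξ g = 0 ↔ g ∈ P) (hF : IsMap I e (pol ξ))
    (hf : Free I e (pol ξ)) {p : Option E} (hp : p = none ∨ p = some 0) :
    Gn I (ev e p (pol ξ)) := by
  intro v hv
  obtain ⟨G, h1, h2, h3⟩ := hf p v hv
  obtain ⟨D, rfl⟩ := der_sec hV hP hξ hF hf (G := G) ⟨h1, h2⟩
  refine ⟨D, 0, fun i => ?_⟩
  rw [zero_mul, add_zero, ← h3]
  exact congrFun (ev_dF _ D hp) i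

/-- A basis of `sec I e (pol ξ)` (`AntiK.rank_sec`), `der_sec`, `not_cod`. -/
theorem generic_rank (hV : SmoothVar I) (hn : Dim I n k) (hP : P ∈ (eqs I e).minimalPrimes)
    (hξ : ∀ g, MvPolynomial.aeval ξ g = 0 ↔ g ∈ P) (hF : IsMap I e (pol ξ))
    (hf : Free I e (pol ξ)) (hd : AntiK I n e (pol ξ) d) :
    ¬Cod ⊤ (Ann k (Set.range ξ)) (d + n) := by
  obtain ⟨_, hr⟩ := hd.rank_sec hV hn hF hf
  let b := Module.finBasis E (sec I e (pol ξ))
  choose D hD using fun l => der_sec hV hP hξ hF hf (b l).2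
  rw [show d + n = (finrank E (sec I e (pol ξ)) : ℤ) - 1 by omega]
  refine not_cod D (fun _ => trivial) fun w hw => funext (Fintype.linearIndependent_iff.1
    b.linearIndependent w (Subtype.ext ?_))
  have : dF (pol ξ) (∑ l, w l • D l) = 0 := by
    funext i
    ext j
    change (∑ l, w l • D l) ((pol ξ i).coeff j) = 0
    rcases lt_or_ge e j with h | h
    · rw [coeff_eq_zero_of_natDegree_lt ((pol_deg ξ i).trans_lt h), map_zero]
    · exact hw _ ⟨_, (pol_coeff ξ i ⟨j, Nat.lt_succ_of_le h⟩).symm⟩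
  rw [map_sum] at this
  simpa [hD] using this

end

end Pool.Agent.Lib.MP_41050a_ag.NK
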