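import Pool.Agent.Lib.MP_41050a_ag.NK.Base

/-! Newton polygons. -/

namespace Pool.Agent.Lib.MP_41050a_ag.NK

open Polynomial Module

set_option linter.unusedSectionVars false

noncomputable section

variable {k : Type} [Field k] [IsAlgClosed k] [CharZero k] {N n : ℕ} {I : Ideal (Pk k N)}
  {Λ : Type} [Field Λ] [Algebra k Λ]
  {O K : Type} [CommRing O] [IsDomain O] [ValuationRing O] [Algebra k O] [Field K] [IsAlgClosed K]
  [Algebra O K] [IsFractionRing O K] {red : O →ₐ[k] Λ}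

theorem Res.not_unit (hr : Res red) {a : O} (h : red a = 0) : ¬IsUnit a :=
  fun hu => (hu.map red).ne_zero h

theorem newt1_root (K : Type) [Field K] [IsAlgClosed K] [Algebra O K] [IsFractionRing O K]
    {f : O[X]} (h : f.natDegree ≠ 0) : ∃ r : K, aeval r f = 0 :=
  IsAlgClosed.exists_aeval_eq_zero_of_injective K (IsFractionRing.injective O K) f
    (fun h' => h (natDegree_eq_of_degree_eq_some h'))

theorem newt1_fac (K : Type) [Field K] [IsAlgClosed K] [Algebra O K] [IsFractionRing O K]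
    (hr : Res red) {f : O[X]} (h : f.natDegree ≠ 0) :
    ∃ L g : O[X], f = L * g ∧ g.natDegree < f.natDegree ∧
      ((∃ a, L = X - C a) ∨ L.map (red : O →+* Λ) = 1) := by
  obtain ⟨r, hr0⟩ := newt1_root K h
  have key : ∀ (p : O[X]) (a : O), aeval (algebraMap O K a) p = 0 → ∃ g, p = (X - C a) * g ∧
      g.natDegree ≤ p.natDegree - 1 := by
    intro p a ha
    rw [aeval_algebraMap_apply, map_eq_zero_iff _ (IsFractionRing.injective O K),
      coe_aeval_eq_eval] at ha
    refine ⟨p /ₘ (X - C a), (mul_divByMonic_eq_iff_isRoot.2 ha).symm, ?_⟩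
    rw [natDegree_divByMonic _ (monic_X_sub_C a), natDegree_X_sub_C]
  by_cases h1 : IsLocalization.IsInteger O r
  · obtain ⟨a, rfl⟩ := h1
    obtain ⟨g, hg, hd⟩ := key f a hr0
    exact ⟨_, g, hg, by omega, Or.inl ⟨a, rfl⟩⟩
  · obtain ⟨ρ, hρ⟩ := (ValuationRing.isInteger_or_isInteger O r).resolve_left h1
    have hne : r ≠ 0 := fun h0 => h1 ⟨0, by simp [h0]⟩
    have hred : red ρ = 0 := by
      by_contra h0
      obtain ⟨u, hu⟩ := (hr.unit ρ h0).exists_right_inv
      refine h1 ⟨u, ?_⟩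
      have := congrArg (algebraMap O K) hu
      rw [map_mul, map_one, hρ] at this
      field_simp at this
      exact this
    let _ := invertibleOfNonzero hne
    have h2 : aeval (algebraMap O K ρ) f.reverse = 0 := by
      rw [hρ, ← invOf_eq_inv, aeval_def, eval₂_reverse_eq_zero_iff]
      exact hr0
    obtain ⟨g, hg, hd⟩ := key _ ρ h2
    have hd' : g.natDegree ≤ f.natDegree - 1 := hd.trans (Nat.sub_le_sub_right (reverse_natDegree_le f) 1)
    refine ⟨reflect 1 (X - C ρ), reflect (f.natDegree - 1) g, ?_, ?_, Or.inr ?_⟩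
    · rw [← reflect_mul _ _ (natDegree_X_sub_C_le ρ) hd', ← hg, reverse,
        show 1 + (f.natDegree - 1) = f.natDegree by omega, reflect_reflect]
    · have := natDegree_reflect_le (N := f.natDegree - 1) (p := g)
      omega
    · rw [reflect_sub, reflect_C, reflect_one_X]
      simp [hred]

/-- Induction on the degree. Let `r ∈ K` be a root. If `r ∈ O` divide by `X - r`. Otherwise
`ρ = r⁻¹ ∈ O` has `red ρ = 0` and `f = (1 - ρ X) f₁` with `f₁` over `O` (the coefficients of `f₁`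
satisfy `c (j + 1) = a (j + 1) + ρ c j`; or use `reverse`). -/
theorem Res.root (K : Type) [Field K] [IsAlgClosed K] [Algebra O K] [IsFractionRing O K]
    (hr : Res red) {f : O[X]} (h0 : f.map (red : O →+* Λ) ≠ 0) {b : Λ}
    (hb : (f.map (red : O →+* Λ)).eval b = 0) : ∃ a : O, red a = b ∧ f.eval a = 0 := by
  induction hn : f.natDegree using Nat.strong_induction_on generalizing f with
  | _ n ih =>
  by_cases h : f.natDegree = 0
  · rw [eq_C_of_natDegree_eq_zero h, map_C] at h0 hb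
    rw [eval_C] at hb
    exact absurd (by rw [hb, C_0]) h0
  obtain ⟨L, g, hf, hd, hL⟩ := newt1_fac K hr h
  by_cases h1 : (L.map (red : O →+* Λ)).eval b = 0
  · rcases hL with ⟨a, rfl⟩ | hL
    · refine ⟨a, ?_, by rw [hf]; simp⟩
      exact (sub_eq_zero.1 (by simpa using h1)).symm
    · simp [hL] at h1
  · rw [hf, Polynomial.map_mul] at h0 hb
    rw [eval_mul] at hb
    obtain ⟨a, ha, hg⟩ := ih _ (hn ▸ hd) (right_ne_zero_of_mul h0)
      ((mul_eq_zero.1 hb).resolve_left h1) rfl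
    exact ⟨a, ha, by rw [hf, eval_mul, hg, mul_zero]⟩

/-- Lift a monic polynomial; a root in `K` is integral over `O`. -/
theorem Res.algClosed (K : Type) [Field K] [IsAlgClosed K] [Algebra O K] [IsFractionRing O K]
    (hr : Res red) : IsAlgClosed Λ := by
  refine IsAlgClosed.of_exists_root _ fun p hp hi => ?_
  obtain ⟨q, hq, hd, hm⟩ := lifts_and_natDegree_eq_and_monic
    (mem_lifts_of_surjective (f := (red : O →+* Λ)) hr.surj p) hp
  obtain ⟨r, hr0⟩ := newt1_root K (f := q) (hd ▸ hi.natDegree_pos.ne')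
  obtain ⟨a, rfl⟩ := IsIntegrallyClosed.isIntegral_iff.1 (⟨q, hm, hr0⟩ : IsIntegral O r)
  rw [aeval_algebraMap_apply, map_eq_zero_iff _ (IsFractionRing.injective O K),
    coe_aeval_eq_eval] at hr0
  exact ⟨(red : O →+* Λ) a, by rw [← hq, eval_map, eval₂_hom, hr0, map_zero]⟩

/-- A finite family in a valuation ring has a member that divides all others. -/
theorem newt_min {α : Type} (s : Finset α) (hs : s.Nonempty) (f : α → O) :
    ∃ a ∈ s, ∀ b ∈ s, f a ∣ f b := by
  induction hs using Finset.Nonempty.cons_induction with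
  | singleton a => exact ⟨a, by simp, by simp⟩
  | cons a s ha hs ih =>
    obtain ⟨b, hb, h⟩ := ih
    rcases ValuationRing.dvd_total (f a) (f b) with e | e
    · exact ⟨a, Finset.mem_cons_self _ _, fun c hc =>
        (Finset.mem_cons.1 hc).elim (fun e' => e' ▸ dvd_rfl) fun hc => e.trans (h c hc)⟩
    · exact ⟨b, Finset.mem_cons_of_mem hb, fun c hc =>
        (Finset.mem_cons.1 hc).elim (fun e' => e' ▸ e) (h c)⟩

theorem newt2_root (K : Type) [Field K] [IsAlgClosed K] [Algebra O K] [IsFractionRing O K] (c : O)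
    {m : ℕ} (hm : 0 < m) : ∃ r : O, r ^ m = c := by
  obtain ⟨z, hz⟩ := IsAlgClosed.exists_pow_nat_eq (algebraMap O K c) hm
  obtain ⟨r, rfl⟩ := IsIntegrallyClosed.exists_algebraMap_eq_of_isIntegral_pow (R := O) (x := z) hm
    (hz ▸ isIntegral_algebraMap)
  exact ⟨r, IsFractionRing.injective O K (by rw [map_pow, hz])⟩

/-- One step along the Newton polygon. -/
theorem Res.step (K : Type) [Field K] [IsAlgClosed K] [Algebra O K] [IsFractionRing O K]
    (hr : Res red) {ι : Type} [Fintype ι] (T : ι → O[X]) (μ : ι → ℕ)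
    (h : ∀ i j, j < μ i → red ((T i).coeff j) = 0) (h0 : ∃ i j, j < μ i ∧ (T i).coeff j ≠ 0) :
    ∃ (σ : O) (T' : ι → O[X]), σ ≠ 0 ∧ red σ = 0 ∧
      (∀ i, (T i).comp (C σ * X) = C σ ^ μ i * T' i) ∧
      (∀ i, (rd red T' i).natDegree ≤ μ i ∧ (rd red T' i).coeff (μ i) = (rd red T i).coeff (μ i)) ∧
      ∃ i j, j < μ i ∧ (rd red T' i).coeff j ≠ 0 := by
  choose r e using fun p : (i : ι) × Fin (μ i) =>
    newt2_root K ((T p.1).coeff p.2) (Nat.sub_pos_of_lt p.2.2)
  obtain ⟨i0, j0, l0, n0⟩ := h0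
  obtain ⟨p, -, hp⟩ := newt_min Finset.univ ⟨⟨i0, j0, l0⟩, Finset.mem_univ _⟩ r
  have s0 : r p ≠ 0 := fun z => n0 (by
    rw [← e ⟨i0, j0, l0⟩, zero_dvd_iff.1 (z ▸ hp ⟨i0, j0, l0⟩ (Finset.mem_univ _) : 0 ∣ r ⟨i0, j0, l0⟩),
      zero_pow (Nat.sub_pos_of_lt l0).ne'])
  have r0 : red (r p) = 0 := pow_eq_zero_iff (Nat.sub_pos_of_lt p.2.2).ne' |>.1 (by
    rw [← map_pow, e, h _ _ p.2.2])
  have dv : ∀ i, C (r p) ^ μ i ∣ (T i).comp (C (r p) * X) := fun i => by
    rw [← C_pow, C_dvd_iff_dvd_coeff]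
    intro j
    rw [comp_C_mul_X_coeff]
    rcases lt_or_ge j (μ i) with l | l
    · rw [← e ⟨i, j, l⟩]
      refine dvd_trans (by rw [← pow_add, Nat.sub_add_cancel l.le])
        (mul_dvd_mul_right (pow_dvd_pow_of_dvd (hp ⟨i, j, l⟩ (Finset.mem_univ _)) (μ i - j)) _)
    · exact (pow_dvd_pow _ l).mul_left _
  choose T' e' using dv
  have ec : ∀ i j, (T i).coeff j * r p ^ j = r p ^ μ i * (T' i).coeff j := fun i j => by
    rw [← comp_C_mul_X_coeff, e', ← C_pow, coeff_C_mul]
  have eg : ∀ i d, (T' i).coeff (μ i + d) = (T i).coeff (μ i + d) * r p ^ d := fun i d =>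
    mul_left_cancel₀ (pow_ne_zero (μ i) s0) (by rw [← ec]; ring)
  refine ⟨r p, T', s0, r0, e', fun i => ⟨natDegree_le_iff_coeff_eq_zero.2 fun j l => ?_, ?_⟩,
    p.1, p.2, p.2.2, ?_⟩
  · obtain ⟨d, rfl⟩ := Nat.exists_eq_add_of_lt l
    simp [rd, add_assoc, eg, r0]
  · simpa [rd] using congrArg red (eg i 0)
  · have : (T' p.1).coeff p.2 = 1 := mul_left_cancel₀ (pow_ne_zero (μ p.1) s0) (by
      rw [← ec, ← e p, ← pow_add, Nat.sub_add_cancel p.2.2.le, mul_one])
    simp [rd, this]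

/-- Clear denominators, then divide by a coefficient that divides all others. -/
theorem Res.norm (hr : Res red) {ι : Type} [Fintype ι] {T : ι → K[X]} (h0 : T ≠ 0) :
    ∃ (c : K) (T' : ι → O[X]), c ≠ 0 ∧ (∀ i, (T' i).map (algebraMap O K) = C c * T i) ∧
      rd red T' ≠ 0 := by
  classical
  obtain ⟨b, hb⟩ := IsLocalization.exist_integer_multiples_of_finset (nonZeroDivisors O)
    (Finset.univ.biUnion fun i => (T i).coeffs)
  choose! g hg using hb
  obtain ⟨i0, n0⟩ := Function.ne_iff.1 h0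
  have mem : ∀ i j, (T i).coeff j ≠ 0 →
      (T i).coeff j ∈ Finset.univ.biUnion fun i => (T i).coeffs := fun i j h =>
    Finset.mem_biUnion.2 ⟨i, Finset.mem_univ _, coeff_mem_coeffs h⟩
  obtain ⟨a, ha, hd⟩ := newt_min _ ⟨_, mem i0 _ (leadingCoeff_ne_zero.2 n0)⟩ g
  obtain ⟨i1, -, h1⟩ := Finset.mem_biUnion.1 ha
  obtain ⟨j1, s1, e1⟩ := mem_coeffs_iff.1 h1
  have a0 : a ≠ 0 := e1 ▸ mem_support_iff.1 s1
  have b0 : algebraMap O K b ≠ 0 := IsFractionRing.to_map_ne_zero_of_mem_nonZeroDivisors b.2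
  have lf : ∀ i, ∃ q : O[X], q.map (algebraMap O K) = C a⁻¹ * T i := fun i => by
    refine (mem_lifts _).1 ((lifts_iff_coeff_lifts _).2 fun j => ?_)
    rw [coeff_C_mul]
    by_cases z : (T i).coeff j = 0
    · exact ⟨0, by rw [z, mul_zero, map_zero]⟩
    obtain ⟨u, hu⟩ := hd _ (mem i j z)
    have := hg _ (mem i j z)
    rw [hu, map_mul, hg a ha, Algebra.smul_def, Algebra.smul_def, mul_assoc] at this
    exact ⟨u, by rw [← mul_left_cancel₀ b0 this, inv_mul_cancel_left₀ a0]⟩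
  choose T' e using lf
  refine ⟨a⁻¹, T', inv_ne_zero a0, e, fun z => ?_⟩
  have : (T' i1).coeff j1 = 1 := IsFractionRing.injective O K (by
    rw [← coeff_map, e, coeff_C_mul, ← e1, inv_mul_cancel₀ a0, map_one])
  simpa [rd, this] using congrArg (fun F => (F i1).coeff j1) z

end

end Pool.Agent.Lib.MP_41050a_ag.NK
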