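import Pool.Agent.Lib.MP_41050a_ag.NK.Base

/-! Pluecker vectors. -/

namespace Pool.Agent.Lib.MP_41050a_ag.NK

open Polynomial Module

set_option linter.unusedSectionVars false

noncomputable section

variable {k : Type} [Field k] [IsAlgClosed k] [CharZero k] {N n : ℕ} {I : Ideal (Pk k N)}
  {R S : Type} [CommRing R] [Algebra k R] [CommRing S] [Algebra k S] {x v : V R N}
  {π π' : Jx n N → R}

theorem plk1_ind (hV : Cone I) (L : Pk k N →+ R)
    (h : ∀ Φ ∈ I, ∀ d, Φ.IsHomogeneous d → L Φ = 0) : ∀ Φ ∈ I, L Φ = 0 := fun Φ hΦ => by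
  rw [← MvPolynomial.sum_homogeneousComponent Φ, map_sum]
  exact Finset.sum_eq_zero fun d _ =>
    h _ (hV.hom Φ hΦ d) d (MvPolynomial.homogeneousComponent_isHomogeneous d Φ)

theorem plk1_tg (hV : Cone I) (h : ∀ Φ ∈ I, ∀ d, Φ.IsHomogeneous d →
    ∑ i, MvPolynomial.aeval x (MvPolynomial.pderiv i Φ) * v i = 0) : Tg I x v :=
  plk1_ind hV (AddMonoidHom.mk'
    (fun Φ => ∑ i, MvPolynomial.aeval x (MvPolynomial.pderiv i Φ) * v i) fun a b => by
      simp only [map_add, add_mul, Finset.sum_add_distrib]) h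

theorem plk1_smul {Φ : Pk k N} {d : ℕ} (hd : Φ.IsHomogeneous d) (c : R) :
    ∑ i, MvPolynomial.aeval (c • x) (MvPolynomial.pderiv i Φ) * v i =
      c ^ (d - 1) * ∑ i, MvPolynomial.aeval x (MvPolynomial.pderiv i Φ) * v i := by
  simp only [aev_smul hd.pderiv, Finset.mul_sum, mul_assoc]

theorem tg_smul_left (hV : Cone I) (h : Tg I x v) (c : R) : Tg I (c • x) v := by
  exact plk1_tg hV fun Φ hΦ d hd => by rw [plk1_smul hd, h Φ hΦ, mul_zero]

theorem tg_of_smul_left [IsDomain R] (hV : Cone I) {c : R} (hc : c ≠ 0) (h : Tg I (c • x) v) :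
    Tg I x v := by
  refine plk1_tg hV fun Φ hΦ d hd => ?_
  have e := h Φ hΦ
  rw [plk1_smul hd] at e
  exact (mul_eq_zero.1 e).resolve_left (pow_ne_zero _ hc)

theorem tg_of_smul [IsDomain R] {c : R} (hc : c ≠ 0) (h : Tg I x (c • v)) : Tg I x v := by
  intro Φ hΦ
  have e := h Φ hΦ
  simp only [Pi.smul_apply, smul_eq_mul, mul_left_comm _ c, ← Finset.mul_sum] at e
  exact (mul_eq_zero.1 e).resolve_left hc

theorem on_of_smul [IsDomain R] (hV : Cone I) {c : R} (hc : c ≠ 0) (h : On I (c • x)) :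
    On I x := by
  refine plk1_ind hV (AddMonoidHom.mk' (MvPolynomial.aeval x) (map_add _)) fun Φ hΦ d hd => ?_
  have e := h Φ hΦ
  rw [aev_smul hd] at e
  exact (mul_eq_zero.1 e).resolve_left (pow_ne_zero _ hc)

/-- Euler's identity. -/
theorem euler_tg (hV : Cone I) (h : On I x) : Tg I x x := by
  refine plk1_tg hV fun Φ hΦ d hd => ?_
  have e := congrArg (MvPolynomial.aeval x) hd.sum_X_mul_pderiv
  rw [map_nsmul, h Φ hΦ, smul_zero, map_sum] at e
  simpa only [map_mul, MvPolynomial.aeval_X, mul_comm] using e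

theorem mn_map (φ : R →+* S) (G : Fin (n + 1) → V R N) (T : Jx n N) :
    φ (mn G T) = mn (fun j i => φ (G j i)) T := φ.map_det _

theorem mn_mul (B : Matrix (Fin (n + 1)) (Fin (n + 1)) R) (G : Fin (n + 1) → V R N) (T : Jx n N) :
    mn (fun l i => ∑ j, B l j * G j i) T = B.det * mn G T :=
  Matrix.det_mul B (Matrix.of fun j l => G j (T l))

theorem plk2_cr (G : Fin (n + 1) → V R N) (T : Jx n N) : cr (mn G) T =
    fun l i => ∑ j, (Matrix.of fun j l => G j (T l)).adjugate l j * G j i := by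
  funext l i
  refine Eq.trans (congrArg Matrix.det ?_) (congrFun
    (Matrix.cramer_eq_adjugate_mulVec (Matrix.of fun j l => G j (T l)) fun j => G j i) l)
  ext j m
  simp only [Matrix.of_apply, Matrix.updateCol_apply, Function.update_apply, apply_ite (G j)]

theorem pl_mn {G : Fin (n + 1) → V R N} (h : ∀ j, Tg I x (G j)) : Pl I x (mn G) := by
  refine ⟨fun S l => ?_, fun S T => ?_⟩
  · have e : cr (mn G) S l = ∑ j, (Matrix.of fun j l => G j (S l)).adjugate l j • G j := by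
      rw [plk2_cr]
      exact funext fun i => by rw [Finset.sum_apply]; rfl
    exact e ▸ Finset.sum_induction _ _ (fun _ _ => Tg.add) Tg.zero fun j _ => (h j).smul _
  · rw [plk2_cr, mn_mul, Matrix.det_adjugate, Fintype.card_fin]
    rfl

theorem Pl.map (h : Pl I x π) (φ : R →ₐ[k] S) : Pl I (φ ∘ x) (φ ∘ π) :=
  ⟨fun S l => (h.tg S l).map φ, fun S T => (mn_map φ.toRingHom (cr π S) T).symm.trans <| by
    rw [h.rel, map_mul, map_pow]
    rfl⟩

theorem Pl.of_map {φ : R →ₐ[k] S} (hφ : Function.Injective φ) (h : Pl I (φ ∘ x) (φ ∘ π)) :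
    Pl I x π :=
  ⟨fun S l => .of_map hφ (h.tg S l), fun S T => hφ <| (mn_map φ.toRingHom _ T).trans <| by
    rw [map_mul, map_pow]
    exact h.rel S T⟩

theorem plk2_smul (c : R) (π : Jx n N → R) (S T : Jx n N) :
    mn (cr (c • π) S) T = c ^ (n + 1) * mn (cr π S) T :=
  (Matrix.det_smul (Matrix.of fun j l => cr π S j (T l)) c).trans (by rw [Fintype.card_fin]; rfl)

theorem Pl.smul (hV : Cone I) (h : Pl I x π) (a c : R) : Pl I (a • x) (c • π) :=
  ⟨fun S l => tg_smul_left hV ((h.tg S l).smul c) a, fun S T => by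
    rw [plk2_smul, h.rel, Pi.smul_apply, Pi.smul_apply, smul_eq_mul, smul_eq_mul]
    ring⟩

theorem Pl.of_smul [IsDomain R] (hV : Cone I) {a c : R} (ha : a ≠ 0) (hc : c ≠ 0)
    (h : Pl I (a • x) (c • π)) : Pl I x π :=
  ⟨fun S l => tg_of_smul hc (tg_of_smul_left hV ha (h.tg S l)), fun S T =>
    mul_left_cancel₀ (pow_ne_zero (n + 1) hc) <| by
      rw [← plk2_smul, h.rel, Pi.smul_apply, Pi.smul_apply, smul_eq_mul, smul_eq_mul]
      ring⟩

section

variable {E : Type} [Field E] [Algebra k E]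

/-- If the rows are independent, the columns span, so some `n + 1` columns form a basis. -/
theorem mn_ne_zero {G : Fin (n + 1) → V E N} : mn G ≠ 0 ↔ LinearIndependent E G := by
  constructor
  · intro h
    obtain ⟨T, hT⟩ := Function.ne_iff.1 h
    have h1 := Matrix.linearIndependent_rows_iff_isUnit.2
      ((Matrix.isUnit_iff_isUnit_det _).2 (isUnit_iff_ne_zero.2 hT))
    exact LinearIndependent.of_comp (LinearMap.funLeft E E T) h1
  · intro h h0
    have h1 : (Matrix.of G).rank = n + 1 :=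
      (LinearIndependent.rank_matrix (M := Matrix.of G) h).trans (Fintype.card_fin _)
    obtain ⟨κ, a, ha, hs, hl⟩ := exists_linearIndependent' E (Matrix.of G).col
    have := Finite.of_injective a ha
    have := Fintype.ofFinite κ
    rw [Matrix.rank_eq_finrank_span_cols, ← hs, finrank_span_eq_card hl] at h1
    let e := (Fintype.equivFinOfCardEq h1).symm
    have h2 : LinearIndependent E (Matrix.of fun j l => G j (a (e l))).col := hl.comp e e.injective
    exact ((Matrix.isUnit_iff_isUnit_det _).1 (Matrix.linearIndependent_cols_iff_isUnit.1 h2)).ne_zero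
      (congrFun h0 fun l => a (e l))

/-- If `π T ≠ 0` then `cr π T` is a basis of the tangent space; use `mn_mul`. -/
theorem pl_uniq {x : V E N} {π π' : Jx n N → E} (hx : finrank E (tsp I x) = n + 1) (h : Pl I x π)
    (h' : Pl I x π') (h0 : π ≠ 0) (h0' : π' ≠ 0) : ∃ c : E, c ≠ 0 ∧ π' = c • π := by
  obtain ⟨T, hT⟩ := Function.ne_iff.1 h0
  obtain ⟨U, hU⟩ := Function.ne_iff.1 h0'
  replace hT : π T ≠ 0 := hT
  replace hU : π' U ≠ 0 := hU
  have h1 : LinearIndependent E (cr π T) := mn_ne_zero.1 (Function.ne_iff.2 ⟨T, by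
    rw [h.rel]; exact mul_ne_zero (pow_ne_zero _ hT) hT⟩)
  have h2 : Submodule.span E (Set.range (cr π T)) = tsp I x :=
    Submodule.eq_of_le_of_finrank_eq (Submodule.span_le.2 (by rintro _ ⟨l, rfl⟩; exact h.tg T l))
      (by rw [finrank_span_eq_card h1, hx, Fintype.card_fin])
  have h3 (l) : ∃ b : Fin (n + 1) → E, ∑ j, b j • cr π T j = cr π' U l :=
    (Submodule.mem_span_range_iff_exists_fun E).1 (h2 ▸ h'.tg U l)
  choose B hB using h3
  have h4 (W) : π' U ^ n * π' W = (Matrix.of B).det * (π T ^ n * π W) := by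
    rw [← h'.rel, ← h.rel, ← mn_mul]
    congr 1
    funext l i
    rw [← hB]
    simp [Finset.sum_apply]
  have h5 : π' = ((Matrix.of B).det * π T ^ n / π' U ^ n) • π := by
    funext W
    rw [Pi.smul_apply, smul_eq_mul, div_mul_eq_mul_div, eq_div_iff (pow_ne_zero _ hU), mul_comm, h4,
      mul_assoc]
  exact ⟨_, fun h6 => h0' (by rw [h5, h6, zero_smul]), h5⟩

theorem plk3_prod {ι : Type} (f : ι → E[X]) (δ : ι → ℕ) (h : ∀ j, (f j).natDegree ≤ δ j)
    (s : Finset ι) : (∏ j ∈ s, f j).natDegree ≤ ∑ j ∈ s, δ j ∧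
      (∏ j ∈ s, f j).coeff (∑ j ∈ s, δ j) = ∏ j ∈ s, (f j).coeff (δ j) := by
  classical
  induction s using Finset.induction_on with
  | empty => simp
  | insert a s ha ih =>
    simp only [Finset.prod_insert ha, Finset.sum_insert ha]
    exact ⟨natDegree_mul_le.trans (add_le_add (h a) ih.1), by
      rw [coeff_mul_add_eq_of_natDegree_le (h a) ih.1, ih.2]⟩

/-- At infinity: expand the determinant, `natDegree_prod_le`, `coeff_prod_of_natDegree_le` in the
form with different degrees (induction with `coeff_mul_add_eq_of_natDegree_le`). -/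
theorem mn_val {G : Fin (n + 1) → V E[X] N} {δ : Fin (n + 1) → ℕ}
    (h : ∀ j i, (G j i).natDegree ≤ δ j) (T : Jx n N) : (mn G T).natDegree ≤ ∑ j, δ j ∧
      ∀ p, val (∑ j, δ j) p (mn G T) = mn (fun j => ev (δ j) p (G j)) T := by
  have h0 : mn G T = ∑ σ : Equiv.Perm (Fin (n + 1)),
      C ((Equiv.Perm.sign σ : ℤ) : E) * ∏ j, G j (T (σ j)) := by
    rw [mn, ← Matrix.det_transpose, Matrix.det_apply']
    simp
  have h1 (σ : Equiv.Perm (Fin (n + 1))) :=
    plk3_prod (fun j => G j (T (σ j))) δ (fun j => h j _) Finset.univ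
  refine ⟨h0 ▸ natDegree_sum_le_of_forall_le _ _ fun σ _ =>
    (natDegree_C_mul_le _ _).trans (h1 σ).1, fun p => ?_⟩
  cases p with
  | some a => exact mn_map (evalRingHom a) G T
  | none =>
    rw [h0, mn, ← Matrix.det_transpose, Matrix.det_apply', val, finsetSum_coeff]
    refine Finset.sum_congr rfl fun σ _ => ?_
    rw [coeff_C_mul, (h1 σ).2]
    rfl

theorem frame_iff {F : V E[X] N} {G : Fin (n + 1) → V E[X] N} {δ : Fin (n + 1) → ℕ} :
    Frame I n F δ G ↔ (∀ j i, (G j i).natDegree ≤ δ j) ∧ (∀ j, Tg I F (G j)) ∧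
      Bp (∑ j, δ j) (mn G) := by
  have h0 (h : ∀ j i, (G j i).natDegree ≤ δ j) (p) : (∃ T, val (∑ j, δ j) p (mn G T) ≠ 0) ↔
      LinearIndependent E fun j i => val (δ j) p (G j i) := by
    simp only [fun T => (mn_val h T).2 p]
    exact Function.ne_iff.symm.trans mn_ne_zero
  exact ⟨fun h => ⟨h.deg, h.tg, fun T => (mn_val h.deg T).1, fun p => (h0 h.deg p).2 (h.ind p)⟩,
    fun ⟨h1, h2, h3⟩ => ⟨h1, h2, fun p => (h0 h1 p).1 (h3.bpf p)⟩⟩

theorem Par.refl (x : V E N) : Par x x := by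
  exact ⟨1, one_ne_zero, (one_smul _ _).symm⟩

theorem Par.symm {x y : V E N} (h : Par x y) : Par y x := by
  obtain ⟨c, hc, rfl⟩ := h
  exact ⟨c⁻¹, inv_ne_zero hc, (inv_smul_smul₀ hc x).symm⟩

theorem Par.trans {x y z : V E N} (h : Par x y) (h' : Par y z) : Par x z := by
  obtain ⟨c, hc, rfl⟩ := h
  obtain ⟨c', hc', rfl⟩ := h'
  exact ⟨c' * c, mul_ne_zero hc' hc, smul_smul _ _ _⟩

theorem Par.ne {x y : V E N} (h : Par x y) (hx : x ≠ 0) : y ≠ 0 := by
  obtain ⟨c, hc, rfl⟩ := h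
  exact smul_ne_zero hc hx

theorem Par.on (hV : Cone I) {x y : V E N} (h : Par x y) (hx : On I x) : On I y := by
  obtain ⟨c, -, rfl⟩ := h
  exact hx.smul hV c

/-- If `y = a • x` and `v = D x + c x`, use `a⁻¹ • D`. -/
theorem Par.gn (hV : Cone I) {x y : V E N} (h : Par x y) (hx : Gn I x) : Gn I y := by
  obtain ⟨a, ha, rfl⟩ := h
  intro v hv
  obtain ⟨D, c, e⟩ := hx v (tg_of_smul_left hV ha hv)
  refine ⟨a⁻¹ • D, (c - a⁻¹ * D a) * a⁻¹, fun i => ?_⟩
  simp only [e, Pi.smul_apply, smul_eq_mul, Derivation.smul_apply, Derivation.leibniz]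
  field_simp
  ring

end

end

end Pool.Agent.Lib.MP_41050a_ag.NK
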