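import Pool.Agent.Lib.MP_41050a_ag.NK.SecA

/-! Derivations and free curves. -/

namespace Pool.Agent.Lib.MP_41050a_ag.NK

open Polynomial Module

set_option linter.unusedSectionVars false

noncomputable section

variable {k : Type} [Field k] [IsAlgClosed k] [CharZero k] {N n : ℕ} {I : Ideal (Pk k N)}
  {Λ : Type} [Field Λ] [Algebra k Λ] [IsAlgClosed Λ] {e : ℕ} {F : V Λ[X] N} {d : ℤ}

/-- The sections whose value at `p` is a multiple of the value of `F`. -/
def secAt (I : Ideal (Pk k N)) (e : ℕ) (F : V Λ[X] N) (p : Option Λ) : Submodule Λ (V Λ[X] N) where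
  carrier := {G | G ∈ sec I e F ∧ ∃ c : Λ, ev e p G = c • ev e p F}
  zero_mem' := ⟨zero_mem _, 0, funext fun i => by simp [ev, free0_val_zero]⟩
  add_mem' := fun {G H} ⟨hG, c, hc⟩ ⟨hH, c', hc'⟩ => ⟨add_mem hG hH, c + c', by
    rw [add_smul, ← hc, ← hc']
    exact funext fun i => val_add p _ _⟩
  smul_mem' := fun a G ⟨hG, c, hc⟩ => ⟨Submodule.smul_mem _ a hG, a * c, by
    rw [mul_smul, ← hc]
    exact funext fun i => val_smul p _ _⟩

theorem secb1_rank {M Z : Type} [AddCommGroup M] [Module Λ M] [AddCommGroup Z] [Module Λ Z]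
    (g : M →ₗ[Λ] Z) (S : Submodule Λ M) [FiniteDimensional Λ S] :
    finrank Λ (S.map g) + finrank Λ (S ⊓ LinearMap.ker g :) = finrank Λ S := by
  rw [← LinearMap.finrank_range_add_finrank_ker (g.domRestrict S), LinearMap.range_domRestrict,
    LinearMap.ker_domRestrict, ← Submodule.map_comap_subtype, Submodule.finrank_map_subtype_eq]

/-- Evaluation as a linear map. -/
def secb1_ev (e : ℕ) (p : Option Λ) : V Λ[X] N →ₗ[Λ] V Λ N where
  toFun := ev e p
  map_add' _ _ := funext fun _ => val_add p _ _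
  map_smul' _ _ := funext fun _ => val_smul p _ _

/-- Evaluation at `p` maps `sec I e F` (dimension `d + n + 1`) onto the tangent space (dimension
`n + 1`); rank and nullity for the map to the quotient by the line. -/
theorem rank_secAt (hV : SmoothVar I) (hn : Dim I n k) (hF : IsMap I e F) (hf : Free I e F)
    (h : AntiK I n e F d) (p : Option Λ) :
    FiniteDimensional Λ (secAt I e F p) ∧ (finrank Λ (secAt I e F p) : ℤ) = d + 1 := by
  obtain ⟨hfin, hr⟩ := h.rank_sec hV hn hF hf
  let L : Submodule Λ (V Λ N) := Submodule.span Λ {ev e p F}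
  have hL : L ≤ tsp I (ev e p F) :=
    (Submodule.span_singleton_le_iff_mem _ _).2 (euler_tg hV.toCone (On.val hV hF p))
  have hm : (sec I e F).map (secb1_ev e p) = tsp I (ev e p F) := by
    refine le_antisymm ?_ fun v hv => ?_
    · rintro _ ⟨G, hG, rfl⟩
      exact tg_val hV.toCone hF.deg hG.1 hG.2 p
    · obtain ⟨G, h1, h2, h3⟩ := hf p v hv
      exact ⟨G, ⟨h1, h2⟩, funext h3⟩
  have hk : sec I e F ⊓ LinearMap.ker (L.mkQ ∘ₗ secb1_ev e p) = secAt I e F p := by
    ext G
    simp only [Submodule.mem_inf, LinearMap.mem_ker, LinearMap.comp_apply, Submodule.mkQ_apply,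
      Submodule.Quotient.mk_eq_zero, L, Submodule.mem_span_singleton]
    exact and_congr_right fun _ => exists_congr fun c => eq_comm
  have h1 := secb1_rank (L.mkQ ∘ₗ secb1_ev e p) (sec I e F)
  have h2 := secb1_rank L.mkQ (tsp I (ev e p F))
  rw [hk, Submodule.map_comp, hm] at h1
  rw [Submodule.ker_mkQ, inf_eq_right.2 hL, finrank_span_singleton (ev_ne hF p),
    rank_ev hV hn hF] at h2
  exact ⟨Submodule.finiteDimensional_of_le (S₂ := sec I e F) fun G hG => hG.1, by omega⟩

theorem secb1_self (hV : SmoothVar I) (hF : IsMap I e F) (p : Option Λ) : F ∈ secAt I e F p :=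
  ⟨⟨hF.deg, euler_tg hV.toCone hF.on⟩, 1, (one_smul _ _).symm⟩

theorem secb1_co (f : Λ[X]) (m : ℕ) : (X * derivative f).coeff m = m * f.coeff m := by
  cases m with
  | zero => simp
  | succ m => simp [coeff_X_mul, coeff_derivative, mul_comm]

theorem secb1_eul (hF : IsMap I e F) {p : Option Λ} (hp : p = none ∨ p = some 0) :
    (fun i => X * derivative (F i)) ∈ secAt I e F p := by
  refine ⟨⟨fun i => natDegree_le_iff_coeff_eq_zero.2 fun m hm => ?_, (deriv_tg hF.on).smul X⟩, ?_⟩
  · rw [secb1_co, coeff_eq_zero_of_natDegree_lt ((hF.deg i).trans_lt hm), mul_zero]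
  · rcases hp with rfl | rfl
    · exact ⟨e, funext fun i => secb1_co _ _⟩
    · exact ⟨0, funext fun i => by simp [ev, val]⟩

theorem secb1_st (hF : IsMap I e F) {p : Option Λ} (hp : p = none ∨ p = some 0) (D : Dr k Λ) :
    dF F D ∈ secAt I e F p ↔ D ∈ St k (ev e p F) := by
  refine (and_iff_right (dF_sec hF D)).trans (exists_congr fun c => ?_)
  rw [ev_dF F D hp]
  exact funext_iff

theorem secb1_cod (hV : SmoothVar I) (hn : Dim I n k) (h : Curve I n e F d) (hf : Free I e F)
    {p p' : Option Λ} (hp : p = none ∨ p = some 0) (hp' : p' = none ∨ p' = some 0) :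
    Cod (St k (ev e p F)) (St k (ev e p' F)) (d - 1) := by
  obtain ⟨hfin, hr⟩ := rank_secAt hV hn h.map hf h.deg p
  have hle : secAt I e F p ⊓ secAt I e F p' ≤ secAt I e F p := inf_le_left
  have := Submodule.finiteDimensional_of_le hle
  refine cod_of_map (dF F) hle (fun D hD => (secb1_st h.map hp D).2 hD)
    (fun D _ hD => (secb1_st h.map hp' D).1 hD.2) ?_
  have h2 := Submodule.finrank_mono (t := secAt I e F p ⊓ secAt I e F p')
    (s := Submodule.span Λ (Set.range ![F, fun i => X * derivative (F i)])) (Submodule.span_le.2 (by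
      rintro _ ⟨j, rfl⟩
      fin_cases j
      · exact ⟨secb1_self hV h.map p, secb1_self hV h.map p'⟩
      · exact ⟨secb1_eul h.map hp, secb1_eul h.map hp'⟩))
  rw [finrank_span_eq_card (ind_euler h.map h.pos), Fintype.card_fin] at h2
  omega

/-- `cod_of_map` for `dF F`, `T = secAt p`, `T' = secAt p ⊓ secAt p'`, which contains `F` and
`X F'` (`ind_euler`). -/
theorem cod_curve (hV : SmoothVar I) (hn : Dim I n k) (h : Curve I n e F d) (hf : Free I e F) :
    Cod (St k (ev e none F)) (St k (ev e (some 0) F)) (d - 1) ∧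
      Cod (St k (ev e (some 0) F)) (St k (ev e none F)) (d - 1) := by
  exact ⟨secb1_cod hV hn h hf (.inl rfl) (.inr rfl), secb1_cod hV hn h hf (.inr rfl) (.inl rfl)⟩

/-- `cod_of_map` for `dF F`, `T' = span {F}`: if `dF F D = c • F`, the coefficient `1` gives
`c = 0`. -/
theorem cod_cfs (hV : SmoothVar I) (hn : Dim I n k) (hF : IsMap I e F) (hf : Free I e F)
    (h : AntiK I n e F d) {i : Fin (N + 1)} (h1 : (F i).coeff e = 1) :
    Cod ⊤ (Ann k (cfs F)) (d + n) ∧ Cod (St k (ev e (some 0) F)) (Ann k (cfs F)) d := by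
  obtain ⟨hfin, hr⟩ := h.rank_sec hV hn hF hf
  obtain ⟨hfin', hr'⟩ := rank_secAt hV hn hF hf h (some 0)
  have h0 : F ≠ 0 := fun h0 => by simp [h0] at h1
  have hs := secb1_self hV hF (some 0)
  have key (D : Dr k Λ) (hD : dF F D ∈ Submodule.span Λ {F}) : D ∈ Ann k (cfs F) := by
    obtain ⟨c, hc⟩ := Submodule.mem_span_singleton.1 hD
    have h2 : (c • F i).coeff e = D ((F i).coeff e) := congrArg (fun G => (G i).coeff e) hc
    rw [coeff_smul, h1, smul_eq_mul, mul_one, D.map_one_eq_zero] at h2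
    rw [h2, zero_smul] at hc
    exact mem_ann_cfs.2 fun j => (congrFun hc j).symm
  refine ⟨cod_of_map (dF F) ((Submodule.span_singleton_le_iff_mem _ _).2 hs.1)
    (fun D _ => dF_sec hF D) (fun D _ => key D) ?_,
    cod_of_map (dF F) ((Submodule.span_singleton_le_iff_mem _ _).2 hs)
    (fun D hD => (secb1_st hF (.inr rfl) D).2 hD) (fun D _ => key D) ?_⟩ <;>
  · rw [finrank_span_singleton h0]
    omega

/-- Take a non-zero `q ∈ 𝔟` with least `rootMultiplicity b`; if `q = (X - b) ^ r * q₁` with `0 < r`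
then `dP D q = (X - b) ^ (r - 1) * (-r * q₁ + (X - b) * dP D q₁)`. -/
theorem stable_ideal {D : Dr k Λ} {b : Λ} (hb : D b = 1) {𝔟 : Ideal Λ[X]} (h0 : 𝔟 ≠ ⊥)
    (h : ∀ q ∈ 𝔟, dP D q ∈ 𝔟) : ∃ q ∈ 𝔟, q.eval b ≠ 0 := by
  have := charZero_of_injective_algebraMap (algebraMap k Λ).injective
  by_contra hc
  have hz (q) (hq : q ∈ 𝔟) : q.eval b = 0 := not_not.1 fun h0 => hc ⟨q, hq, h0⟩
  have hX : dP D (X - C b) = -1 := by
    ext j
    rw [dP_coeff]
    rcases j with _ | _ | j <;> simp [coeff_X, coeff_C, coeff_one, hb]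
  have key (r : ℕ) : ∀ q ∈ 𝔟, (X - C b) ^ (r + 1) ∣ q := by
    induction r with
    | zero => exact fun q hq => by rw [zero_add, pow_one]; exact dvd_iff_isRoot.2 (hz q hq)
    | succ r ih =>
      intro q hq
      obtain ⟨s, rfl⟩ := ih q hq
      have h1 := ih _ (h _ hq)
      have h2 : dP D ((X - C b) ^ (r + 1) * s) =
          (X - C b) ^ r * ((X - C b) * dP D s - ((r + 1 : ℕ) : Λ[X]) * s) := by
        rw [Derivation.leibniz, Derivation.leibniz_pow, hX]
        simp only [smul_eq_mul, nsmul_eq_mul, Nat.add_sub_cancel]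
        ring
      rw [h2, pow_succ, mul_dvd_mul_iff_left (pow_ne_zero _ (X_sub_C_ne_zero b)),
        dvd_iff_isRoot] at h1
      have h3 : s.eval b = 0 := by
        have : ((r + 1 : ℕ) : Λ) ≠ 0 := Nat.cast_ne_zero.2 r.succ_ne_zero
        simp only [IsRoot, eval_sub, eval_mul, eval_X, eval_C, sub_self, zero_mul, zero_sub,
          neg_eq_zero, eval_natCast] at h1
        exact (mul_eq_zero.1 h1).resolve_left this
      rw [pow_succ _ (r + 1)]
      exact mul_dvd_mul_left _ (dvd_iff_isRoot.2 h3)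
  refine h0 ((Submodule.eq_bot_iff _).2 fun q hq => ?_)
  refine eq_zero_of_dvd_of_natDegree_lt (key q.natDegree q hq) ?_
  simp [natDegree_pow]

theorem secb2_tg {D : Dr k Λ} (hD : ∀ i, dP D (F i) = 0) {H : V Λ[X] N} (h : Tg I F H) :
    Tg I F fun i => dP D (H i) := fun Φ hΦ => by
  have h0 : ∀ p : Pk k N, dP D (MvPolynomial.aeval F p) = 0 := fun p => by
    induction p using MvPolynomial.induction_on with
    | C a => rw [MvPolynomial.aeval_C, Derivation.map_algebraMap]
    | add p q hp hq => rw [map_add, map_add, hp, hq, add_zero]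
    | mul_X p i hp =>
      rw [map_mul, MvPolynomial.aeval_X, Derivation.leibniz, hp, hD, smul_zero, smul_zero, add_zero]
  have := congrArg (dP D) (h Φ hΦ)
  simpa only [map_sum, Derivation.leibniz, h0, smul_zero, add_zero, smul_eq_mul, map_zero,
    mul_zero] using this

theorem secb2_stab {D : Dr k Λ} (hD : ∀ i, dP D (F i) = 0) {G : V Λ[X] N}
    (h : G ∈ Submodule.span Λ[X] (insert F (Set.range (dF (k := k) F)))) :
    (fun i => dP D (G i)) ∈ Submodule.span Λ[X] (insert F (Set.range (dF (k := k) F))) := by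
  induction h using Submodule.span_induction with
  | mem G h =>
    rcases h with rfl | ⟨D', rfl⟩
    · rw [funext hD]
      exact zero_mem _
    · refine Submodule.subset_span (Or.inr ⟨⁅D, D'⁆, funext fun i => Polynomial.ext fun j => ?_⟩)
      have h1 : D ((F i).coeff j) = 0 := congrArg (coeff · j) (hD i)
      change ⁅D, D'⁆ ((F i).coeff j) = D (D' ((F i).coeff j))
      rw [Derivation.commutator_apply, h1, map_zero, sub_zero]
  | zero =>
    simp only [Pi.zero_apply, map_zero]
    exact zero_mem _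
  | add G H _ _ hG hH =>
    simp only [Pi.add_apply, map_add]
    exact add_mem hG hH
  | smul q G h hG =>
    simp only [Pi.smul_apply, smul_eq_mul, Derivation.leibniz, mul_comm (G _)]
    exact add_mem (Submodule.smul_mem _ q hG) (Submodule.smul_mem _ (dP D q) h)

theorem secb2_val {D : Dr k Λ} (hD : ∀ i, dP D (F i) = 0) {b : Λ} (hb : D b = 1) {G : V Λ[X] N}
    (h : G ∈ Submodule.span Λ[X] (insert F (Set.range (dF (k := k) F)))) :
    ∃ (D' : Dr k Λ) (c : Λ), ∀ i, (G i).eval b = D' ((F i).eval b) + c * (F i).eval b := by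
  induction h using Submodule.span_induction with
  | mem G h =>
    rcases h with rfl | ⟨D', rfl⟩
    · exact ⟨0, 1, fun i => by simp⟩
    · refine ⟨D' - D' b • D, 0, fun i => ?_⟩
      change (dP D' (F i)).eval b = _
      rw [Derivation.sub_apply, Derivation.smul_apply, dP_eval D', dP_eval D, hD, hb, eval_zero,
        smul_eq_mul]
      ring
  | zero => exact ⟨0, 0, fun i => by simp⟩
  | add G H _ _ hG hH =>
    obtain ⟨D₁, c₁, h₁⟩ := hG
    obtain ⟨D₂, c₂, h₂⟩ := hH
    refine ⟨D₁ + D₂, c₁ + c₂, fun i => ?_⟩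
    rw [Pi.add_apply, eval_add, h₁, h₂, Derivation.add_apply]
    ring
  | smul q G _ hG =>
    obtain ⟨D₁, c₁, h₁⟩ := hG
    refine ⟨q.eval b • D₁, q.eval b * c₁, fun i => ?_⟩
    rw [Pi.smul_apply, smul_eq_mul, eval_mul, h₁, Derivation.smul_apply, smul_eq_mul]
    ring

theorem secb2_ne (hV : SmoothVar I) (hn : Dim I n k) (hF : IsMap I e F) (h : Gn I (ev e none F)) :
    ∃ q : Λ[X], q ≠ 0 ∧ ∀ H, Tg I F H →
      q • H ∈ Submodule.span Λ[X] (insert F (Set.range (dF (k := k) F))) := by
  let B := finBasisOfFinrankEq Λ _ (rank_ev hV hn hF none)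
  choose D c hD using fun j => h _ (B j).2
  let G : Fin (n + 1) → V Λ[X] N := fun j => dF F (D j) + c j • F
  have hG : ∀ j, G j ∈ sec I e F := fun j =>
    add_mem (dF_sec hF _) (Submodule.smul_mem _ _ ⟨hF.deg, euler_tg hV.toCone hF.on⟩)
  have h1 : (fun j => ev e none (G j)) = fun j => (B j).1 := funext fun j => funext fun i => by
    rw [hD]
    change (dP (D j) (F i) + c j • F i).coeff e = _
    rw [coeff_add, coeff_smul]
    rfl
  have h2 : mn (fun j => ev e none (G j)) ≠ 0 := by
    rw [h1]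
    exact mn_ne_zero.2 (B.linearIndependent.map' (tsp I _).subtype (Submodule.ker_subtype _))
  obtain ⟨T, hT⟩ := Function.ne_iff.1 h2
  have h3 : mn G T ≠ 0 := fun h0 => hT (by
    rw [← (mn_val (δ := fun _ => e) (fun j => (hG j).1) T).2 none, h0]
    rfl)
  refine ⟨mn G T, h3, fun H hH => ?_⟩
  have h4 : mn G T • H = ∑ j, mn (Function.update G j H) T • G j := funext fun i => by
    rw [Finset.sum_apply]
    exact cramer_tg hn hF (fun j => (hG j).2) (Function.ne_iff.2 ⟨T, h3⟩) hH T i
  rw [h4]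
  exact sum_mem fun j _ => Submodule.smul_mem _ _ (add_mem (Submodule.subset_span (Or.inr ⟨_, rfl⟩))
    (Submodule.smul_of_tower_mem _ _ (Submodule.subset_span (Or.inl rfl))))

/-- A transcendental point of a curve through a generic point is generic. -/
theorem Gn.root (hV : SmoothVar I) (hn : Dim I n k) (hF : IsMap I e F) (h : Gn I (ev e none F))
    {b : Λ} (hb : ¬Ann k (cfs F) ≤ Ann k {b}) : Gn I (ev e (some b) F) := by
  obtain ⟨D₁, h₁, h₂⟩ := SetLike.not_le_iff_exists.1 hb
  have h₃ : D₁ b ≠ 0 := fun h0 => h₂ fun a ha => ha ▸ h0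
  have hD := mem_ann_cfs.1 (Submodule.smul_mem _ (D₁ b)⁻¹ h₁)
  have h1 : ((D₁ b)⁻¹ • D₁) b = 1 := inv_mul_cancel₀ h₃
  generalize (D₁ b)⁻¹ • D₁ = D at hD h1
  let 𝔟 : Ideal Λ[X] :=
    { carrier := {q | ∀ H, Tg I F H →
        q • H ∈ Submodule.span Λ[X] (insert F (Set.range (dF (k := k) F)))}
      zero_mem' := fun H _ => by
        rw [zero_smul]
        exact zero_mem _
      add_mem' := fun h h' H hH => by
        rw [add_smul]
        exact add_mem (h H hH) (h' H hH)
      smul_mem' := fun c q h H hH => by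
        rw [smul_assoc]
        exact Submodule.smul_mem _ c (h H hH) }
  obtain ⟨q, hq, h0⟩ := stable_ideal (𝔟 := 𝔟) h1 ((Submodule.ne_bot_iff _).2
    ((secb2_ne hV hn hF h).imp fun _ => And.symm)) fun q hq H hH => by
      have := sub_mem (secb2_stab hD (hq H hH)) (hq _ (secb2_tg hD hH))
      refine Eq.mp (congrArg (· ∈ _) (funext fun i => ?_)) this
      simp only [Pi.sub_apply, Pi.smul_apply, smul_eq_mul, Derivation.leibniz]
      ring
  intro v hv
  obtain ⟨H, hH, h4⟩ := exists_tg_eval hV hn hF b hv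
  obtain ⟨D', c, h5⟩ := secb2_val hD h1 (hq H hH)
  refine ⟨(q.eval b)⁻¹ • D', (q.eval b)⁻¹ * c, fun i => ?_⟩
  have := h5 i
  rw [Pi.smul_apply, smul_eq_mul, eval_mul, h4] at this
  rw [Derivation.smul_apply, smul_eq_mul, mul_assoc, ← mul_add, eq_inv_mul_iff_mul_eq₀ h0]
  exact this

end

end Pool.Agent.Lib.MP_41050a_ag.NK
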