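import Pool.Agent.Lib.MP_41050a_ag.NK.Chn
import Pool.Agent.Lib.MP_41050a_ag.NK.Newt

/-! Changes of the coordinate on the line; the vertices of the limit tree. -/

namespace Pool.Agent.Lib.MP_41050a_ag.NK

open Polynomial Module

set_option linter.unusedSectionVars false

noncomputable section

variable {k : Type} [Field k] [IsAlgClosed k] [CharZero k] {N n : ℕ} {I : Ideal (Pk k N)}
  {Λ : Type} [Field Λ] [Algebra k Λ]
  {O K : Type} [CommRing O] [IsDomain O] [Algebra k O] [Field K] [Algebra O K]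
  [IsFractionRing O K] {red : O →ₐ[k] Λ} {F F' : V O[X] N} {π π' : Jx n N → O[X]}

theorem tps1_comp (hV : On I F ∧ Pl I F π) (q : O[X]) :
    On I (fun i => (F i).comp q) ∧ Pl I (fun i => (F i).comp q) fun S => (π S).comp q := by
  have e : ∀ {ι : Type} (T : ι → O[X]),
      (aeval (R := O) q).restrictScalars k ∘ T = fun i => (T i).comp q :=
    fun T => funext fun i => (comp_eq_aeval ..).symm
  exact ⟨e F ▸ hV.1.map _, e F ▸ e π ▸ hV.2.map _⟩

/-- `On.map`, `Pl.map` for `(aeval (X + C a)).restrictScalars k`; `aeval_comp`. -/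
theorem TP.shift (h : TP K I n F π) (a : O) :
    TP K I n (fun i => (F i).comp (X + C a)) fun S => (π S).comp (X + C a) := by
  obtain ⟨h1, h2⟩ := tps1_comp ⟨h.on, h.pl⟩ (X + C a)
  exact ⟨h1, fun b => (h.bF _).imp fun i hi => (aeval_comp ..).trans_ne hi,
    fun b => (h.bP _).imp fun i hi => (aeval_comp ..).trans_ne hi, h2⟩

theorem tps1_zoom {ι : Type} {T T' : ι → O[X]} {σ : O} {μ : ℕ} (h : ∀ a : K, ∃ i, aeval a (T i) ≠ 0)
    (h1 : ∀ i, (T i).comp (C σ * X) = C σ ^ μ * T' i) (a : K) : ∃ i, aeval a (T' i) ≠ 0 :=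
  (h (aeval a (C σ * X))).imp fun i hi e => hi (by rw [← aeval_comp, h1, map_mul, e, mul_zero])

/-- `on_of_smul`, `Pl.of_smul`. -/
theorem TP.zoom (hV : Cone I) (h : TP K I n F π) {σ : O} (hσ : σ ≠ 0) {μ ν : ℕ}
    (h1 : ∀ i, (F i).comp (C σ * X) = C σ ^ μ * F' i)
    (h2 : ∀ S, (π S).comp (C σ * X) = C σ ^ ν * π' S) : TP K I n F' π' := by
  obtain ⟨h3, h4⟩ := tps1_comp ⟨h.on, h.pl⟩ (C σ * X)
  rw [funext h1] at h3
  rw [funext h1, funext h2] at h4
  have h0 := C_ne_zero.2 hσ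
  exact ⟨on_of_smul hV (pow_ne_zero μ h0) h3, tps1_zoom h.bF h1, tps1_zoom h.bP h2,
    Pl.of_smul hV (pow_ne_zero μ h0) (pow_ne_zero ν h0) h4⟩

theorem tps1_rev {L : Type} [Field L] [Algebra O L] {x : L} (hx : x ≠ 0) {e : ℕ} {f : O[X]}
    (h : f.natDegree ≤ e) : aeval x (reflect e f) = x ^ e * aeval x⁻¹ f := by
  let _ := invertibleOfNonzero (inv_ne_zero hx)
  have := eval₂_reflect_mul_pow (algebraMap O L) x⁻¹ e f h
  rw [invOf_eq_inv, inv_inv] at this
  rw [aeval_def, aeval_def, ← this, mul_left_comm, ← mul_pow, mul_inv_cancel₀ hx, one_pow, mul_one]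

theorem tps1_ne {ι : Type} {T : ι → O[X]} {e : ℕ} (h : ∀ a : K, ∃ i, aeval a (T i) ≠ 0)
    (h1 : ∀ i, (T i).natDegree ≤ e) (h3 : ∃ i, (T i).coeff e ≠ 0) (a : K) :
    ∃ i, aeval a (reflect e (T i)) ≠ 0 := by
  rcases eq_or_ne a 0 with rfl | ha
  · refine h3.imp fun i hi => ?_
    rw [← coeff_zero_eq_aeval_zero', coeff_reflect, revAt_zero]
    exact (map_ne_zero_iff _ (IsFractionRing.injective O K)).2 hi
  · exact (h a⁻¹).imp fun i hi => (tps1_rev ha (h1 i)).trans_ne (mul_ne_zero (pow_ne_zero _ ha) hi)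

/-- In `L = FractionRing O[X]` with `t` the image of `X`, the image of `reflect e f` is
`t ^ e * aeval t⁻¹ f` (`Polynomial.eval₂_reflect_mul_pow` or `reflect_C_mul_X_pow`). Use `On.map`,
`On.smul`, `On.of_map` and `Pl.map`, `Pl.smul`, `Pl.of_map`. -/
theorem TP.rev (hV : Cone I) (h : TP K I n F π) {e p : ℕ} (h1 : ∀ i, (F i).natDegree ≤ e)
    (h2 : ∀ S, (π S).natDegree ≤ p) (h3 : ∃ i, (F i).coeff e ≠ 0) (h4 : ∃ S, (π S).coeff p ≠ 0) :
    TP K I n (fun i => reflect e (F i)) fun S => reflect p (π S) := by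
  let t := algebraMap O[X] (FractionRing O[X]) X
  let φ := IsScalarTower.toAlgHom k O[X] (FractionRing O[X])
  have hφ : Function.Injective φ := IsFractionRing.injective O[X] _
  have e1 : ∀ {ι : Type} (T : ι → O[X]) (d : ℕ), (∀ i, (T i).natDegree ≤ d) →
      (φ ∘ fun i => reflect d (T i)) = t ^ d • ((aeval (R := O) t⁻¹).restrictScalars k ∘ T) :=
    fun T d hd => funext fun i => (aeval_algebraMap_apply _ X _).trans
      (congrArg _ (aeval_X_left_apply _)) |>.symm.trans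
        (tps1_rev ((map_ne_zero_iff φ hφ).2 X_ne_zero) (hd i))
  exact ⟨On.of_map hφ (e1 F e h1 ▸ (h.on.map _).smul hV _), tps1_ne h.bF h1 h3, tps1_ne h.bP h2 h4,
    Pl.of_map hφ (e1 F e h1 ▸ e1 π p h2 ▸ (h.pl.map _).smul hV _ _)⟩

/-- `Polynomial.mapAlgHom red`. -/
theorem TP.resid (h : TP K I n F π) (red : O →ₐ[k] Λ) :
    On I (rd red F) ∧ Pl I (rd red F) (rd red π) := by
  exact ⟨h.on.map (mapAlgHom red), h.pl.map (mapAlgHom red)⟩

theorem rd_shift {ι : Type} (T : ι → O[X]) (a : O) :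
    rd red (fun i => (T i).comp (X + C a)) = fun i => (rd red T i).comp (X + C (red a)) := by
  funext i
  simp [rd, map_comp]

theorem rd_rev {ι : Type} (T : ι → O[X]) (e : ℕ) :
    rd red (fun i => reflect e (T i)) = fun i => reflect e (rd red T i) := by
  exact funext fun i => (reflect_map ..).symm

/-- `T i = (X - b) ^ μ * T' i` with `T' i` a non-zero constant. -/
theorem Ord.full {ι : Type} {T : ι → Λ[X]} {b : Λ} {μ : ℕ} {y : ι → Λ} (h : Ord T b μ y) {i : ι}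
    (hd : (T i).natDegree ≤ μ) (h0 : (T i).coeff μ ≠ 0) (hz : (T i).coeff 0 = 0) : b = 0 := by
  obtain ⟨-, T', hT, -⟩ := h
  have hne : T' i ≠ 0 := fun h' => h0 (by rw [hT, h', mul_zero, coeff_zero])
  rw [hT, ((monic_X_sub_C b).pow μ).natDegree_mul' hne, natDegree_pow, natDegree_X_sub_C] at hd
  have hc := eq_C_of_natDegree_eq_zero (show (T' i).natDegree = 0 by omega)
  rw [hT, coeff_zero_eq_eval_zero, hc] at hz
  have h1 : (T' i).coeff 0 ≠ 0 := fun h' => hne (by rw [hc, h', map_zero])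
  have h2 : b = 0 ∧ ¬μ = 0 := by simpa [h1] using hz
  exact h2.1

theorem Ord.root {ι : Type} {T : ι → Λ[X]} {b : Λ} {μ : ℕ} {y : ι → Λ} (h : Ord T b μ y)
    (hμ : 0 < μ) {i : ι} (hi : y i ≠ 0) : T i ≠ 0 ∧ (T i).eval b = 0 := by
  obtain ⟨-, T', hT, hy⟩ := h
  refine ⟨?_, by simp [hT, hμ.ne']⟩
  rw [hT]
  exact mul_ne_zero (pow_ne_zero _ (X_sub_C_ne_zero b)) fun h' => hi (by rw [← hy, h', eval_zero])

theorem ev_zero {ι : Type} {T : ι → Λ[X]} (h : ∀ i, (T i).natDegree ≤ 0) (p p' : Option Λ) :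
    ev 0 p T = ev 0 p' T := by
  have key : ∀ q i, val 0 q (T i) = (T i).coeff 0 := by
    intro q i
    cases q with
    | none => rfl
    | some a =>
      rw [eq_C_of_natDegree_le_zero (h i)]
      simp [val]
  funext i
  exact (key p i).trans (key p' i).symm

/-- A vertex of the limit tree: the map `f` and the base points with their multiplicities. -/
structure Vx (I : Ideal (Pk k N)) (n : ℕ) (F : V Λ[X] N) (π : Jx n N → Λ[X]) (μ ν : ℕ)
    (f : V Λ[X] N) (e p : ℕ) (s : Finset Λ) (m m' : Λ → ℕ) : Prop where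
  fac : ∀ i, F i = (∏ b ∈ s, (X - C b) ^ m b) * f i
  map : IsMap I e f
  deg : AntiK I n e f ((n + 1) * e - p)
  top : ∀ i, (f i).coeff e = (F i).coeff μ
  mu : μ = e + ∑ b ∈ s, m b
  nu : ν = p + ∑ b ∈ s, m' b
  zero : e = 0 → p = 0
  mem : 0 ∈ s
  ord : ∀ b, ∃ y z, Ord F b (m b) y ∧ Par y (ev e (some b) f) ∧ Ord π b (m' b) z

/-- `exists_prim` for `F` and for `π`, `s = insert 0 (s₀ ∪ s₀')`; `on_of_smul`, `Pl.of_smul`,
`Pr.antiK`, `antiK_zero`. -/
theorem vertex [IsAlgClosed Λ] (hV : SmoothVar I) (hn : Dim I n k) {F : V Λ[X] N}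
    {π : Jx n N → Λ[X]} {μ ν : ℕ} (h1 : On I F) (h2 : Pl I F π) (h3 : ∀ i, (F i).natDegree ≤ μ)
    (h4 : ∀ S, (π S).natDegree ≤ ν) (h5 : ∃ i, (F i).coeff μ ≠ 0) (h6 : ∃ S, (π S).coeff ν ≠ 0) :
    ∃ f e p s m m', Vx I n F π μ ν f e p s m m' := by
  classical
  obtain ⟨g, f, e, m, s₀, hg, hF, hb, ht, ho, hs⟩ := exists_prim h3 h5
  obtain ⟨g', ρ, p, m', s₁, hg', hπ, hb', -, ho', hs'⟩ := exists_prim h4 h6
  have e1 : F = g • f := _root_.funext hF
  have e2 : π = g' • ρ := _root_.funext hπ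
  have hm : IsMap I e f := ⟨hb.deg, on_of_smul hV.toCone hg.ne_zero (e1 ▸ h1), hb.bpf⟩
  have hd : AntiK I n e f ((n + 1) * e - p) :=
    Pr.antiK hn ⟨hm, hb', Pl.of_smul hV.toCone hg.ne_zero hg'.ne_zero (e1 ▸ e2 ▸ h2)⟩
  have a1 := hs (insert 0 (s₀ ∪ s₁)) (Finset.subset_union_left.trans (Finset.subset_insert _ _))
  have a2 := hs' (insert 0 (s₀ ∪ s₁)) (Finset.subset_union_right.trans (Finset.subset_insert _ _))
  refine ⟨f, e, p, _, m, m', fun i => a1.2 ▸ hF i, hm, hd, ht, a1.1, a2.1, ?_,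
    Finset.mem_insert_self _ _, fun b => ?_⟩
  · rintro rfl
    simpa using antiK_zero hV hn hm hd
  · obtain ⟨u, hu, h⟩ := ho b
    obtain ⟨u', -, h'⟩ := ho' b
    exact ⟨_, _, h, Par.symm ⟨u, hu, rfl⟩, h'⟩

/-- The content is the degree of the vertex plus the contents of the base points. -/
theorem Vx.sum [DecidableEq Λ] {F : V Λ[X] N} {π : Jx n N → Λ[X]} {μ ν : ℕ} {f : V Λ[X] N}
    {e p : ℕ} {s : Finset Λ} {m m' : Λ → ℕ} (h : Vx I n F π μ ν f e p s m m') :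
    ((n : ℤ) + 1) * μ - ν = ((n + 1) * e - p) + ((n + 1) * m 0 - m' 0) +
      ∑ b ∈ s.erase 0, (((n : ℤ) + 1) * m b - m' b) := by
  rw [h.mu, h.nu, ← Finset.add_sum_erase _ _ h.mem, ← Finset.add_sum_erase _ _ h.mem,
    Finset.sum_sub_distrib, ← Finset.mul_sum]
  push_cast
  ring

/-- For `0 < e` use `Chain.cons`, for `e = 0` the degree is zero (`ev_zero`). -/
theorem Vx.chain [IsAlgClosed Λ] {F : V Λ[X] N} {π : Jx n N → Λ[X]} {μ ν : ℕ} {f : V Λ[X] N}
    {e p : ℕ} {s : Finset Λ} {m m' : Λ → ℕ} (h : Vx I n F π μ ν f e p s m m') {y x : V Λ N} {κ : ℤ}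
    (hp : Par y (ev e (some 0) f)) (hc : Chain I n y x κ) :
    Chain I n (ev e none f) x ((n + 1) * e - p + κ) := by
  have hc' := hc.par_left hp.symm
  rcases Nat.eq_zero_or_pos e with rfl | he
  · rw [h.zero rfl, ev_zero h.map.deg none (some 0)]
    simpa using hc'
  · exact Chain.cons ⟨he, h.map, h.deg⟩ (Par.refl _) hc'

end

end Pool.Agent.Lib.MP_41050a_ag.NK
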