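import Pool.Agent.Lib.MP_41050a_ag.NK.TPs

/-! The limit tree. -/

namespace Pool.Agent.Lib.MP_41050a_ag.NK

open Polynomial Module

set_option linter.unusedSectionVars false

noncomputable section

variable {k : Type} [Field k] [IsAlgClosed k] [CharZero k] {N n : ℕ} {I : Ideal (Pk k N)}
  {Λ : Type} [Field Λ] [Algebra k Λ] [IsAlgClosed Λ]
  {O K : Type} [CommRing O] [IsDomain O] [ValuationRing O] [Algebra k O] [Field K] [IsAlgClosed K]
  [Algebra O K] [IsFractionRing O K] {red : O →ₐ[k] Λ} {F : V O[X] N} {π : Jx n N → O[X]}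
  {μ ν : ℕ} {y : V Λ N} {z : Jx n N → Λ}

/-- One step into the tree. -/
structure Zm (K : Type) [Field K] [Algebra O K] (red : O →ₐ[k] Λ) (I : Ideal (Pk k N)) (n : ℕ)
    (F : V O[X] N) (π : Jx n N → O[X]) (μ ν : ℕ) (y : V Λ N) (z : Jx n N → Λ) (σ : O)
    (F' : V O[X] N) (π' : Jx n N → O[X]) (f : V Λ[X] N) (e p : ℕ) (s : Finset Λ)
    (m m' : Λ → ℕ) : Prop where
  ne : σ ≠ 0
  rz : red σ = 0
  eF : ∀ i, (F i).comp (C σ * X) = C σ ^ μ * F' i
  eP : ∀ S, (π S).comp (C σ * X) = C σ ^ ν * π' S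
  tp : TP K I n F' π'
  vx : Vx I n (rd red F') (rd red π') μ ν f e p s m m'
  dF : ∀ i, (rd red F' i).natDegree ≤ μ ∧ (rd red F' i).coeff μ = y i
  dP : ∀ S, (rd red π' S).natDegree ≤ ν ∧ (rd red π' S).coeff ν = z S
  top : ev e none f = y
  lt : m 0 + m' 0 < μ + ν

theorem tree1_le {F : V Λ[X] N} {π : Jx n N → Λ[X]} {f : V Λ[X] N} {e p : ℕ} {s : Finset Λ}
    {m m' : Λ → ℕ} (h : Vx I n F π μ ν f e p s m m') {c : Λ} (hc : c ∈ s) : m c ≤ μ ∧ m' c ≤ ν :=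
  ⟨h.mu ▸ le_add_left (Finset.single_le_sum (fun _ _ => Nat.zero_le _) hc),
    h.nu ▸ le_add_left (Finset.single_le_sum (fun _ _ => Nat.zero_le _) hc)⟩

theorem tree1_zero {f g : O[X]} {σ : O} (h : f.comp (C σ * X) = C σ ^ μ * g) :
    f.coeff 0 = σ ^ μ * g.coeff 0 := by
  rw [← coeff_C_mul, C_pow, ← h, comp_C_mul_X_coeff, pow_zero, mul_one]

theorem tree1_root (K : Type) [Field K] [IsAlgClosed K] [Algebra O K] [IsFractionRing O K]
    (hr : Res red) {ι : Type} {T : ι → O[X]} {b : Λ} {y : ι → Λ} (h : Ord (rd red T) b μ y)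
    (hμ : 0 < μ) : ∃ a i, red a = b ∧ y i ≠ 0 ∧ (T i).eval a = 0 := by
  obtain ⟨i, hi⟩ := Function.ne_iff.1 h.1
  obtain ⟨a, h1, h2⟩ := hr.root K (h.root hμ hi).1 (h.root hμ hi).2
  exact ⟨a, i, h1, hi, h2⟩

theorem tree1_full {ι : Type} {T : ι → O[X]} {c w : Λ} {y : ι → Λ} (h : Ord (rd red T) c μ y)
    {i : ι} (hd : (rd red T i).natDegree ≤ μ ∧ (rd red T i).coeff μ = w) (hw : w ≠ 0) {σ a : O}
    (hσ : σ ≠ 0) {f : O[X]} (h0 : f.eval a = 0)
    (e : (f.comp (X + C a)).comp (C σ * X) = C σ ^ μ * T i) : c = 0 := by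
  have e0 := tree1_zero e
  rw [coeff_zero_eq_eval_zero, eval_comp, eval_add, eval_X, eval_C, zero_add, h0] at e0
  refine h.full hd.1 (hd.2 ▸ hw) ?_
  simp [rd, (mul_eq_zero.1 e0.symm).resolve_left (pow_ne_zero _ hσ)]

/-- One step of the Newton polygon at zero. -/
theorem zoom_step (hV : SmoothVar I) (hn : Dim I n k) (hr : Res red) (h : TP K I n F π)
    (h1 : Ord (rd red F) 0 μ y) (h2 : Ord (rd red π) 0 ν z) (hpos : 0 < μ + ν) :
    ∃ σ F' π' f e p s m m', Zm K red I n F π μ ν y z σ F' π' f e p s m m' := by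
  obtain ⟨y0, a1, b1⟩ := ord_zero_iff.1 h1
  obtain ⟨z0, a2, b2⟩ := ord_zero_iff.1 h2
  have n0 : ∀ f : O[X], aeval (0 : K) f ≠ 0 → f.coeff 0 ≠ 0 := fun f hf e =>
    hf (by rw [← coeff_zero_eq_aeval_zero', e, map_zero])
  obtain ⟨σ, T, s0, r0, e, d, l⟩ := hr.step K (Sum.elim F π) (Sum.elim (fun _ => μ) fun _ => ν)
    (Sum.rec (fun i j l => by simpa [rd] using a1 i j l) fun i j l => by simpa [rd] using a2 i j l)
    ((Nat.add_pos_iff_pos_or_pos.1 hpos).elim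
      (fun l => (h.bF 0).elim fun i hi => ⟨.inl i, 0, l, n0 _ hi⟩)
      fun l => (h.bP 0).elim fun i hi => ⟨.inr i, 0, l, n0 _ hi⟩)
  have tp := h.zoom hV.toCone s0 (fun i => e (.inl i)) fun S => e (.inr S)
  have dF := fun i => And.intro (d (.inl i)).1 ((d (.inl i)).2.trans (b1 i))
  have dP := fun i => And.intro (d (.inr i)).1 ((d (.inr i)).2.trans (b2 i))
  obtain ⟨f, e', p, s, m, m', vx⟩ := vertex hV hn (tp.resid red).1 (tp.resid red).2
    (fun i => (dF i).1) (fun i => (dP i).1)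
    ((Function.ne_iff.1 y0).imp fun i hi => (dF i).2.trans_ne hi)
    ((Function.ne_iff.1 z0).imp fun i hi => (dP i).2.trans_ne hi)
  refine ⟨σ, _, _, f, e', p, s, m, m', s0, r0, fun i => e (.inl i), fun S => e (.inr S), tp, vx,
    dF, dP, funext fun i => (vx.top i).trans (dF i).2, ?_⟩
  obtain ⟨y', z', o1, -, o2⟩ := vx.ord 0
  obtain ⟨l1, l2⟩ := tree1_le vx vx.mem
  obtain ⟨i | i, j, l, nz⟩ := l
  · exact Nat.add_lt_add_of_lt_of_le
      (lt_of_le_of_lt (not_lt.1 fun c => nz ((ord_zero_iff.1 o1).2.1 i j c)) l) l2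
  · exact Nat.add_lt_add_of_le_of_lt l1
      (lt_of_le_of_lt (not_lt.1 fun c => nz ((ord_zero_iff.1 o2).2.1 i j c)) l)

/-- The same at an arbitrary point. -/
theorem zoom_at (hV : SmoothVar I) (hn : Dim I n k) (hr : Res red) (h : TP K I n F π) {b : Λ}
    (h1 : Ord (rd red F) b μ y) (h2 : Ord (rd red π) b ν z) (hpos : 0 < μ + ν) :
    ∃ F' π' f e p s m m', TP K I n F' π' ∧ Vx I n (rd red F') (rd red π') μ ν f e p s m m' ∧
      ev e none f = y ∧ ∀ c ∈ s, m c + m' c < μ + ν := by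
  obtain ⟨a, rfl, ha⟩ : ∃ a, red a = b ∧
      ((∃ i, y i ≠ 0 ∧ (F i).eval a = 0) ∨ ∃ S, z S ≠ 0 ∧ (π S).eval a = 0) :=
    (Nat.add_pos_iff_pos_or_pos.1 hpos).elim
      (fun l => let ⟨a, i, e1, e2⟩ := tree1_root K hr h1 l; ⟨a, e1, .inl ⟨i, e2⟩⟩)
      fun l => let ⟨a, i, e1, e2⟩ := tree1_root K hr h2 l; ⟨a, e1, .inr ⟨i, e2⟩⟩
  obtain ⟨σ, F', π', f, e, p, s, m, m', Z⟩ := zoom_step hV hn hr (h.shift a)
    (rd_shift (red := red) F a ▸ h1.shift) (rd_shift (red := red) π a ▸ h2.shift) hpos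
  refine ⟨F', π', f, e, p, s, m, m', Z.tp, Z.vx, Z.top, fun c hc => not_le.1 fun l => ?_⟩
  obtain ⟨l1, l2⟩ := tree1_le Z.vx hc
  obtain ⟨y', z', o1, -, o2⟩ := Z.vx.ord c
  rw [show m c = μ by omega] at o1
  rw [show m' c = ν by omega] at o2
  obtain rfl : c = 0 := ha.elim
    (fun ⟨i, e1, e2⟩ => tree1_full o1 (Z.dF i) e1 Z.ne e2 (Z.eF i))
    fun ⟨i, e1, e2⟩ => tree1_full o2 (Z.dP i) e1 Z.ne e2 (Z.eP i)
  exact Z.lt.not_ge l

/-- Strong induction on `μ + ν` (for all `F π b μ ν y z`); `zoom_at`, `Vx.sum`. If `0 < e` the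
curve is `f`. If `e = 0` some `c ∈ s` has `0 < m c + m' c`; take its curve (`ev_zero`). -/
theorem tail (hV : SmoothVar I) (hn : Dim I n k) (hl : Low I n Λ 1) (hr : Res red)
    (h : TP K I n F π) {b : Λ} (h1 : Ord (rd red F) b μ y) (h2 : Ord (rd red π) b ν z) :
    0 ≤ ((n : ℤ) + 1) * μ - ν ∧ (0 < μ + ν → ∃ (e : ℕ) (W : V Λ[X] N) (d : ℤ), Curve I n e W d ∧
      Par y (ev e none W) ∧ d ≤ ((n : ℤ) + 1) * μ - ν) := by
  generalize hq : μ + ν = q
  induction q using Nat.strong_induction_on generalizing F π b μ ν y z with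
  | _ q ih =>
  subst hq
  rcases Nat.eq_zero_or_pos (μ + ν) with h0 | hpos
  · obtain ⟨rfl, rfl⟩ : μ = 0 ∧ ν = 0 := by omega
    simp
  obtain ⟨F', π', f, e, p, s, m, m', tp, vx, top, lt⟩ := zoom_at hV hn hr h h1 h2 hpos
  choose y' z' o1 par o2 using vx.ord
  have IH := fun c hc => ih _ (lt c hc) tp (o1 c) (o2 c) rfl
  have hs : ((n : ℤ) + 1) * μ - ν = ((n + 1) * e - p) + ∑ c ∈ s, (((n : ℤ) + 1) * m c - m' c) := by
    rw [Finset.sum_sub_distrib, ← Finset.mul_sum, vx.mu, vx.nu]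
    push_cast
    ring
  have hn0 : 0 ≤ ∑ c ∈ s, (((n : ℤ) + 1) * m c - m' c) :=
    Finset.sum_nonneg fun c hc => (IH c hc).1
  rcases Nat.eq_zero_or_pos e with rfl | he
  · obtain rfl := vx.zero rfl
    refine ⟨by rw [hs]; simpa using hn0, fun _ => ?_⟩
    obtain ⟨c, hc, hc0⟩ : ∃ c ∈ s, 0 < m c + m' c := by
      by_contra hh
      push Not at hh
      have h3 := vx.mu
      have h4 := vx.nu
      rw [Finset.sum_eq_zero fun c hc => by have := hh c hc; omega] at h3 h4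
      omega
    obtain ⟨e', W, d, cW, pW, hd⟩ := (IH c hc).2 hc0
    refine ⟨e', W, d, cW, ?_, ?_⟩
    · rw [← top, ev_zero vx.map.deg none (some c)]
      exact (par c).symm.trans pW
    · have := Finset.single_le_sum (f := fun c => ((n : ℤ) + 1) * m c - m' c)
        (fun c hc => (IH c hc).1) hc
      rw [hs]
      simp only [Nat.cast_zero, mul_zero, sub_zero, zero_add]
      exact hd.trans this
  · have cf : Curve I n e f _ := ⟨he, vx.map, vx.deg⟩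
    have := hl _ _ _ cf
    exact ⟨by linarith, fun _ => ⟨e, f, _, cf, top ▸ Par.refl _, by linarith⟩⟩

/-- `x` has a unit coordinate. -/
theorem Zm.zero (hr : Res red) {σ : O} {F' : V O[X] N} {π' : Jx n N → O[X]} {f : V Λ[X] N}
    {e p : ℕ} {s : Finset Λ} {m m' : Λ → ℕ} (h : Zm K red I n F π μ ν y z σ F' π' f e p s m m')
    {l : O} {x : V O N} (hx : ∀ i, (F i).coeff 0 = l * x i) (hx0 : red ∘ x ≠ 0) :
    ∃ l' : O, ∀ i, (F' i).coeff 0 = l' * x i := by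
  obtain ⟨j, hj⟩ := Function.ne_iff.1 hx0
  obtain ⟨u, hu⟩ := (hr.unit _ hj).exists_right_inv
  refine ⟨(F' j).coeff 0 * u, fun i => mul_left_cancel₀ (pow_ne_zero μ h.ne) ?_⟩
  rw [mul_assoc, ← mul_assoc, ← tree1_zero (h.eF i), ← tree1_zero (h.eF j), hx, hx]
  linear_combination (-l * x i) * hu

/-- Strong induction on `μ + ν`. For `μ = 0` one has `y = red l • (red ∘ x)`. Otherwise
`zoom_step`, `Zm.zero`, `Vx.chain`, `Vx.sum` and `tail` for the other points. -/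
theorem path_weak (hV : SmoothVar I) (hn : Dim I n k) (hl : Low I n Λ 1) (hr : Res red)
    (h : TP K I n F π) {l : O} {x : V O N} (hx : ∀ i, (F i).coeff 0 = l * x i)
    (hx0 : red ∘ x ≠ 0) (h1 : Ord (rd red F) 0 μ y) (h2 : Ord (rd red π) 0 ν z) :
    ∃ κ : ℤ, Chain I n y (red ∘ x) κ ∧ κ ≤ ((n : ℤ) + 1) * μ - ν := by
  classical
  generalize hq : μ + ν = q
  induction q using Nat.strong_induction_on generalizing F π l μ ν y z with
  | _ q ih =>
  subst hq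
  rcases Nat.eq_zero_or_pos μ with rfl | hpos
  · refine ⟨0, Chain.nil ?_, (tail hV hn hl hr h h1 h2).1⟩
    obtain ⟨hy, -, h3⟩ := ord_zero_iff.1 h1
    have h4 : y = red l • (red ∘ x) := by
      funext i
      simp [← h3 i, rd, hx i]
    refine Par.symm ⟨red l, fun h0 => hy ?_, h4⟩
    rw [h4, h0, zero_smul]
  obtain ⟨σ, F', π', f, e, p, s, m, m', zm⟩ := zoom_step hV hn hr h h1 h2 (by omega)
  obtain ⟨l', hl'⟩ := zm.zero hr hx hx0
  choose y' z' o1 par o2 using zm.vx.ord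
  obtain ⟨κ, ch, hκ⟩ := ih _ zm.lt zm.tp hl' (o1 0) (o2 0) rfl
  refine ⟨_, zm.top ▸ zm.vx.chain (par 0) ch, ?_⟩
  have hn0 : 0 ≤ ∑ c ∈ s.erase 0, (((n : ℤ) + 1) * m c - m' c) :=
    Finset.sum_nonneg fun c _ => (tail hV hn hl hr zm.tp (o1 c) (o2 c)).1
  rw [zm.vx.sum]
  linarith

/-- No induction. `zoom_step`. If some `c ≠ 0` in `s` has `0 < m c + m' c`, its content is at
least `1` (`tail`): second case by `path_weak` at the new vertex. Otherwise `μ = e + m 0`,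
`ν = p + m' 0`, so `0 < e` by `Zm.lt`. If `m 0 = 0` then `rd red F' = f`: first case. If `0 < m 0`
let `κ ≥ 0` be given by `path_weak`: third case for `0 < κ`, second case for `κ = 0` (`tail`). -/
theorem path (hV : SmoothVar I) (hn : Dim I n k) (hl : Low I n Λ 1) (hr : Res red)
    (h : TP K I n F π) {l : O} {x : V O N} (hx : ∀ i, (F i).coeff 0 = l * x i)
    (hx0 : red ∘ x ≠ 0) (h1 : Ord (rd red F) 0 μ y) (h2 : Ord (rd red π) 0 ν z) (hμ : 0 < μ) :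
    (∃ (σ : O) (H : V O[X] N) (d : ℤ), σ ≠ 0 ∧ red σ = 0 ∧
      (∀ i, (F i).comp (C σ * X) = C σ ^ μ * H i) ∧ Curve I n μ (rd red H) d ∧
      Par y (ev μ none (rd red H)) ∧ Par (ev μ (some 0) (rd red H)) (red ∘ x) ∧
      d ≤ ((n : ℤ) + 1) * μ - ν) ∨
    (∃ κ : ℤ, Chain I n y (red ∘ x) κ ∧ κ + 1 ≤ ((n : ℤ) + 1) * μ - ν) ∨
    ∃ (e : ℕ) (W : V Λ[X] N) (d κ : ℤ), Curve I n e W d ∧ Par y (ev e none W) ∧
      Chain I n (ev e (some 0) W) (red ∘ x) κ ∧ 0 < κ ∧ d + κ ≤ ((n : ℤ) + 1) * μ - ν := by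
  classical
  obtain ⟨σ, F', π', f, e, p, s, m, m', hz⟩ := zoom_step hV hn hr h h1 h2 (by omega)
  obtain ⟨l', hx'⟩ := hz.zero hr hx hx0
  obtain ⟨y₀, z₀, o1, hp, o2⟩ := hz.vx.ord 0
  obtain ⟨κ, hc, hκ⟩ := path_weak hV hn hl hr hz.tp hx' hx0 o1 o2
  have hs := hz.vx.sum
  have ht (b : Λ) : 0 ≤ ((n : ℤ) + 1) * m b - m' b ∧
      (0 < m b + m' b → 1 ≤ ((n : ℤ) + 1) * m b - m' b) := by
    obtain ⟨y₁, z₁, o1, -, o2⟩ := hz.vx.ord b
    obtain ⟨t1, t2⟩ := tail hV hn hl hr hz.tp o1 o2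
    refine ⟨t1, fun hb => ?_⟩
    obtain ⟨e, W, d, hW, -, hd⟩ := t2 hb
    exact (hl e W d hW).trans hd
  have hch := hz.vx.chain hp hc
  rw [hz.top] at hch
  have h0 := Finset.sum_nonneg fun b (_ : b ∈ s.erase 0) => (ht b).1
  by_cases hA : ∃ c ∈ s.erase 0, 0 < m c + m' c
  · obtain ⟨c, hc, hc'⟩ := hA
    have := Finset.single_le_sum (fun b (_ : b ∈ s.erase 0) => (ht b).1) hc
    have := (ht c).2 hc'
    exact .inr (.inl ⟨_, hch, by linarith⟩)
  have hB (c) (hc : c ∈ s.erase 0) : m c = 0 ∧ m' c = 0 := by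
    have : ¬0 < m c + m' c := fun h => hA ⟨c, hc, h⟩
    omega
  have hm := hz.vx.mu
  have hm' := hz.vx.nu
  rw [← Finset.add_sum_erase _ _ hz.vx.mem, Finset.sum_eq_zero fun c hc => (hB c hc).1] at hm
  rw [← Finset.add_sum_erase _ _ hz.vx.mem, Finset.sum_eq_zero fun c hc => (hB c hc).2] at hm'
  have he : 0 < e := Nat.pos_of_ne_zero fun h0 => by
    have := hz.vx.zero h0
    have := hz.lt
    omega
  have hf : Curve I n e f ((n + 1) * e - p) := ⟨he, hz.vx.map, hz.vx.deg⟩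
  rcases Nat.eq_zero_or_pos (m 0) with hm0 | hm0
  · obtain rfl : μ = e := by omega
    have h3 : rd red F' = f := funext fun i => by
      rw [hz.vx.fac, Finset.prod_eq_one, one_mul]
      intro b hb
      by_cases hb0 : b = 0
      · rw [hb0, hm0, pow_zero]
      · rw [(hB b (Finset.mem_erase.2 ⟨hb0, hb⟩)).1, pow_zero]
    have h4 : ev μ (some 0) f = red l' • (red ∘ x) := funext fun i => by
      rw [← h3, ev, val, ← coeff_zero_eq_eval_zero, rd, coeff_map, hx']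
      simp
    refine .inl ⟨σ, F', _, hz.ne, hz.rz, hz.eF, h3 ▸ hf, ?_, ?_, by linarith [(ht 0).1]⟩
    · rw [h3, hz.top]
      exact Par.refl _
    · rw [h3]
      refine Par.symm ⟨red l', fun h5 => ?_, h4⟩
      obtain ⟨i, hi⟩ := hz.vx.map.bpf (some 0)
      exact hi ((congrFun h4 i).trans (by simp [h5]))
  rcases (hc.nonneg hl).eq_or_lt with h5 | h5
  · have := (ht 0).2 (by omega)
    exact .inr (.inl ⟨_, hch, by linarith⟩)
  · exact .inr (.inr ⟨e, f, _, κ, hf, hz.top ▸ Par.refl _, hc.par_left hp.symm, h5, by linarith⟩)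

end

end Pool.Agent.Lib.MP_41050a_ag.NK
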